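import Pool.Agent.R460.GH.Conv

set_option autoImplicit false

/-! Windows with real end points, pairs of different primes. -/

namespace Pool.Agent.R460.GH

open Finset
open Pool.Agent.H560R3.GB (sing)
open Pool.Agent.W93.PG (cnt)

open Classical in
/-- The number of the primes `p` with `u < p ≤ v` such that `m - p` is a prime different from `p`. -/
noncomputable def dist (m : ℕ) (u v : ℝ) : ℕ :=
  ((range (m + 1)).filter (fun p : ℕ => p.Prime ∧ (m - p).Prime ∧ p ≠ m - p ∧ u < p ∧ (p : ℝ) ≤ v)).card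

lemma cnt_le_dist (m : ℕ) (u v : ℝ) (hu : 0 ≤ u) (hv : v ≤ m) :
    cnt m ⌊u⌋₊ ⌊v⌋₊ ≤ dist m u v + 1 := by
  classical
  unfold cnt dist
  have hsub : (Ioc ⌊u⌋₊ ⌊v⌋₊).filter (fun p => p.Prime ∧ (m - p).Prime) ⊆
      insert (m / 2) ((range (m + 1)).filter
        (fun p : ℕ => p.Prime ∧ (m - p).Prime ∧ p ≠ m - p ∧ u < p ∧ (p : ℝ) ≤ v)) := by
    intro p hp
    rw [mem_filter, mem_Ioc] at hp
    obtain ⟨⟨h1, h2⟩, h3, h4⟩ := hp
    have h5 : u < p := (Nat.floor_lt hu).1 h1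
    have h6 : (p : ℝ) ≤ v := by
      rcases le_or_gt 0 v with h | h
      · exact (Nat.le_floor_iff h).1 h2
      · rw [Nat.floor_of_nonpos h.le] at h2
        omega
    have h7 : p ≤ m := by
      have : (p : ℝ) ≤ m := h6.trans hv
      exact_mod_cast this
    rw [mem_insert, mem_filter, mem_range]
    by_cases h8 : p = m - p
    · left; omega
    · right; exact ⟨by omega, h3, h4, h8, h5, h6⟩
  exact (card_le_card hsub).trans (card_insert_le _ _)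

lemma dist_le_cnt (m : ℕ) (u v : ℝ) (hu : 0 ≤ u) :
    dist m u v ≤ cnt m ⌊u⌋₊ ⌊v⌋₊ := by
  classical
  unfold cnt dist
  apply card_le_card
  intro p hp
  rw [mem_filter] at hp
  obtain ⟨_, h3, h4, _, h5, h6⟩ := hp
  rw [mem_filter, mem_Ioc]
  refine ⟨⟨(Nat.floor_lt hu).2 h5, Nat.le_floor h6⟩, h3, h4⟩

/-- the property of the number `m` -/
def DistHolds (ε : ℝ) (W m : ℕ) : Prop :=
  (∀ u v : ℝ, √(m : ℝ) ≤ u → v ≤ m → (m : ℝ) / Real.log m ^ W ≤ v - u →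
    |(dist m u v : ℝ) - sing m * (v - u) / Real.log m ^ 2| ≤ ε * (sing m * (v - u) / Real.log m ^ 2)) ∧
  ∃ p r : ℕ, p.Prime ∧ r.Prime ∧ p ≠ r ∧ p + r = m ∧ √(m : ℝ) < p ∧
    (p : ℝ) ≤ √(m : ℝ) + (m : ℝ) / Real.log m ^ W

lemma distHolds_of (ε : ℝ) (hε : 0 < ε) (W : ℕ) (hW : 1 ≤ W) : ∃ n₀ : ℕ, ∀ m : ℕ, n₀ ≤ m → 2 ∣ m →
    Pool.Agent.W93.PG.WinP (min ε (1 / 2) / 2) (W + 1) m → DistHolds ε W m := by
  obtain ⟨δ, hδ⟩ : ∃ δ, δ = min ε (1 / 2) := ⟨_, rfl⟩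
  have hδ0 : 0 < δ := by rw [hδ]; exact lt_min hε (by norm_num)
  have hδε : δ ≤ ε := by rw [hδ]; exact min_le_left _ _
  have hδ2 : δ ≤ 1 / 2 := by rw [hδ]; exact min_le_right _ _
  rw [← hδ]
  obtain ⟨x₀, hx₀⟩ := Filter.eventually_atTop.1
    (Pool.Agent.R460.GS.real_log (W + 3) (s := 1) (by norm_num) (21 + 12 / δ))
  obtain ⟨x₁, hx₁⟩ := Filter.eventually_atTop.1
    (Pool.Agent.R460.GS.real_log (W + 1) (s := 1 / 2) (by norm_num) 21)
  refine ⟨⌈x₀⌉₊ + ⌈x₁⌉₊ + 100, fun m hm _ hwin => ?_⟩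
  have hmx : x₀ ≤ (m : ℝ) := (Nat.le_ceil x₀).trans (by exact_mod_cast (by omega : ⌈x₀⌉₊ ≤ m))
  have hmx1 : x₁ ≤ (m : ℝ) := (Nat.le_ceil x₁).trans (by exact_mod_cast (by omega : ⌈x₁⌉₊ ≤ m))
  obtain ⟨hL, hLW⟩ := hx₀ m hmx
  obtain ⟨_, hLW1⟩ := hx₁ m hmx1
  rw [Real.rpow_one] at hLW
  have hm0 : (100 : ℝ) ≤ m := by exact_mod_cast (by omega : 100 ≤ m)
  obtain ⟨L, hLd⟩ : ∃ L, L = Real.log m := ⟨_, rfl⟩
  rw [← hLd] at hL hLW hLW1
  have h12 : 0 < 12 / δ := by positivity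
  have hL21 : 21 ≤ L := by linarith
  have hLδ : 12 / δ ≤ L := by linarith
  have hL0 : 0 < L := by linarith
  have hL1 : 1 ≤ L := by linarith
  have hsq : (m : ℝ) ^ (1 / 2 : ℝ) = √(m : ℝ) := by rw [Real.sqrt_eq_rpow]
  rw [hsq] at hLW1
  have hs0 : 0 < √(m : ℝ) := Real.sqrt_pos.2 (by linarith)
  have hss : √(m : ℝ) * √(m : ℝ) = m := Real.mul_self_sqrt (by linarith)
  have hs10 : 10 ≤ √(m : ℝ) := by
    rw [show (10 : ℝ) = √(100 : ℝ) by
      rw [show (100 : ℝ) = 10 ^ 2 by norm_num, Real.sqrt_sq (by norm_num)]]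
    exact Real.sqrt_le_sqrt hm0
  have hpW : 0 < L ^ W := by positivity
  have hpW1 : 0 < L ^ (W + 1) := by positivity
  have hlen2 : L * (m / L ^ (W + 1)) = m / L ^ W := by
    rw [pow_succ]
    field_simp
  have hmW3 : L ^ 3 ≤ m / L ^ W := by
    rw [le_div_iff₀ hpW, ← pow_add, add_comm]
    exact hLW
  have hlen1 : √(m : ℝ) ≤ m / L ^ (W + 1) := by
    rw [le_div_iff₀ hpW1]
    nlinarith
  have hsing := Pool.Agent.R460.GS.one_le_sing m
  have h1 : ∀ u v : ℝ, √(m : ℝ) ≤ u → v ≤ m → (m : ℝ) / L ^ W ≤ v - u →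
      |(dist m u v : ℝ) - sing m * (v - u) / L ^ 2| ≤ δ * (sing m * (v - u) / L ^ 2) := by
    intro u v hu hv huv
    have hu0 : 0 ≤ u := hs0.le.trans hu
    have hL3 : L ^ 3 ≤ v - u := hmW3.trans huv
    have hL2 : (1 : ℝ) ≤ L ^ 2 := one_le_pow₀ hL1
    have hL2p : 0 < L ^ 2 := by positivity
    have hL3' : L ^ 3 = L * L ^ 2 := by ring
    have hvu : 21 ≤ v - u := by nlinarith
    have hv0 : 0 ≤ v := by linarith
    have hf1 : (⌊u⌋₊ : ℝ) ≤ u := Nat.floor_le hu0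
    have hf1' : u < ⌊u⌋₊ + 1 := Nat.lt_floor_add_one u
    have hf2 : v < ⌊v⌋₊ + 1 := Nat.lt_floor_add_one v
    have hf3 : (⌊v⌋₊ : ℝ) ≤ v := Nat.floor_le hv0
    have hlt : ⌊u⌋₊ < ⌊v⌋₊ := by
      have : (⌊u⌋₊ : ℝ) < ⌊v⌋₊ := by linarith
      exact_mod_cast this
    have hle : ⌊v⌋₊ ≤ m := by
      have : (⌊v⌋₊ : ℝ) ≤ m := by linarith
      exact_mod_cast this
    have h2 := hwin ⌊u⌋₊ ⌊v⌋₊ hlt hle (by
      rw [← hLd]
      have h3 : 2 * (m / L ^ (W + 1)) ≤ m / L ^ W := by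
        rw [← hlen2]
        exact mul_le_mul_of_nonneg_right (by linarith) (by positivity)
      have h4 : (1 : ℝ) ≤ m / L ^ (W + 1) := by linarith
      linarith)
    rw [← hLd] at h2
    have h3 : (cnt m ⌊u⌋₊ ⌊v⌋₊ : ℝ) ≤ dist m u v + 1 := by exact_mod_cast cnt_le_dist m u v hu0 hv
    have h4 : (dist m u v : ℝ) ≤ cnt m ⌊u⌋₊ ⌊v⌋₊ := by exact_mod_cast dist_le_cnt m u v hu0
    obtain ⟨X, hX⟩ : ∃ X, X = sing m * ((⌊v⌋₊ : ℝ) - ⌊u⌋₊) / L ^ 2 := ⟨_, rfl⟩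
    obtain ⟨Y, hY⟩ : ∃ Y, Y = sing m * (v - u) / L ^ 2 := ⟨_, rfl⟩
    obtain ⟨Z, hZ⟩ : ∃ Z, Z = sing m / L ^ 2 := ⟨_, rfl⟩
    rw [← hX] at h2
    rw [← hY]
    have hs1 : 1 ≤ sing m := hsing
    have hZ0 : 0 < Z := by rw [hZ]; positivity
    have hXY : |X - Y| ≤ Z := by
      have e : X - Y = Z * (((⌊v⌋₊ : ℝ) - ⌊u⌋₊) - (v - u)) := by
        rw [hX, hY, hZ]
        field_simp
      rw [e, abs_mul, abs_of_pos hZ0]
      calc Z * |((⌊v⌋₊ : ℝ) - ⌊u⌋₊) - (v - u)| ≤ Z * 1 := by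
            apply mul_le_mul_of_nonneg_left _ hZ0.le
            rw [abs_le]
            constructor <;> linarith
        _ = Z := mul_one Z
    -- `1 + 2 Z ≤ (δ / 2) Y`
    have hYZ : Y = Z * (v - u) := by rw [hY, hZ]; field_simp
    have hZL : 1 ≤ Z * L ^ 2 := by
      rw [hZ, div_mul_cancel₀ _ hL2p.ne']
      exact hs1
    have hδL : 12 ≤ δ * L := by
      have := mul_le_mul_of_nonneg_left hLδ hδ0.le
      rwa [mul_div_cancel₀ _ hδ0.ne'] at this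
    have h5 : 12 * L ^ 2 ≤ δ * (v - u) := by
      calc 12 * L ^ 2 ≤ δ * L * L ^ 2 := mul_le_mul_of_nonneg_right hδL hL2p.le
        _ = δ * L ^ 3 := by ring
        _ ≤ δ * (v - u) := mul_le_mul_of_nonneg_left hL3 hδ0.le
    have h6 : 12 * (Z * L ^ 2) ≤ δ * Y := by
      rw [hYZ]
      nlinarith [mul_le_mul_of_nonneg_left h5 hZ0.le]
    have h7 : Z ≤ Z * L ^ 2 := le_mul_of_one_le_right hZ0.le hL2
    have h8 : 1 + 2 * Z ≤ δ / 2 * Y := by nlinarith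
    have h9 := abs_le.1 h2
    have h10 := abs_le.1 hXY
    have hY0 : 0 ≤ Y := by nlinarith
    have h11 : X ≤ Y + Z := by linarith
    have h12 : δ / 2 * X ≤ δ / 2 * Y + Z := by nlinarith
    rw [abs_le]
    constructor
    · linarith
    · linarith
  refine ⟨?_, ?_⟩
  · rw [← hLd]
    intro u v hu hv huv
    refine (h1 u v hu hv huv).trans ?_
    apply mul_le_mul_of_nonneg_right hδε
    have : 0 ≤ v - u := le_trans (by positivity) huv
    positivity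
  · rw [← hLd]
    have hWlen : m / L ^ W ≤ m / 21 := by
      apply div_le_div_of_nonneg_left (by linarith) (by norm_num)
      calc (21 : ℝ) ≤ L := hL21
        _ = L ^ 1 := (pow_one L).symm
        _ ≤ L ^ W := pow_le_pow_right₀ hL1 hW
    have hsm : √(m : ℝ) ≤ m / 10 := by
      rw [le_div_iff₀ (by norm_num)]
      nlinarith
    have h2 := (abs_le.1 (h1 (√(m : ℝ)) (√(m : ℝ) + m / L ^ W) le_rfl (by linarith) (by linarith))).1
    have hpos : 0 < sing m * (√(m : ℝ) + m / L ^ W - √(m : ℝ)) / L ^ 2 := by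
      have : 0 < √(m : ℝ) + m / L ^ W - √(m : ℝ) := by
        have : 0 < (m : ℝ) / L ^ W := by positivity
        linarith
      positivity
    have h3 : 0 < (dist m (√(m : ℝ)) (√(m : ℝ) + m / L ^ W) : ℝ) := by nlinarith
    have h4 : 0 < dist m (√(m : ℝ)) (√(m : ℝ) + m / L ^ W) := by exact_mod_cast h3
    unfold dist at h4
    rw [card_pos] at h4
    obtain ⟨p, hp⟩ := h4
    rw [mem_filter, mem_range] at hp
    obtain ⟨hp0, hp1, hp2, hp3, hp4, hp5⟩ := hp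
    exact ⟨p, m - p, hp1, hp2, hp3, by omega, hp4, hp5⟩

end Pool.Agent.R460.GH
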