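import Pool.Agent.R460.GH.Main
import Pool.Agent.R460.GS.Core2
import Pool.Agent.R460.GS.Shm
import Pool.Agent.R460.GS.Ti2
import Pool.Agent.R461.GS.Shl5
import Pool.Agent.Y883.GJ.Asm

/-!
Project GH, the assembly: for every modulus up to `N ^ (2/3 - ρ)` and every residue class whose common
divisor with the modulus is at most a power of `log N`, the formula of Hardy and Littlewood holds in all
windows for all but few of the even numbers of the class.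
-/

set_option autoImplicit false

namespace Pool.Agent.R460.GH

open Pool.Agent.Y883.GJ
open Pool.Agent.R460.GS

theorem errH_all : ErrHStm :=
  err_H
    (core3 Pool.Agent.Y708.GJ.lift Pool.Agent.Y872.GJ.pars Pool.Agent.Y297.GJ.orth Pool.Agent.Y812.GJ.nonU)
    (shm Pool.Agent.Y297.GJ.orth Pool.Agent.Y662.GJ.jac)
    (Pool.Agent.R461.GS.shl Pool.Agent.Y235.GJ.vau Pool.Agent.Y662.GJ.jac Pool.Agent.Y812.GJ.l2)
    Pool.Agent.Y812.GJ.l2 (bilMaj3 Pool.Agent.Y812.GJ.l2 (countK Pool.Agent.Y812.GJ.l2))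
    Pool.Agent.Y909.GJ.bilMin (tiMaj2 Pool.Agent.Y812.GJ.l2) Pool.Agent.Y412.GJ.tiMin
    Pool.Agent.Y812.GJ.lsh_le Pool.Agent.Y883.GJ.model_all

/-- the theorem of project GH -/
theorem gh_all (ε : ℝ) (hε : 0 < ε) (ρ : ℝ) (hρ : 0 < ρ) (A W T : ℕ) :
    ∃ N₀ : ℕ, ∀ N : ℕ, N₀ ≤ N → ∀ q : ℕ, 1 ≤ q → (q : ℝ) ≤ (N : ℝ) ^ (2 / 3 - ρ) → ∀ a : ℕ,
      (Nat.gcd a q : ℝ) ≤ Real.log N ^ T →
        ((Pool.Agent.Y883.T4.badc (Pool.Agent.W93.PG.WinP ε W) N q a).card : ℝ) ≤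
          (N : ℝ) / (q * Real.log N ^ A) :=
  gh_main errH_all ε hε ρ hρ A W T

end Pool.Agent.R460.GH
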