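import Pool.Agent.R460.GS.Bil2
import Pool.Agent.Y662.GJ.Count

set_option autoImplicit false

/-! Bilinear sums on the major arcs for general exponents. Adapted from `GS/Bil2`. -/

namespace Pool.Agent.R460.GH

open Finset
open Pool.Agent.H807R2.Dav (ee)
open Pool.Agent.Y883.GJ
open Pool.Agent.R460.GS (one_class2 small_y)
open Pool.Agent.Y183.GJ (ci gi Yi Xi gi_pos gi_succ gi_le lt_gi ai wn w_sum w_le decomp norm_ev sq_sum_norm)

open Classical in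
/-- COUNT for a general power -/
def CountKStm : Prop := ∀ J : ℕ, 1 ≤ J → ∃ c : ℕ, ∀ (q X : ℕ) [NeZero q] (a : ℕ → ℂ) (ℓ T : ℝ), 1 ≤ X →
  1 + Real.log X ≤ ℓ → 0 < T → (∀ m ∈ Icc 1 X, ‖a m‖ ≤ ℓ * (m.divisors.card : ℝ)) →
  ((univ.filter (fun χ : DirichletCharacter ℂ q =>
      T < ‖∑ m ∈ Icc 1 X, a m * χ (m : ZMod q)‖)).card : ℝ) * T ^ (2 * J) ≤
    ((X : ℝ) ^ J + q) * X ^ J * (J * ℓ) ^ c

open Pool.Agent.Y662.GJ (power) in
/-- the estimate in terms of the mean value and the moments of the divisor function -/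
theorem countK (h : L2Stm) : CountKStm := by
  classical
  intro J hJ
  obtain ⟨j, rfl⟩ : ∃ j, J = j + 1 := ⟨J - 1, by omega⟩
  obtain ⟨k, hk⟩ : ∃ k : ℕ, k = 2 ^ (2 * (2 * j + 1)) := ⟨_, rfl⟩
  refine ⟨k + 2 * (j + 1), ?_⟩
  intro q X _ a ℓ T hX hℓ hT ha
  have hlog : 0 ≤ Real.log X := Real.log_nonneg (by exact_mod_cast hX)
  have hℓ1 : 1 ≤ ℓ := by linarith
  have hℓ0 : 0 ≤ ℓ := by linarith
  have hj1 : (1 : ℝ) ≤ ((j + 1 : ℕ) : ℝ) := by exact_mod_cast Nat.succ_pos j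
  obtain ⟨S, hSd⟩ : ∃ S : Finset (DirichletCharacter ℂ q), S = univ.filter (fun χ : DirichletCharacter ℂ q =>
      T < ‖∑ m ∈ Icc 1 X, a m * χ (m : ZMod q)‖) := ⟨_, rfl⟩
  have hS : ∀ χ ∈ S, T < ‖∑ m ∈ Icc 1 X, a m * χ (m : ZMod q)‖ := by
    intro χ hχ
    rw [hSd] at hχ
    exact (Finset.mem_filter.mp hχ).2
  rw [← hSd]
  obtain ⟨w, hw, hw2⟩ := power q X a ℓ hℓ0 ha j
  have h1 : (S.card : ℝ) * T ^ (2 * (j + 1)) ≤
      ∑ χ : DirichletCharacter ℂ q, ‖∑ n ∈ Icc 1 (X ^ (j + 1)), w n * χ (n : ZMod q)‖ ^ 2 := by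
    calc (S.card : ℝ) * T ^ (2 * (j + 1)) = ∑ χ ∈ S, T ^ (2 * (j + 1)) := by rw [Finset.sum_const, nsmul_eq_mul]
      _ ≤ ∑ χ ∈ S, ‖∑ n ∈ Icc 1 (X ^ (j + 1)), w n * χ (n : ZMod q)‖ ^ 2 := by
          refine Finset.sum_le_sum fun χ hχ => ?_
          rw [← hw2 χ, norm_pow, ← pow_mul, mul_comm (j + 1) 2]
          exact pow_le_pow_left₀ hT.le (hS χ hχ).le _
      _ ≤ _ := Finset.sum_le_sum_of_subset_of_nonneg (Finset.subset_univ _)
          (fun _ _ _ => by positivity)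
  have hpos : (0 : ℝ) ≤ (((j + 1 : ℕ) : ℝ) * ℓ) := by positivity
  have h2 : ∑ n ∈ Icc 1 (X ^ (j + 1)), ‖w n‖ ^ 2 ≤ (X : ℝ) ^ (j + 1) * (((j + 1 : ℕ) : ℝ) * ℓ) ^ (k + 2 * (j + 1)) := by
    calc ∑ n ∈ Icc 1 (X ^ (j + 1)), ‖w n‖ ^ 2 ≤
        ∑ n ∈ Icc 1 (X ^ (j + 1)), ℓ ^ (2 * (j + 1)) * (n.divisors.card : ℝ) ^ (2 * (2 * j + 1)) := by
          refine Finset.sum_le_sum fun n hn => ?_
          calc ‖w n‖ ^ 2 ≤ (ℓ ^ (j + 1) * (n.divisors.card : ℝ) ^ (2 * j + 1)) ^ 2 :=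
                pow_le_pow_left₀ (norm_nonneg _) (hw n hn) _
            _ = _ := by
                rw [mul_pow, ← pow_mul, ← pow_mul, mul_comm (j + 1) 2, mul_comm (2 * j + 1) 2]
      _ = ℓ ^ (2 * (j + 1)) * ∑ n ∈ Icc 1 (X ^ (j + 1)), (n.divisors.card : ℝ) ^ (2 * (2 * j + 1)) := by
          rw [Finset.mul_sum]
      _ ≤ ℓ ^ (2 * (j + 1)) * (((X ^ (j + 1) : ℕ) : ℝ) * (1 + Real.log ((X ^ (j + 1) : ℕ) : ℝ)) ^ k) := by
          refine mul_le_mul_of_nonneg_left ?_ (by positivity)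
          rw [hk]
          exact Pool.Agent.TH935.LD.tau_pow_sum _ _
      _ ≤ (((j + 1 : ℕ) : ℝ) * ℓ) ^ (2 * (j + 1)) * ((X : ℝ) ^ (j + 1) * (((j + 1 : ℕ) : ℝ) * ℓ) ^ k) := by
          rw [Nat.cast_pow, Real.log_pow]
          have e1 : (1 + ((j + 1 : ℕ) : ℝ) * Real.log X) ≤ ((j + 1 : ℕ) : ℝ) * ℓ := by
            have : ((j + 1 : ℕ) : ℝ) * (1 + Real.log X) ≤ ((j + 1 : ℕ) : ℝ) * ℓ := by gcongr
            linarith
          have e0 : 0 ≤ 1 + ((j + 1 : ℕ) : ℝ) * Real.log X := by positivity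
          have e2 := pow_le_pow_left₀ e0 e1 k
          have e3 : ℓ ≤ ((j + 1 : ℕ) : ℝ) * ℓ := le_mul_of_one_le_left hℓ0 hj1
          refine mul_le_mul (pow_le_pow_left₀ hℓ0 e3 _)
            (mul_le_mul_of_nonneg_left e2 (by positivity)) (by positivity) (by positivity)
      _ = _ := by rw [pow_add]; ring
  calc (S.card : ℝ) * T ^ (2 * (j + 1)) ≤ _ := h1
    _ ≤ (((X ^ (j + 1) : ℕ) : ℝ) + q) * ∑ n ∈ Icc 1 (X ^ (j + 1)), ‖w n‖ ^ 2 := (h q _ w).1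
    _ ≤ (((X ^ (j + 1) : ℕ) : ℝ) + q) * ((X : ℝ) ^ (j + 1) * (((j + 1 : ℕ) : ℝ) * ℓ) ^ (k + 2 * (j + 1))) :=
        mul_le_mul_of_nonneg_left h2 (by positivity)
    _ = _ := by push_cast; ring

/-- BILMAJ3: bilinear sums, major arcs, all characters but few bad ones, general exponents -/
def BilMaj3Stm : Prop := ∀ (A C J : ℕ) (θ κ σ : ℝ), 0 < κ → 1 ≤ J → θ ≤ J * κ → θ + σ ≤ 1 → σ ≤ 1 / 2 → θ ≤ 1 →
  ∃ C₃ N₀ : ℕ, ∀ N : ℕ, N₀ ≤ N →
  ∀ (q : ℕ) [NeZero q], (q : ℝ) ≤ (N : ℝ) ^ θ → ∀ a : ℕ → ℂ,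
  (∀ m ∈ Icc 1 N, ‖a m‖ ≤ Real.log N * (m.divisors.card : ℝ)) →
  (∀ m, a m ≠ 0 → (N : ℝ) ^ κ ≤ 2 * m ∧ (m : ℝ) ≤ (N : ℝ) ^ σ) →
  ∃ B : Finset (DirichletCharacter ℂ q), (B.card : ℝ) ≤ Real.log N ^ C₃ ∧
    ∀ b : ℕ → ℂ, (∀ m ∈ Icc 1 N, ‖b m‖ ≤ Real.log N * (m.divisors.card : ℝ)) →
    ∀ η : ℝ, |η| ≤ Real.log N ^ C / N → ∀ y : ℕ, y ≤ N →
    ∀ S : Finset (DirichletCharacter ℂ q), Disjoint S B →
    ‖∑ m ∈ Icc 1 y, ∑ k ∈ Icc 1 (y / m), (a m * b k) • ev S η (m * k)‖ ^ 2 ≤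
      (N : ℝ) ^ 2 / Real.log N ^ A

open Classical in
/-- one class in the count of the bad characters -/
lemma one_count3 {c Jp : ℕ} {θ κ : ℝ} (hθκ : θ ≤ Jp * κ) (hc : ∀ (q X : ℕ) [NeZero q] (a : ℕ → ℂ) (ℓ T : ℝ), 1 ≤ X →
    1 + Real.log X ≤ ℓ → 0 < T → (∀ m ∈ Icc 1 X, ‖a m‖ ≤ ℓ * (m.divisors.card : ℝ)) →
    ((univ.filter (fun χ : DirichletCharacter ℂ q =>
      T < ‖∑ m ∈ Icc 1 X, a m * χ (m : ZMod q)‖)).card : ℝ) * T ^ (2 * Jp) ≤
      ((X : ℝ) ^ Jp + q) * X ^ Jp * (Jp * ℓ) ^ c)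
    {q N i K : ℕ} [NeZero q] {δ : ℝ} (hδ : 0 < δ) (hδ1 : δ ≤ 1) (hN : 9 ≤ N)
    (hL1 : 2000000 ≤ Real.log N) (hL2 : 2 * (18 : ℝ) ^ Jp * (2 * (Jp : ℝ)) ^ c ≤ Real.log N)
    {a : ℕ → ℂ} (ha : ∀ m ∈ Icc 1 N, ‖a m‖ ≤ Real.log N * (m.divisors.card : ℝ))
    (ha' : ∀ m, a m ≠ 0 → (N : ℝ) ^ κ ≤ 2 * m ∧ m * m ≤ N)
    (hqN : (q : ℝ) ≤ (N : ℝ) ^ θ) :
    ((univ.filter (fun χ : DirichletCharacter ℂ q =>
      gi δ i * (Real.log N ^ K)⁻¹ < ‖∑ m ∈ Icc 1 (Xi δ i), ai δ a i m * χ (m : ZMod q)‖)).card : ℝ) ≤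
      Real.log N ^ (2 * Jp * K + c + 2) := by
  obtain ⟨L, hL⟩ : ∃ L, L = Real.log (N : ℝ) := ⟨_, rfl⟩
  rw [← hL] at hL1 hL2 ha ⊢
  have hL0 : 0 < L := by linarith
  have hN0 : (0 : ℝ) < N := by
    have : (9 : ℝ) ≤ N := by exact_mod_cast hN
    linarith
  obtain ⟨g, hgd⟩ : ∃ g, g = gi δ i := ⟨_, rfl⟩
  have hg : 0 < g := by
    rw [hgd]
    exact gi_pos δ i
  by_cases htriv : ∀ m ∈ Icc 1 (Xi δ i), ai δ a i m = 0
  · have h2 : ∀ χ : DirichletCharacter ℂ q, ∑ m ∈ Icc 1 (Xi δ i), ai δ a i m * χ (m : ZMod q) = 0 :=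
      fun χ => sum_eq_zero fun m hm => by rw [htriv m hm, zero_mul]
    have h3 : (univ.filter (fun χ : DirichletCharacter ℂ q =>
        gi δ i * (L ^ K)⁻¹ < ‖∑ m ∈ Icc 1 (Xi δ i), ai δ a i m * χ (m : ZMod q)‖)) = ∅ := by
      refine filter_eq_empty_iff.2 fun χ _ => ?_
      rw [h2, norm_zero, not_lt, ← hgd]
      positivity
    rw [h3, card_empty, Nat.cast_zero]
    positivity
  · push Not at htriv
    obtain ⟨m, hm, hm0⟩ := htriv
    rw [mem_Icc] at hm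
    have hci : ci δ m = i := by
      by_contra h
      exact hm0 (if_neg h)
    have ham : a m ≠ 0 := by
      unfold ai at hm0
      rwa [if_pos hci] at hm0
    have hgm : g ≤ m := by
      rw [hgd, ← hci]
      exact gi_le hδ hm.1
    have hmg : (m : ℝ) ≤ gi δ (i + 1) := by
      rw [← hci]
      exact (lt_gi hδ hm.1).le
    obtain ⟨ham1, ham2⟩ := ha' m ham
    have hg3 : gi δ (i + 1) ≤ 3 * g := by
      rw [gi_succ, ← hgd, mul_comm]
      refine mul_le_mul_of_nonneg_right ?_ hg.le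
      have h3 := Real.exp_le_exp.2 hδ1
      have h4 := Real.exp_one_lt_d9
      linarith
    have hX : (Xi δ i : ℝ) ≤ 3 * g := (Nat.floor_le (gi_pos _ _).le).trans hg3
    have hX1 : 1 ≤ Xi δ i := hm.1.trans hm.2
    have hmN : (m : ℝ) * m ≤ N := by exact_mod_cast ham2
    have hXN : (Xi δ i : ℝ) ≤ N := by
      have h3 : (9 : ℝ) ≤ N := by exact_mod_cast hN
      have h4 : 3 * (m : ℝ) ≤ N := by nlinarith [sq_nonneg ((m : ℝ) - 3)]
      linarith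
    have hlog : 1 + Real.log (Xi δ i) ≤ 2 * L := by
      have : Real.log (Xi δ i) ≤ Real.log N :=
        Real.log_le_log (by exact_mod_cast hX1) hXN
      rw [← hL] at this
      linarith
    have hT : 0 < g * (L ^ K)⁻¹ := by positivity
    have h3 := hc q (Xi δ i) (ai δ a i) (2 * L) (g * (L ^ K)⁻¹) hX1 hlog hT (by
      intro j hj
      rw [mem_Icc] at hj
      unfold ai
      by_cases h : ci δ j = i
      · rw [if_pos h]
        by_cases h0 : a j = 0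
        · rw [h0, norm_zero]
          positivity
        · have hj2 : j ≤ N := by
            have h4 := (ha' j h0).2
            nlinarith [hj.1]
          refine (ha j (mem_Icc.2 ⟨hj.1, hj2⟩)).trans ?_
          refine mul_le_mul_of_nonneg_right (by linarith) (Nat.cast_nonneg _)
      · rw [if_neg h, norm_zero]
        positivity)
    rw [hgd] at h3
    obtain ⟨n, hn⟩ : ∃ n : ℝ, n = ((univ.filter (fun χ : DirichletCharacter ℂ q =>
      gi δ i * (L ^ K)⁻¹ < ‖∑ m ∈ Icc 1 (Xi δ i), ai δ a i m * χ (m : ZMod q)‖)).card : ℝ) :=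
        ⟨_, rfl⟩
    rw [← hn] at h3 ⊢
    rw [← hgd] at h3
    have hn0 : 0 ≤ n := by
      rw [hn]
      exact Nat.cast_nonneg _
    have hg6 : (N : ℝ) ^ κ ≤ 6 * g := by linarith
    have hNr1 : (1 : ℝ) ≤ N := by
      have : (9 : ℝ) ≤ N := by exact_mod_cast hN
      linarith
    have hq5 : (q : ℝ) ≤ (6 * g) ^ Jp := by
      calc (q : ℝ) ≤ (N : ℝ) ^ θ := hqN
        _ ≤ (N : ℝ) ^ ((Jp : ℝ) * κ) := Real.rpow_le_rpow_of_exponent_le hNr1 hθκ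
        _ = ((N : ℝ) ^ κ) ^ Jp := by
            rw [← Real.rpow_natCast, ← Real.rpow_mul hN0.le]
            congr 1
            ring
        _ ≤ (6 * g) ^ Jp := pow_le_pow_left₀ (by positivity) hg6 Jp
    have hX5 : (Xi δ i : ℝ) ^ Jp ≤ (3 * g) ^ Jp := pow_le_pow_left₀ (Nat.cast_nonneg _) hX Jp
    have hX6 : (Xi δ i : ℝ) ^ Jp ≤ (6 * g) ^ Jp := pow_le_pow_left₀ (Nat.cast_nonneg _) (by linarith) Jp
    have h4 : ((Xi δ i : ℝ) ^ Jp + q) * (Xi δ i : ℝ) ^ Jp * (Jp * (2 * L)) ^ c ≤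
        L ^ (c + 1) * g ^ (2 * Jp) := by
      calc ((Xi δ i : ℝ) ^ Jp + q) * (Xi δ i : ℝ) ^ Jp * (Jp * (2 * L)) ^ c ≤
          ((6 * g) ^ Jp + (6 * g) ^ Jp) * (3 * g) ^ Jp * (Jp * (2 * L)) ^ c := by
            refine mul_le_mul_of_nonneg_right (mul_le_mul (add_le_add hX6 hq5) hX5 (by positivity)
              (by positivity)) (by positivity)
        _ = (2 * ((6 : ℝ) ^ Jp * 3 ^ Jp) * (2 * (Jp : ℝ)) ^ c) * (L ^ c * (g ^ Jp * g ^ Jp)) := by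
            rw [mul_pow, mul_pow, show (Jp : ℝ) * (2 * L) = (2 * Jp) * L by ring, mul_pow (2 * (Jp : ℝ)) L c]
            ring
        _ ≤ L * (L ^ c * (g ^ Jp * g ^ Jp)) := by
            apply mul_le_mul_of_nonneg_right _ (by positivity)
            rw [← mul_pow, show (6 : ℝ) * 3 = 18 by norm_num]
            exact hL2
        _ = L ^ (c + 1) * g ^ (2 * Jp) := by
            rw [two_mul, pow_add g, pow_succ]
            ring
    have h5 : n * (g * (L ^ K)⁻¹) ^ (2 * Jp) ≤ L ^ (c + 1) * g ^ (2 * Jp) := h3.trans h4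
    have h6 : (g * (L ^ K)⁻¹) ^ (2 * Jp) = g ^ (2 * Jp) * (L ^ (2 * Jp * K))⁻¹ := by
      rw [mul_pow, inv_pow, ← pow_mul, mul_comm K]
    rw [h6] at h5
    have h7 : n ≤ L ^ (c + 1) * L ^ (2 * Jp * K) := by
      have h8 : 0 < g ^ (2 * Jp) := by positivity
      have h9 : 0 < L ^ (2 * Jp * K) := by positivity
      have h10 : n * (L ^ (2 * Jp * K))⁻¹ ≤ L ^ (c + 1) := by
        have h11 : (n * (L ^ (2 * Jp * K))⁻¹) * g ^ (2 * Jp) ≤ L ^ (c + 1) * g ^ (2 * Jp) := by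
          calc (n * (L ^ (2 * Jp * K))⁻¹) * g ^ (2 * Jp) = n * (g ^ (2 * Jp) * (L ^ (2 * Jp * K))⁻¹) := by ring
            _ ≤ _ := h5
        exact le_of_mul_le_mul_right h11 h8
      rwa [← div_eq_mul_inv, div_le_iff₀ h9] at h10
    refine h7.trans ?_
    rw [← pow_add]
    exact pow_le_pow_right₀ (by linarith) (by omega)

theorem bilMaj3 (h1 : L2Stm) (h2 : CountKStm) : BilMaj3Stm := by
  intro A C Jp θ κ σ hκ hJp hθκ hθσ hσ hθ1
  obtain ⟨c, hc⟩ := h2 Jp hJp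
  obtain ⟨p₁, hp₁⟩ : ∃ p₁ : ℕ, 2 ^ 12 = p₁ := ⟨_, rfl⟩
  obtain ⟨p₂, hp₂⟩ : ∃ p₂ : ℕ, 2 ^ 6 = p₂ := ⟨_, rfl⟩
  have hp21 : p₂ ≤ p₁ := by
    rw [← hp₁, ← hp₂]
    norm_num
  obtain ⟨K₂, hK₂⟩ : ∃ K₂ : ℕ, K₂ = A + 2 * C + p₁ + 20 := ⟨_, rfl⟩
  obtain ⟨K, hK⟩ : ∃ K : ℕ, K = 2 * K₂ + A + 8 := ⟨_, rfl⟩
  obtain ⟨n1, hn1⟩ := Pool.Agent.TH935.LD.ev_L' (2000000 + 2 * (18 : ℝ) ^ Jp * (2 * (Jp : ℝ)) ^ c)
  obtain ⟨n2, hn2⟩ := Pool.Agent.TH935.LD.log_pow_small (2 * K₂)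
  obtain ⟨n3, hn3⟩ := Filter.eventually_atTop.1
    (Pool.Agent.Y614.GJ.Core.ev_log (A + 140) (s := 1 / 2) (by norm_num) 1)
  refine ⟨2 * K₂ + 2 * Jp * K + c + 4, max n3 (max (max n1 n2) 9), fun N hN' q _ hq a ha ha'' => ?_⟩
  have hN : max (max n1 n2) 9 ≤ N := le_trans (le_max_right _ _) hN'
  have hN3 : n3 ≤ N := le_trans (le_max_left _ _) hN'
  have hN1 : n1 ≤ N := le_trans (le_trans (le_max_left _ _) (le_max_left _ _)) hN
  have hN2 : n2 ≤ N := le_trans (le_trans (le_max_right _ _) (le_max_left _ _)) hN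
  have hN9 : 9 ≤ N := le_trans (le_max_right _ _) hN
  have hNr : (9 : ℝ) ≤ N := by exact_mod_cast hN9
  have hN0 : (0 : ℝ) < N := by linarith
  have hNr1 : (1 : ℝ) ≤ N := by linarith
  have hm2 : ∀ m, a m ≠ 0 → m * m ≤ N := by
    intro m hm
    have h3 := (ha'' m hm).2
    have h4 : (m : ℝ) * m ≤ N := by
      calc (m : ℝ) * m ≤ (N : ℝ) ^ σ * (N : ℝ) ^ σ :=
            mul_le_mul h3 h3 (Nat.cast_nonneg _) (by positivity)
        _ = (N : ℝ) ^ (σ + σ) := by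
            rw [← Real.rpow_add hN0]
        _ ≤ (N : ℝ) ^ (1 : ℝ) := Real.rpow_le_rpow_of_exponent_le hNr1 (by linarith)
        _ = N := Real.rpow_one _
    exact_mod_cast h4
  have ha' : ∀ m, a m ≠ 0 → (N : ℝ) ^ κ ≤ 2 * m ∧ m * m ≤ N := fun m hm =>
    ⟨(ha'' m hm).1, hm2 m hm⟩
  have hqm : ∀ m, a m ≠ 0 → (q : ℝ) * m ≤ N := by
    intro m hm
    have h3 := (ha'' m hm).2
    calc (q : ℝ) * m ≤ (N : ℝ) ^ θ * (N : ℝ) ^ σ :=
          mul_le_mul hq h3 (Nat.cast_nonneg _) (by positivity)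
      _ = (N : ℝ) ^ (θ + σ) := by
          rw [← Real.rpow_add hN0]
      _ ≤ (N : ℝ) ^ (1 : ℝ) := Real.rpow_le_rpow_of_exponent_le hNr1 (by linarith)
      _ = N := Real.rpow_one _
  have hpow := hn2 N hN2
  have hLL := hn1 N hN1
  obtain ⟨L, hL⟩ : ∃ L, L = Real.log (N : ℝ) := ⟨_, rfl⟩
  have h10c : (0 : ℝ) ≤ 2 * (18 : ℝ) ^ Jp * (2 * (Jp : ℝ)) ^ c := by positivity
  have hcount0 := fun (δ : ℝ) (hδ : 0 < δ) (hδ1 : δ ≤ 1) (i : ℕ) (hqN : (q : ℝ) ≤ (N : ℝ) ^ θ) =>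
    one_count3 (K := K) (i := i) hθκ hc hδ hδ1 hN9 (by linarith) (by linarith) ha ha' hqN
  obtain ⟨-, hsm⟩ := hn3 N hN3
  rw [← hL] at hpow hLL hcount0 ha hsm ⊢
  have hL1 : 2000000 ≤ L := by linarith
  have hL0 : 0 < L := by linarith
  have hL1' : 1 ≤ L := by linarith
  have hqh : (q : ℝ) ≤ (N : ℝ) ^ θ := hq
  have hqN : (q : ℝ) ≤ N := by
    calc (q : ℝ) ≤ (N : ℝ) ^ θ := hq
      _ ≤ (N : ℝ) ^ (1 : ℝ) := Real.rpow_le_rpow_of_exponent_le hNr1 (by linarith)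
      _ = N := Real.rpow_one _
  obtain ⟨δ, hδd⟩ : ∃ δ : ℝ, δ = (L ^ (2 * K₂))⁻¹ := ⟨_, rfl⟩
  have hLp : 0 < L ^ (2 * K₂) := by positivity
  have hδ : 0 < δ := by
    rw [hδd]
    positivity
  have hδ1 : δ ≤ 1 := by
    rw [hδd]
    exact inv_le_one_of_one_le₀ (one_le_pow₀ hL1')
  have hδL : δ * L ^ (2 * K₂) = 1 := by
    rw [hδd, inv_mul_cancel₀ hLp.ne']
  obtain ⟨I, hI⟩ : ∃ I : ℕ, I = ⌊L / δ⌋₊ + 1 := ⟨_, rfl⟩
  have hI1 : (I : ℝ) ≤ L ^ (2 * K₂ + 2) := by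
    have h3 : L / δ = L * L ^ (2 * K₂) := by
      rw [hδd, div_inv_eq_mul]
    have h4 : ((⌊L / δ⌋₊ : ℕ) : ℝ) ≤ L * L ^ (2 * K₂) := by
      rw [← h3]
      exact Nat.floor_le (by positivity)
    have h5 : 1 ≤ L * L ^ (2 * K₂) := one_le_mul_of_one_le_of_one_le hL1' (one_le_pow₀ hL1')
    rw [hI]
    push_cast
    calc ((⌊L / δ⌋₊ : ℕ) : ℝ) + 1 ≤ 2 * (L * L ^ (2 * K₂)) := by linarith
      _ ≤ L * (L * L ^ (2 * K₂)) := mul_le_mul_of_nonneg_right (by linarith) (by positivity)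
      _ = L ^ (2 * K₂ + 2) := by ring
  have hI0 : (0 : ℝ) ≤ I := Nat.cast_nonneg _
  refine ⟨univ.filter (fun χ : DirichletCharacter ℂ q => ∃ i ∈ range I,
    gi δ i * (L ^ K)⁻¹ < ‖∑ m ∈ Icc 1 (Xi δ i), ai δ a i m * χ (m : ZMod q)‖), ?_, ?_⟩
  · -- the number of bad characters
    have h3 : univ.filter (fun χ : DirichletCharacter ℂ q => ∃ i ∈ range I,
        gi δ i * (L ^ K)⁻¹ < ‖∑ m ∈ Icc 1 (Xi δ i), ai δ a i m * χ (m : ZMod q)‖) ⊆
        (range I).biUnion (fun i => univ.filter (fun χ : DirichletCharacter ℂ q =>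
          gi δ i * (L ^ K)⁻¹ < ‖∑ m ∈ Icc 1 (Xi δ i), ai δ a i m * χ (m : ZMod q)‖)) := by
      intro χ hχ
      rw [mem_filter] at hχ
      obtain ⟨-, i, hi, h4⟩ := hχ
      rw [mem_biUnion]
      exact ⟨i, hi, mem_filter.2 ⟨mem_univ _, h4⟩⟩
    have h4 := (card_le_card h3).trans card_biUnion_le
    have h5 : ((univ.filter (fun χ : DirichletCharacter ℂ q => ∃ i ∈ range I,
        gi δ i * (L ^ K)⁻¹ < ‖∑ m ∈ Icc 1 (Xi δ i), ai δ a i m * χ (m : ZMod q)‖)).card : ℝ) ≤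
        ∑ i ∈ range I, ((univ.filter (fun χ : DirichletCharacter ℂ q =>
          gi δ i * (L ^ K)⁻¹ < ‖∑ m ∈ Icc 1 (Xi δ i), ai δ a i m * χ (m : ZMod q)‖)).card : ℝ) := by
      exact_mod_cast h4
    refine h5.trans ((sum_le_sum fun i _ => hcount0 δ hδ hδ1 i hqh).trans ?_)
    rw [sum_const, card_range, nsmul_eq_mul]
    calc (I : ℝ) * L ^ (2 * Jp * K + c + 2) ≤ L ^ (2 * K₂ + 2) * L ^ (2 * Jp * K + c + 2) :=
          mul_le_mul_of_nonneg_right hI1 (by positivity)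
      _ = L ^ (2 * K₂ + 2 * Jp * K + c + 4) := by
        rw [← pow_add]
        congr 1
        omega
  · intro b hb η hη y hyN S hSB
    have hyNr : (y : ℝ) ≤ N := by exact_mod_cast hyN
    have hη' : y * |η| ≤ L ^ C := by
      rw [le_div_iff₀ hN0] at hη
      have : (y : ℝ) * |η| ≤ N * |η| := mul_le_mul_of_nonneg_right hyNr (abs_nonneg _)
      linarith
    have hay : ∀ m ∈ Icc 1 y, ‖a m‖ ≤ L * (m.divisors.card : ℝ) := fun m hm =>
      ha m (Icc_subset_Icc le_rfl hyN hm)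
    have hby : ∀ m ∈ Icc 1 y, ‖b m‖ ≤ L * (m.divisors.card : ℝ) := fun m hm =>
      hb m (Icc_subset_Icc le_rfl hyN hm)
    by_cases hysm : (y : ℝ) ≤ (N : ℝ) ^ (1 / 2 : ℝ)
    · exact small_y h1 hL hL1 hN0 hyN hqN hsm hysm hay hby S η
    rw [not_le] at hysm
    have hamy : ∀ m, a m ≠ 0 → m ≤ y := by
      intro m hm
      have h3 : (m : ℝ) ≤ y := by
        calc (m : ℝ) ≤ (N : ℝ) ^ σ := (ha'' m hm).2
          _ ≤ (N : ℝ) ^ (1 / 2 : ℝ) := Real.rpow_le_rpow_of_exponent_le hNr1 (by linarith)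
          _ ≤ y := hysm.le
      exact_mod_cast h3
    have hy1 : 1 ≤ y := by
      have h3 : (0 : ℝ) < y := lt_of_le_of_lt (by positivity) hysm
      exact_mod_cast h3
    have hly : Real.log y ≤ L := by
      rw [hL]
      exact Real.log_le_log (by exact_mod_cast hy1) hyNr
    have hly0 : 0 ≤ Real.log y := Real.log_natCast_nonneg y
    -- the error
    obtain ⟨R, hR⟩ : ∃ R : ℝ, R = L ^ (A + 2 * C + 19) := ⟨_, rfl⟩
    have hR1 : 1 ≤ R := by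
      rw [hR]
      exact one_le_pow₀ hL1'
    have hR0 : 0 < R := by linarith
    have hδR : δ * (L ^ (2 * p₁) * R ^ 2 * L ^ 2) = 1 := by
      rw [← hδL]
      congr 1
      rw [hR, ← pow_mul, ← pow_add, ← pow_add]
      congr 1
      omega
    have hLpow : ∀ p : ℕ, (1 + L) ^ p ≤ L ^ (2 * p) := by
      intro p
      rw [pow_mul]
      exact pow_le_pow_left₀ (by positivity) (by nlinarith) p
    obtain ⟨Sv, hS0, hS1', hS2'⟩ := w_sum hp₁ hp₂ hδ hη' hay hby hL0.le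
    have hS1 : Sv ^ 2 ≤ (δ * N + 1) * (N * (1 + L) ^ p₁) := by
      refine hS1'.trans ?_
      gcongr
    have hS2 : ∑ n ∈ Icc 1 y, ‖wn δ y η a b n‖ ^ 2 ≤
        2 * L ^ 4 * (Sv + (7 * (L ^ C * δ)) ^ 2 * (N * (1 + L) ^ p₂)) := by
      refine hS2'.trans ?_
      gcongr
    clear hp₁ hp₂
    have hSv : Sv ≤ N / R := by
      have h3 : Sv ^ 2 ≤ (N / R) ^ 2 := by
        refine hS1.trans ?_
        have h4 : δ * N + 1 ≤ 2 * (δ * N) := by
          have h5 : 1 ≤ δ * N := by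
            calc (1 : ℝ) = δ * L ^ (2 * K₂) := hδL.symm
              _ ≤ δ * N := mul_le_mul_of_nonneg_left (by linarith) hδ.le
          linarith
        have h6 : (δ * N + 1) * (N * (1 + L) ^ p₁) ≤ 2 * (δ * N) * (N * L ^ (2 * p₁)) :=
          mul_le_mul h4 (mul_le_mul_of_nonneg_left (hLpow p₁) hN0.le) (by positivity) (by positivity)
        refine h6.trans ?_
        rw [div_pow, le_div_iff₀ (by positivity)]
        have h7 : 2 * (δ * N) * (N * L ^ (2 * p₁)) * R ^ 2 =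
            N ^ 2 * (2 * (δ * (L ^ (2 * p₁) * R ^ 2))) := by ring
        rw [h7]
        have h8 : 2 * (δ * (L ^ (2 * p₁) * R ^ 2)) ≤ 1 := by
          have h9 : δ * (L ^ (2 * p₁) * R ^ 2) * L ^ 2 = 1 := by
            rw [← hδR]
            ring
          have h10 : 0 ≤ δ * (L ^ (2 * p₁) * R ^ 2) := by positivity
          have h11 : 2 ≤ L ^ 2 := by nlinarith
          nlinarith
        calc (N : ℝ) ^ 2 * (2 * (δ * (L ^ (2 * p₁) * R ^ 2))) ≤ N ^ 2 * 1 :=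
              mul_le_mul_of_nonneg_left h8 (by positivity)
          _ = N ^ 2 := mul_one _
      exact (pow_le_pow_iff_left₀ hS0 (by positivity) two_ne_zero).1 h3
    have hSw : (7 * (L ^ C * δ)) ^ 2 * (N * (1 + L) ^ p₂) ≤ N / R := by
      rw [le_div_iff₀ hR0]
      have h3 : (1 + L) ^ p₂ ≤ L ^ (2 * p₁) :=
        (hLpow p₂).trans (pow_le_pow_right₀ hL1' (by omega))
      have h4 : 49 * L ^ (2 * C) * δ ≤ 1 := by
        calc 49 * L ^ (2 * C) * δ ≤ L ^ (2 * K₂) * δ := by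
              refine mul_le_mul_of_nonneg_right ?_ hδ.le
              calc 49 * L ^ (2 * C) ≤ L * L ^ (2 * C) :=
                    mul_le_mul_of_nonneg_right (by linarith) (by positivity)
                _ = L ^ (2 * C + 1) := by ring
                _ ≤ L ^ (2 * K₂) := pow_le_pow_right₀ hL1' (by omega)
          _ = 1 := by rw [mul_comm, hδL]
      have h5 : δ * L ^ (2 * p₁) * R ≤ 1 := by
        have h6 : R ≤ R ^ 2 * L ^ 2 := by
          have h7 : R * 1 ≤ R * (R * L ^ 2) :=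
            mul_le_mul_of_nonneg_left (one_le_mul_of_one_le_of_one_le hR1 (one_le_pow₀ hL1')) hR0.le
          calc R = R * 1 := (mul_one R).symm
            _ ≤ R * (R * L ^ 2) := h7
            _ = R ^ 2 * L ^ 2 := by ring
        calc δ * L ^ (2 * p₁) * R ≤ δ * L ^ (2 * p₁) * (R ^ 2 * L ^ 2) :=
              mul_le_mul_of_nonneg_left h6 (by positivity)
          _ = 1 := by
            rw [← hδR]
            ring
      have h6 : (7 * (L ^ C * δ)) ^ 2 * (N * (1 + L) ^ p₂) * R ≤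
          (49 * L ^ (2 * C) * δ) * (δ * L ^ (2 * p₁) * R) * N := by
        have h7 : (7 * (L ^ C * δ)) ^ 2 = 49 * L ^ (2 * C) * δ * δ := by
          rw [pow_mul']
          ring
        rw [h7]
        calc 49 * L ^ (2 * C) * δ * δ * (N * (1 + L) ^ p₂) * R =
            (49 * L ^ (2 * C) * δ * δ * N * R) * (1 + L) ^ p₂ := by ring
          _ ≤ (49 * L ^ (2 * C) * δ * δ * N * R) * L ^ (2 * p₁) :=
            mul_le_mul_of_nonneg_left h3 (by positivity)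
          _ = _ := by ring
      refine h6.trans ?_
      calc (49 * L ^ (2 * C) * δ) * (δ * L ^ (2 * p₁) * R) * N ≤ (1 * 1) * N := by
            refine mul_le_mul_of_nonneg_right ?_ hN0.le
            exact mul_le_mul h4 h5 (by positivity) zero_le_one
        _ = N := by ring
    have herr : ∑ χ ∈ S, ‖∑ n ∈ Icc 1 y, wn δ y η a b n * χ (n : ZMod q)‖ ^ 2 ≤
        (2 * N) * (2 * L ^ 4 * (2 * (N / R))) := by
      have h3 := (h1 q y (wn δ y η a b)).1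
      have h4 : ∑ χ ∈ S, ‖∑ n ∈ Icc 1 y, wn δ y η a b n * χ (n : ZMod q)‖ ^ 2 ≤
          ∑ χ : DirichletCharacter ℂ q, ‖∑ n ∈ Icc 1 y, wn δ y η a b n * χ (n : ZMod q)‖ ^ 2 :=
        sum_le_sum_of_subset_of_nonneg (subset_univ S) fun χ _ _ => by positivity
      refine h4.trans (h3.trans ?_)
      refine mul_le_mul (by linarith) (hS2.trans ?_) (sum_nonneg fun _ _ => by positivity)
        (by positivity)
      exact mul_le_mul_of_nonneg_left (by linarith) (by positivity)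
    -- the main part
    have hmain : ∑ χ ∈ S, ‖∑ i ∈ range I, (∑ m ∈ Icc 1 (Xi δ i), ai δ a i m * χ (m : ZMod q)) *
        (∑ k ∈ Icc 1 (Yi δ y i), b k * ee (gi δ i * k * η) * χ (k : ZMod q))‖ ^ 2 ≤
        I * (I * (((L ^ K)⁻¹) ^ 2 * (2 * N ^ 2 * ((2 * L) ^ 2 * (2 * L) ^ 4)))) := by
      refine (sum_le_sum fun χ _ => sq_sum_norm I _).trans ?_
      rw [← mul_sum, sum_comm]
      refine mul_le_mul_of_nonneg_left ?_ hI0
      have h3 : ∀ i ∈ range I, ∑ χ ∈ S, ‖(∑ m ∈ Icc 1 (Xi δ i), ai δ a i m * χ (m : ZMod q)) *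
          (∑ k ∈ Icc 1 (Yi δ y i), b k * ee (gi δ i * k * η) * χ (k : ZMod q))‖ ^ 2 ≤
          ((L ^ K)⁻¹) ^ 2 * (2 * N ^ 2 * ((2 * L) ^ 2 * (2 * L) ^ 4)) := by
        intro i hi
        refine one_class2 h1 hδ (by omega) hyN (by rw [← hL]; linarith) (fun m _ h => hqm m h) ?_ S ?_
        · intro m hm
          refine (hb m hm).trans (mul_le_mul_of_nonneg_right (by linarith) (Nat.cast_nonneg _))
        · intro χ hχ
          by_contra hcon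
          rw [not_le] at hcon
          exact disjoint_left.1 hSB hχ (mem_filter.2 ⟨mem_univ _, i, hi, hcon⟩)
      refine (sum_le_sum h3).trans (le_of_eq ?_)
      rw [sum_const, card_range, nsmul_eq_mul]
    -- the decomposition
    rw [norm_ev S η y (fun m k => a m * b k)]
    have hdec : ∀ χ : DirichletCharacter ℂ q, ‖∑ m ∈ Icc 1 y, ∑ k ∈ Icc 1 (y / m),
        a m * b k * (χ ((m * k : ℕ) : ZMod q) * ee ((m * k : ℕ) * η))‖ ^ 2 ≤
        2 * ‖∑ i ∈ range I, (∑ m ∈ Icc 1 (Xi δ i), ai δ a i m * χ (m : ZMod q)) *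
        (∑ k ∈ Icc 1 (Yi δ y i), b k * ee (gi δ i * k * η) * χ (k : ZMod q))‖ ^ 2 +
        2 * ‖∑ n ∈ Icc 1 y, wn δ y η a b n * χ (n : ZMod q)‖ ^ 2 := by
      intro χ
      have h3 := decomp (η := η) (N := y) (I := I) hδ (a := a) (b := b) (by
        intro m hm h0
        have h5 : m ≤ N := (hamy m h0).trans hyN
        refine ⟨hamy m h0, ?_⟩
        rw [hI, Nat.lt_succ_iff]
        unfold ci
        refine Nat.floor_le_floor (div_le_div_of_nonneg_right ?_ hδ.le)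
        rw [hL]
        exact Real.log_le_log (by exact_mod_cast hm) (by exact_mod_cast h5))
        (fun n => χ (n : ZMod q)) (fun m k => by rw [Nat.cast_mul, map_mul])
      rw [h3]
      refine (pow_le_pow_left₀ (norm_nonneg _) (norm_add_le _ _) 2).trans ?_
      have h4 : ∀ x y : ℝ, (x + y) ^ 2 ≤ 2 * x ^ 2 + 2 * y ^ 2 := fun x y => by
        nlinarith [sq_nonneg (x - y)]
      exact h4 _ _
    refine (sum_le_sum fun χ _ => hdec χ).trans ?_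
    rw [sum_add_distrib, ← mul_sum, ← mul_sum]
    have hA0 : 0 < L ^ A := by positivity
    have f1 : 2 * (I * (I * (((L ^ K)⁻¹) ^ 2 * (2 * N ^ 2 * ((2 * L) ^ 2 * (2 * L) ^ 4))))) ≤
        (N : ℝ) ^ 2 / L ^ A / 2 := by
      rw [div_div, le_div_iff₀ (by positivity)]
      have h3 : (I : ℝ) * I ≤ L ^ (2 * K₂ + 2) * L ^ (2 * K₂ + 2) :=
        mul_le_mul hI1 hI1 hI0 (by positivity)
      have h4 : ((L ^ K)⁻¹) ^ 2 * (L ^ (2 * K₂ + 2) * L ^ (2 * K₂ + 2) * L ^ 11 * L ^ A) ≤ 1 := by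
        rw [inv_pow, ← pow_mul, ← pow_add, ← pow_add, ← pow_add, inv_mul_le_iff₀ (by positivity),
          mul_one]
        exact pow_le_pow_right₀ hL1' (by omega)
      have h5 : 512 * L ^ 6 ≤ L ^ 11 := by
        have h6 : (512 : ℝ) ≤ L ^ 5 := by
          calc (512 : ℝ) ≤ L := by linarith
            _ = L ^ 1 := (pow_one L).symm
            _ ≤ L ^ 5 := pow_le_pow_right₀ hL1' (by norm_num)
        calc 512 * L ^ 6 ≤ L ^ 5 * L ^ 6 := mul_le_mul_of_nonneg_right h6 (by positivity)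
          _ = L ^ 11 := by ring
      calc 2 * ((I : ℝ) * (I * (((L ^ K)⁻¹) ^ 2 * (2 * N ^ 2 * ((2 * L) ^ 2 * (2 * L) ^ 4))))) *
            (L ^ A * 2) = ((I : ℝ) * I) * (((L ^ K)⁻¹) ^ 2 * N ^ 2 * L ^ A * (512 * L ^ 6)) := by ring
        _ ≤ (L ^ (2 * K₂ + 2) * L ^ (2 * K₂ + 2)) * (((L ^ K)⁻¹) ^ 2 * N ^ 2 * L ^ A * L ^ 11) :=
          mul_le_mul h3 (mul_le_mul_of_nonneg_left h5 (by positivity)) (by positivity) (by positivity)
        _ = N ^ 2 * (((L ^ K)⁻¹) ^ 2 * (L ^ (2 * K₂ + 2) * L ^ (2 * K₂ + 2) * L ^ 11 * L ^ A)) := by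
          ring
        _ ≤ N ^ 2 * 1 := mul_le_mul_of_nonneg_left h4 (by positivity)
        _ = N ^ 2 := mul_one _
    have f2 : 2 * ((2 * N) * (2 * L ^ 4 * (2 * (N / R)))) ≤ (N : ℝ) ^ 2 / L ^ A / 2 := by
      have h3 : 2 * ((2 * N) * (2 * L ^ 4 * (2 * (N / R)))) = 16 * L ^ 4 * N ^ 2 / R := by ring
      rw [h3, div_div, div_le_div_iff₀ hR0 (by positivity)]
      have h4 : 32 * L ^ 4 * L ^ A ≤ R := by
        rw [hR]
        calc 32 * L ^ 4 * L ^ A ≤ L * L ^ 4 * L ^ A := by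
              refine mul_le_mul_of_nonneg_right (mul_le_mul_of_nonneg_right (by linarith) ?_) ?_
              · positivity
              · positivity
          _ = L ^ (A + 5) := by ring
          _ ≤ L ^ (A + 2 * C + 19) := pow_le_pow_right₀ hL1' (by omega)
      calc 16 * L ^ 4 * N ^ 2 * (L ^ A * 2) = N ^ 2 * (32 * L ^ 4 * L ^ A) := by ring
        _ ≤ N ^ 2 * R := mul_le_mul_of_nonneg_left h4 (by positivity)
    have f3 := mul_le_mul_of_nonneg_left hmain zero_le_two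
    have f4 := mul_le_mul_of_nonneg_left herr zero_le_two
    linarith

end Pool.Agent.R460.GH
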