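import Pool.Agent.R460.GS.J1

set_option autoImplicit false

/-! The decomposition of the indicator function of the primes. -/

namespace Pool.Agent.R460.GH

open Finset
open Pool.Agent.R460.GS

/-- a function as an arithmetic function -/
noncomputable def af (f : ℕ → ℂ) : ArithmeticFunction ℂ := ⟨fun n => if n = 0 then 0 else f n, by simp⟩

lemma af_apply {f : ℕ → ℂ} {n : ℕ} (hn : n ≠ 0) : af f n = f n := by
  unfold af
  simp [hn]

lemma mul_ap (f g : ArithmeticFunction ℂ) (n : ℕ) : (f * g) n = ∑ d ∈ n.divisors, f d * g (n / d) := by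
  rw [ArithmeticFunction.mul_apply]
  exact Nat.sum_divisorsAntidiagonal (fun a b => f a * g b)

open Classical in
/-- indicator function of the primes between `Z` and `P` -/
noncomputable def qz (Z P n : ℕ) : ℂ := if n.Prime ∧ Z < n ∧ n ≤ P then 1 else 0

open Classical in
/-- coefficient of the type I part -/
noncomputable def mu1 (W D d : ℕ) : ℂ := if Sm W d ∧ d ≤ D then ((mu d : ℝ) : ℂ) else 0

/-- the operation `f - (1/2) (q * f)` -/
noncomputable def op (Z P : ℕ) (f : ArithmeticFunction ℂ) : ArithmeticFunction ℂ :=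
  f - (1 / 2 : ℂ) • (af (qz Z P) * f)

/-- the sieve function -/
noncomputable def F1 (Z P : ℕ) : ArithmeticFunction ℂ := op Z P (af (fun n => ((ro Z n : ℝ) : ℂ)))

lemma op_mul (Z P : ℕ) (f g : ArithmeticFunction ℂ) : op Z P (f * g) = f * op Z P g := by
  unfold op
  rw [mul_sub, mul_smul_comm]
  congr 2
  ring

lemma op_mul' (Z P : ℕ) (f g : ArithmeticFunction ℂ) : op Z P (f * g) = op Z P f * g := by
  rw [mul_comm, op_mul, mul_comm]

lemma op_add (Z P : ℕ) (f g : ArithmeticFunction ℂ) : op Z P (f + g) = op Z P f + op Z P g := by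
  unfold op
  rw [mul_add, smul_add]
  ring

lemma op_sub (Z P : ℕ) (f g : ArithmeticFunction ℂ) : op Z P (f - g) = op Z P f - op Z P g := by
  unfold op
  rw [mul_sub, smul_sub]
  ring

lemma op_sum (Z P : ℕ) {ι : Type*} (s : Finset ι) (f : ι → ArithmeticFunction ℂ) :
    op Z P (∑ i ∈ s, f i) = ∑ i ∈ s, op Z P (f i) := by
  unfold op
  rw [mul_sum, smul_sum, ← sum_sub_distrib]

lemma sum_ap {ι : Type*} (s : Finset ι) (f : ι → ArithmeticFunction ℂ) (n : ℕ) :
    (∑ i ∈ s, f i) n = ∑ i ∈ s, f i n := by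
  classical
  induction s using Finset.induction_on with
  | empty => simp
  | insert a s ha ih => rw [sum_insert ha, sum_insert ha, ArithmeticFunction.add_apply, ih]

lemma sub_ap (f g : ArithmeticFunction ℂ) (n : ℕ) : (f - g) n = f n - g n := by
  have h : f = (f - g) + g := by ring
  conv_rhs => rw [h]
  rw [ArithmeticFunction.add_apply]
  ring

lemma smul_ap (c : ℂ) (f : ArithmeticFunction ℂ) (n : ℕ) : (c • f) n = c * f n := rfl

lemma op_ap (Z P : ℕ) (f : ArithmeticFunction ℂ) (n : ℕ) :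
    op Z P f n = f n - 1 / 2 * ∑ d ∈ n.divisors, af (qz Z P) d * f (n / d) := by
  unfold op
  rw [sub_ap, smul_ap, mul_ap]

/-- the decomposition as an identity of arithmetic functions -/
lemma dec_af {W Z D J : ℕ} (c : ℕ → ℕ)
    (h1 : ∀ m : ℕ, (m.Prime ∧ W < m ∧ m ≤ Z) → c m < J)
    (h2 : ∀ m : ℕ, (Sm W m ∧ D < m ∧ m / pmx m ≤ D) → c (pmx m) < J) :
    af (fun n => ((ro Z n : ℝ) : ℂ)) = af (mu1 W D) * af (fun _ => 1) +
      ∑ j ∈ range J, af (a2 W D c j) * af (b2 W c j) -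
      ∑ j ∈ range J, af (a1 W Z c j) * af (b1 c j) + af (fun n => ((er W Z D c n : ℝ) : ℂ)) := by
  classical
  ext n
  rcases Nat.eq_zero_or_pos n with h0 | h0
  · subst h0
    rw [ArithmeticFunction.map_zero, ArithmeticFunction.map_zero]
  · have hn : n ≠ 0 := by omega
    rw [ArithmeticFunction.add_apply, sub_ap, ArithmeticFunction.add_apply, sum_ap, sum_ap]
    simp only [mul_ap]
    rw [af_apply hn, af_apply hn]
    have k : ∀ f g : ℕ → ℂ, ∑ d ∈ n.divisors, af f d * af g (n / d) = ∑ d ∈ n.divisors, f d * g (n / d) := by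
      intro f g
      refine sum_congr rfl fun d hd => ?_
      have hd' := Nat.dvd_of_mem_divisors hd
      have hd0 : d ≠ 0 := fun h => hn (by rw [h] at hd'; exact Nat.eq_zero_of_zero_dvd hd')
      have hq0 : n / d ≠ 0 := (Nat.div_pos (Nat.le_of_dvd h0 hd') (by omega)).ne'
      rw [af_apply hd0, af_apply hq0]
    simp only [k]
    rw [dec_fun (W := W) (D := D) (J := J) c (fun m _ => h1 m) (fun m _ => h2 m)]
    congr 3
    refine sum_congr rfl fun d _ => ?_
    unfold mu1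
    rw [mul_one]

variable {V : Type*} [NormedAddCommGroup V] [NormedSpace ℂ V]

lemma conv_vec (f g : ArithmeticFunction ℂ) (E : ℕ → V) (y : ℕ) :
    ∑ n ∈ Icc 1 y, ((f * g) n) • E n = ∑ m ∈ Icc 1 y, ∑ k ∈ Icc 1 (y / m), (f m * g k) • E (m * k) := by
  rw [← dirV y (fun m k => (f m * g k) • E (m * k))]
  refine sum_congr rfl fun n _ => ?_
  rw [mul_ap, sum_smul]
  refine sum_congr rfl fun d hd => ?_
  rw [Nat.mul_div_cancel' (Nat.dvd_of_mem_divisors hd)]

/-- the decomposition for vectors -/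
lemma j2 {W Z P D J y : ℕ} (E : ℕ → V) (c : ℕ → ℕ)
    (h1 : ∀ m : ℕ, (m.Prime ∧ W < m ∧ m ≤ Z) → c m < J)
    (h2 : ∀ m : ℕ, (Sm W m ∧ D < m ∧ m / pmx m ≤ D) → c (pmx m) < J) :
    ‖∑ n ∈ Icc 1 y, (F1 Z P n) • E n‖ ≤
      ‖∑ m ∈ Icc 1 y, (op Z P (af (mu1 W D)) m) • ∑ b ∈ Icc 1 (y / m), E (b * m)‖ +
      ∑ j ∈ range J, ‖∑ m ∈ Icc 1 y, ∑ k ∈ Icc 1 (y / m), (a2 W D c j m * op Z P (af (b2 W c j)) k) • E (m * k)‖ +
      ∑ j ∈ range J, ‖∑ m ∈ Icc 1 y, ∑ k ∈ Icc 1 (y / m), (a1 W Z c j m * op Z P (af (b1 c j)) k) • E (m * k)‖ +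
      ‖∑ n ∈ Icc 1 y, (op Z P (af (fun n => ((er W Z D c n : ℝ) : ℂ))) n) • E n‖ := by
  classical
  have e0 : F1 Z P = op Z P (af (mu1 W D)) * af (fun _ => 1) +
      ∑ j ∈ range J, af (a2 W D c j) * op Z P (af (b2 W c j)) -
      ∑ j ∈ range J, af (a1 W Z c j) * op Z P (af (b1 c j)) +
      op Z P (af (fun n => ((er W Z D c n : ℝ) : ℂ))) := by
    unfold F1
    rw [dec_af c h1 h2, op_add, op_sub, op_add, op_sum, op_sum, op_mul']
    simp only [op_mul]
  have e1 : ∑ n ∈ Icc 1 y, (F1 Z P n) • E n =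
      ∑ n ∈ Icc 1 y, ((op Z P (af (mu1 W D)) * af (fun _ => 1)) n) • E n +
      ∑ j ∈ range J, ∑ n ∈ Icc 1 y, ((af (a2 W D c j) * op Z P (af (b2 W c j))) n) • E n -
      ∑ j ∈ range J, ∑ n ∈ Icc 1 y, ((af (a1 W Z c j) * op Z P (af (b1 c j))) n) • E n +
      ∑ n ∈ Icc 1 y, (op Z P (af (fun n => ((er W Z D c n : ℝ) : ℂ))) n) • E n := by
    rw [sum_comm (s := range J), sum_comm (s := range J), ← sum_add_distrib, ← sum_sub_distrib, ← sum_add_distrib]
    refine sum_congr rfl fun n _ => ?_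
    rw [← sum_smul, ← sum_smul, ← add_smul, ← sub_smul, ← add_smul]
    congr 1
    rw [e0, ArithmeticFunction.add_apply, sub_ap, ArithmeticFunction.add_apply, sum_ap, sum_ap]
  rw [e1]
  simp only [conv_vec]
  have e2 : ∑ m ∈ Icc 1 y, ∑ k ∈ Icc 1 (y / m), (op Z P (af (mu1 W D)) m * af (fun _ => 1) k) • E (m * k) =
      ∑ m ∈ Icc 1 y, (op Z P (af (mu1 W D)) m) • ∑ b ∈ Icc 1 (y / m), E (b * m) := by
    refine sum_congr rfl fun m _ => ?_
    rw [smul_sum]
    refine sum_congr rfl fun k hk => ?_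
    rw [af_apply (by rw [mem_Icc] at hk; omega), mul_one, mul_comm]
  have e3 : ∀ a : ℕ → ℂ, ∀ g : ArithmeticFunction ℂ,
      ∑ m ∈ Icc 1 y, ∑ k ∈ Icc 1 (y / m), (af a m * g k) • E (m * k) =
      ∑ m ∈ Icc 1 y, ∑ k ∈ Icc 1 (y / m), (a m * g k) • E (m * k) := by
    intro a g
    refine sum_congr rfl fun m hm => sum_congr rfl fun k _ => ?_
    rw [af_apply (by rw [mem_Icc] at hm; omega)]
  rw [e2]
  simp only [e3]
  refine (norm_add_le _ _).trans (add_le_add ?_ le_rfl)
  refine (norm_sub_le _ _).trans (add_le_add ?_ (norm_sum_le _ _))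
  exact (norm_add_le _ _).trans (add_le_add le_rfl (norm_sum_le _ _))

/-- few large prime factors -/
lemma card_big {Z P N n : ℕ} (hn : 1 ≤ n) (hnN : n ≤ N) (hZ : N < (Z + 1) ^ 3) :
    (n.divisors.filter (fun p => p.Prime ∧ Z < p ∧ p ≤ P)).card ≤ 2 := by
  by_contra h
  rw [not_le] at h
  obtain ⟨T, hT⟩ : ∃ T, T = n.divisors.filter (fun p => p.Prime ∧ Z < p ∧ p ≤ P) := ⟨_, rfl⟩
  rw [← hT] at h
  have h1 : ∏ p ∈ T, p ∣ n := by
    apply Finset.prod_primes_dvd
    · intro p hp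
      rw [hT, mem_filter] at hp
      exact hp.2.1.prime
    · intro p hp
      rw [hT, mem_filter] at hp
      exact Nat.dvd_of_mem_divisors hp.1
  have h2 : (Z + 1) ^ T.card ≤ ∏ p ∈ T, p := by
    rw [← prod_const]
    apply prod_le_prod'
    intro p hp
    rw [hT, mem_filter] at hp
    exact hp.2.2.1
  have h3 := (h2.trans (Nat.le_of_dvd hn h1)).trans hnN
  have h4 : (Z + 1) ^ 3 ≤ (Z + 1) ^ T.card := Nat.pow_le_pow_right (by omega) h
  omega

open Classical in
lemma op_ap' {Z P n : ℕ} (f : ℕ → ℂ) (hn : 1 ≤ n) :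
    op Z P (af f) n = f n - 1 / 2 * ∑ p ∈ n.divisors.filter (fun p => p.Prime ∧ Z < p ∧ p ≤ P), f (n / p) := by
  rw [op_ap, af_apply (by omega), sum_filter]
  congr 2
  refine sum_congr rfl fun d hd => ?_
  have hd' := Nat.dvd_of_mem_divisors hd
  have hd0 : d ≠ 0 := fun h => by rw [h] at hd'; have := Nat.eq_zero_of_zero_dvd hd'; omega
  have hq0 : n / d ≠ 0 := (Nat.div_pos (Nat.le_of_dvd hn hd') (by omega)).ne'
  rw [af_apply hd0, af_apply hq0]
  unfold qz
  split_ifs
  · rw [one_mul]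
  · rw [zero_mul]

lemma op_bd {Z P N n : ℕ} (hn : 1 ≤ n) (hnN : n ≤ N) (hZ : N < (Z + 1) ^ 3) (f : ℕ → ℂ) {X : ℝ}
    (h0 : ‖f n‖ ≤ X) (hX : ∀ p ∈ n.divisors.filter (fun p => p.Prime ∧ Z < p ∧ p ≤ P), ‖f (n / p)‖ ≤ X) :
    ‖op Z P (af f) n‖ ≤ 2 * X := by
  classical
  have hX0 : 0 ≤ X := (norm_nonneg _).trans h0
  rw [op_ap' f hn]
  have h1 : ‖∑ p ∈ n.divisors.filter (fun p => p.Prime ∧ Z < p ∧ p ≤ P), f (n / p)‖ ≤ 2 * X := by
    have e : ∑ p ∈ n.divisors.filter (fun p => p.Prime ∧ Z < p ∧ p ≤ P), f (n / p) =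
      ∑ p ∈ n.divisors.filter (fun p => p.Prime ∧ Z < p ∧ p ≤ P), f (n / p) := rfl
    refine (norm_sum_le_of_le _ hX).trans ?_
    rw [sum_const, nsmul_eq_mul]
    apply mul_le_mul_of_nonneg_right _ hX0
    exact_mod_cast card_big hn hnN hZ
  have h2 : ‖f n - 1 / 2 * ∑ p ∈ n.divisors.filter (fun p => p.Prime ∧ Z < p ∧ p ≤ P), f (n / p)‖ ≤
      X + 1 / 2 * (2 * X) := by
    refine (norm_sub_le _ _).trans (add_le_add h0 ?_)
    rw [norm_mul]
    have : ‖(1 / 2 : ℂ)‖ = 1 / 2 := by norm_num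
    rw [this]
    exact mul_le_mul_of_nonneg_left h1 (by norm_num)
  linarith

lemma mu1_le (W D d : ℕ) : ‖mu1 W D d‖ ≤ 1 := by
  unfold mu1
  split_ifs
  · rw [Complex.norm_real, Real.norm_eq_abs]
    unfold mu
    exact_mod_cast ArithmeticFunction.abs_moebius_le_one
  · simp

lemma mu1_supp {Z P W D m : ℕ} (hP : 1 ≤ P) (h : op Z P (af (mu1 W D)) m ≠ 0) : m ≤ P * D := by
  classical
  rcases Nat.eq_zero_or_pos m with h0 | h0
  · omega
  rw [op_ap' _ h0] at h
  by_contra hm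
  rw [not_le] at hm
  apply h
  have h1 : ∀ d, D < d → mu1 W D d = 0 := by
    intro d hd
    unfold mu1
    rw [if_neg (fun h => by omega)]
  have h2 : D < m := lt_of_le_of_lt (Nat.le_mul_of_pos_left D hP) hm
  rw [h1 m h2, sum_eq_zero, mul_zero, sub_zero]
  intro p hp
  rw [mem_filter] at hp
  apply h1
  have hpm := Nat.dvd_of_mem_divisors hp.1
  have hp0 : 0 < p := hp.2.1.pos
  by_contra h3
  rw [not_lt] at h3
  have : m ≤ P * D := by
    calc m = m / p * p := (Nat.div_mul_cancel hpm).symm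
      _ ≤ D * P := Nat.mul_le_mul h3 hp.2.2.2
      _ = P * D := Nat.mul_comm _ _
  omega

open Classical in
/-- the error of the decomposition -/
lemma er_op {W Z P D N n : ℕ} (hWZ : W ≤ Z) (hD : 1 ≤ D) (hn : 1 ≤ n) (hnN : n ≤ N) (hZ : N < (Z + 1) ^ 3)
    (c : ℕ → ℕ) (hc : ∀ a b, 1 ≤ a → a ≤ b → c a ≤ c b) :
    ‖op Z P (af (fun n => ((er W Z D c n : ℝ) : ℂ))) n‖ ≤ 2 * (if Tw c n then 2 * (n.divisors.card : ℝ) else 0) := by
  apply op_bd hn hnN hZ
  · rw [Complex.norm_real, Real.norm_eq_abs]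
    exact er_le hWZ hD hn c hc
  · intro p hp
    rw [mem_filter] at hp
    have hpn := Nat.dvd_of_mem_divisors hp.1
    have hp0 : 0 < p := hp.2.1.pos
    have hnp : 1 ≤ n / p := Nat.div_pos (Nat.le_of_dvd hn hpn) hp0
    rw [Complex.norm_real, Real.norm_eq_abs]
    refine (er_le hWZ hD hnp c hc).trans ?_
    by_cases h : Tw c (n / p)
    · have h' : Tw c n := by
        obtain ⟨p₁, p₂, k1, k2, k3, k4, k5⟩ := h
        exact ⟨p₁, p₂, k1, k2, k3, k4.trans (Nat.div_dvd_of_dvd hpn), k5⟩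
      rw [if_pos h, if_pos h']
      have : (n / p).divisors.card ≤ n.divisors.card :=
        card_le_card (Nat.divisors_subset_of_dvd (by omega) (Nat.div_dvd_of_dvd hpn))
      have h2 : (((n / p).divisors.card : ℕ) : ℝ) ≤ (n.divisors.card : ℝ) := by exact_mod_cast this
      linarith
    · rw [if_neg h]
      split_ifs
      · positivity
      · exact le_rfl

open Classical in
/-- the values of the sieve function -/
lemma F1_val {Z P N n : ℕ} (hP : P = N / (Z + 1)) (hZP : Z ≤ P) (hn : P < n) (hnN : n ≤ N) (hZ : N < (Z + 1) ^ 3)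
    (hsq : ¬ IsSquare n) : F1 Z P n = if n.Prime then 1 else 0 := by
  have hn1 : 1 ≤ n := by omega
  unfold F1
  rw [op_ap' _ hn1]
  by_cases hp : n.Prime
  · rw [if_pos hp]
    have h1 : ro Z n = 1 := by
      unfold ro
      rw [if_pos]
      intro p hp'
      rw [hp.primeFactors, mem_singleton] at hp'
      omega
    have h2 : n.divisors.filter (fun p => p.Prime ∧ Z < p ∧ p ≤ P) = ∅ := by
      apply filter_eq_empty_iff.2
      intro p hp' h
      rw [hp.divisors, mem_insert, mem_singleton] at hp'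
      rcases hp' with rfl | rfl
      · exact absurd h.1 Nat.not_prime_one
      · omega
    rw [h1, h2, sum_empty]
    simp
  · rw [if_neg hp]
    by_cases hr : ∀ p ∈ n.primeFactors, Z < p
    · -- product of two primes
      have hro : ro Z n = 1 := by unfold ro; rw [if_pos hr]
      obtain ⟨p₁, hp₁⟩ : ∃ p₁, p₁ = n.minFac := ⟨_, rfl⟩
      have hZ0 : n ≠ 1 := by
        intro h
        have : P = 0 := by omega
        have h2 : Z = 0 := by omega
        rw [h2] at hZ
        omega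
      have hpp₁ : p₁.Prime := by rw [hp₁]; exact Nat.minFac_prime hZ0
      have hd₁ : p₁ ∣ n := by rw [hp₁]; exact Nat.minFac_dvd n
      obtain ⟨m, hm⟩ := hd₁
      have hm0 : m ≠ 0 := by rintro rfl; omega
      have hm1 : m ≠ 1 := by
        rintro rfl
        rw [mul_one] at hm
        exact hp (hm ▸ hpp₁)
      have hr₁ : Z < p₁ := hr p₁ (Nat.mem_primeFactors.2 ⟨hpp₁, ⟨m, hm⟩, by omega⟩)
      have hmr : ∀ p, p.Prime → p ∣ m → Z < p := fun p h1 h2 =>
        hr p (Nat.mem_primeFactors.2 ⟨h1, hm ▸ (h2.mul_left p₁), by omega⟩)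
      have hmp : m.Prime := by
        by_contra hmp
        obtain ⟨p₂, hp₂⟩ : ∃ p₂, p₂ = m.minFac := ⟨_, rfl⟩
        have hpp₂ : p₂.Prime := by rw [hp₂]; exact Nat.minFac_prime hm1
        obtain ⟨k, hk⟩ : p₂ ∣ m := by rw [hp₂]; exact Nat.minFac_dvd m
        have hk1 : k ≠ 1 := by
          rintro rfl
          rw [mul_one] at hk
          exact hmp (hk ▸ hpp₂)
        have hk0 : k ≠ 0 := by rintro rfl; omega
        have h3 := Nat.minFac_prime hk1
        have h4 : Z < k.minFac := hmr _ h3 ((Nat.minFac_dvd k).trans ⟨p₂, by rw [hk, mul_comm]⟩)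
        have h5 : k.minFac ≤ k := Nat.minFac_le (by omega)
        have h6 : Z < p₂ := hmr _ hpp₂ ⟨k, hk⟩
        have h7 : (Z + 1) ^ 3 ≤ n := by
          calc (Z + 1) ^ 3 = (Z + 1) * ((Z + 1) * (Z + 1)) := by ring
            _ ≤ p₁ * (p₂ * k) := Nat.mul_le_mul hr₁ (Nat.mul_le_mul h6 (by omega))
            _ = n := by rw [hm, hk]
        omega
      have hne : p₁ ≠ m := by
        rintro rfl
        exact hsq ⟨p₁, hm⟩
      have hmZ : Z < m := hmr m hmp dvd_rfl
      have hle : ∀ a b : ℕ, Z < b → a * b = n → a ≤ P := by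
        intro a b hb hab
        rw [hP, Nat.le_div_iff_mul_le (by omega)]
        calc a * (Z + 1) ≤ a * b := Nat.mul_le_mul_left _ hb
          _ = n := hab
          _ ≤ N := hnN
      have hset : n.divisors.filter (fun p => p.Prime ∧ Z < p ∧ p ≤ P) = {p₁, m} := by
        ext p
        rw [mem_filter, Nat.mem_divisors, mem_insert, mem_singleton]
        constructor
        · rintro ⟨⟨h1, -⟩, h2, -, -⟩
          rw [hm] at h1
          rcases (Nat.Prime.dvd_mul h2).1 h1 with h | h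
          · left; exact (Nat.prime_dvd_prime_iff_eq h2 hpp₁).1 h
          · right; exact (Nat.prime_dvd_prime_iff_eq h2 hmp).1 h
        · rintro (rfl | rfl)
          · exact ⟨⟨⟨m, hm⟩, by omega⟩, hpp₁, hr₁, hle p m hmZ hm.symm⟩
          · exact ⟨⟨⟨p₁, by rw [hm, mul_comm]⟩, by omega⟩, hmp, hmZ, hle p p₁ hr₁ (by rw [hm, mul_comm])⟩
      rw [hset, sum_pair hne]
      have e1 : n / p₁ = m := by rw [hm]; exact Nat.mul_div_cancel_left m hpp₁.pos
      have e2 : n / m = p₁ := by rw [hm]; exact Nat.mul_div_cancel p₁ hmp.pos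
      have r1 : ro Z m = 1 := by
        unfold ro
        rw [if_pos]
        intro p hp'
        rw [hmp.primeFactors, mem_singleton] at hp'
        omega
      have r2 : ro Z p₁ = 1 := by
        unfold ro
        rw [if_pos]
        intro p hp'
        rw [hpp₁.primeFactors, mem_singleton] at hp'
        omega
      rw [e1, e2, hro, r1, r2]
      norm_num
    · have hro : ro Z n = 0 := by unfold ro; rw [if_neg hr]
      rw [hro, sum_eq_zero]
      · simp
      · intro p hp'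
        rw [mem_filter] at hp'
        have : ro Z (n / p) = 0 := by
          unfold ro
          rw [if_neg]
          intro hall
          apply hr
          intro p' hp''
          by_cases h : p' = p
          · rw [h]; exact hp'.2.2.1
          · have h1 := Nat.mem_primeFactors.1 hp''
            exact hall p' (pf_div (by omega) (Nat.dvd_of_mem_divisors hp'.1) hp'.2.1 h1.1 h1.2.1 h)
        rw [this]
        simp

lemma ro_le (Z n : ℕ) : ‖((ro Z n : ℝ) : ℂ)‖ ≤ 1 := by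
  unfold ro
  split_ifs <;> simp

lemma F1_le {Z P N n : ℕ} (hn : 1 ≤ n) (hnN : n ≤ N) (hZ : N < (Z + 1) ^ 3) : ‖F1 Z P n‖ ≤ 2 := by
  have := op_bd (P := P) hn hnN hZ (fun n => ((ro Z n : ℝ) : ℂ)) (ro_le Z n) (fun p _ => ro_le Z (n / p))
  unfold F1
  linarith

/-- the exceptions are few -/
lemma F1_sq {Z P N y : ℕ} (hP : P = N / (Z + 1)) (hZP : Z ≤ P) (hyN : y ≤ N) (hZ : N < (Z + 1) ^ 3) :
    ∑ n ∈ Icc 1 y, ‖F1 Z P n - (if n.Prime then 1 else 0)‖ ^ 2 ≤ 9 * ((P : ℝ) + Nat.sqrt N) := by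
  classical
  have h1 : ∀ n ∈ Icc 1 y, ‖F1 Z P n - (if n.Prime then 1 else 0)‖ ^ 2 ≤
      (if n ≤ P then 9 else 0) + (if IsSquare n then 9 else 0) := by
    intro n hn
    rw [mem_Icc] at hn
    have hb : ‖F1 Z P n - (if n.Prime then 1 else 0)‖ ^ 2 ≤ 9 := by
      have h2 := F1_le (P := P) hn.1 (hn.2.trans hyN) hZ
      have h3 : ‖(if n.Prime then (1 : ℂ) else 0)‖ ≤ 1 := by split_ifs <;> simp
      have h4 : ‖F1 Z P n - (if n.Prime then 1 else 0)‖ ≤ 3 := (norm_sub_le _ _).trans (by linarith)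
      calc _ ≤ (3 : ℝ) ^ 2 := pow_le_pow_left₀ (norm_nonneg _) h4 2
        _ = 9 := by norm_num
    by_cases h2 : n ≤ P
    · rw [if_pos h2]
      refine hb.trans ?_
      by_cases hs : IsSquare n
      · rw [if_pos hs]; norm_num
      · rw [if_neg hs]; norm_num
    · by_cases h3 : IsSquare n
      · rw [if_neg h2, if_pos h3]; linarith
      · rw [if_neg h2, if_neg h3, F1_val hP hZP (by omega) (hn.2.trans hyN) hZ h3, sub_self, norm_zero]
        norm_num
  refine (sum_le_sum h1).trans ?_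
  rw [sum_add_distrib, ← sum_filter, ← sum_filter, sum_const, sum_const, nsmul_eq_mul, nsmul_eq_mul]
  have h2 : (((Icc 1 y).filter (fun n => n ≤ P)).card : ℝ) ≤ P := by
    have : (Icc 1 y).filter (fun n => n ≤ P) ⊆ Icc 1 P := by
      intro n hn
      rw [mem_filter, mem_Icc] at hn
      exact mem_Icc.2 ⟨hn.1.1, hn.2⟩
    have h3 := card_le_card this
    rw [Nat.card_Icc, Nat.add_sub_cancel] at h3
    exact_mod_cast h3
  have h3 : (((Icc 1 y).filter (fun n => IsSquare n)).card : ℝ) ≤ Nat.sqrt N := by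
    have : (Icc 1 y).filter (fun n => IsSquare n) ⊆ (Icc 1 (Nat.sqrt N)).image (fun k => k * k) := by
      intro n hn
      rw [mem_filter, mem_Icc] at hn
      obtain ⟨⟨h1, h2⟩, k, hk⟩ := hn
      rw [mem_image]
      refine ⟨k, mem_Icc.2 ⟨?_, ?_⟩, hk.symm⟩
      · rcases Nat.eq_zero_or_pos k with h0 | h0
        · subst h0; omega
        · exact h0
      · rw [Nat.le_sqrt]
        omega
    have h3 := (card_le_card this).trans card_image_le
    rw [Nat.card_Icc, Nat.add_sub_cancel] at h3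
    exact_mod_cast h3
  linarith

end Pool.Agent.R460.GH
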