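import Pool.Agent.R460.GH.ML
import Pool.Agent.R460.GS.NG

set_option autoImplicit false

/-! The von Mangoldt function on the minor arcs. -/

namespace Pool.Agent.R460.GH

open Finset
open Pool.Agent.R460.GS
open Pool.Agent.Y883.GJ
open Pool.Agent.H807R2.Dav (ee)
open Pool.Agent.Y614.GJ.Core (ev_log)

/-- the bilinear sums on the minor arcs -/
lemma bil_min2 {K : ℝ} (hK : ∀ (q N M r : ℕ) [NeZero q] (h : ℤ) (β : ℝ) (a b : ℕ → ℂ), 1 ≤ M → M ≤ N →
    1 ≤ r → IsCoprime h (r : ℤ) → |q * β - h / r| ≤ 1 / (r : ℝ) ^ 2 →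
    ‖∑ m ∈ Ioc M (2 * M), ∑ k ∈ Icc 1 (N / m),
      (a m * b k) • ev (univ : Finset (DirichletCharacter ℂ q)) β (m * k)‖ ^ 2 ≤
    K * (∑ m ∈ Ioc M (2 * M), ‖a m‖ ^ 2) * (∑ k ∈ Icc 1 (N / M), ‖b k‖ ^ 2) *
      (q * (M + (N : ℝ) / (q * r) + (N : ℝ) / (q * M) + r) * (1 + Real.log r)))
    {q N y r C A' W Z : ℕ} [NeZero q] {h : ℤ} {β L X : ℝ} {a b : ℕ → ℂ} (hL : L = Real.log N) (hN : 1 ≤ N)
    (hy : y ≤ N) (hW1 : 1 ≤ W) (hZN : Z ≤ N)
    (ha : ∀ m, a m ≠ 0 → W < m ∧ m ≤ Z) (ha1 : ∀ m, ‖a m‖ ≤ 1) (hb1 : ∀ m ∈ Icc 1 N, ‖b m‖ ≤ 2)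
    (hr1 : 1 ≤ r) (hrN : r ≤ N) (hcop : IsCoprime h (r : ℤ)) (hβ : |q * β - h / r| ≤ 1 / (r : ℝ) ^ 2)
    (hX : X = N / L ^ C) (hKL : 288 * |K| ≤ L) (hL1 : 1 ≤ L) (hCA : C = A' + 4)
    (hqZ : (q : ℝ) * Z ≤ X) (hqr : (q : ℝ) * r ≤ X) (hNr : (N : ℝ) / r ≤ X) (hNW : (N : ℝ) / W ≤ X) :
    ‖∑ m ∈ Icc 1 y, ∑ k ∈ Icc 1 (y / m),
      (a m * b k) • ev (univ : Finset (DirichletCharacter ℂ q)) β (m * k)‖ ^ 2 ≤ (N : ℝ) ^ 2 / L ^ A' := by
  have hW1r : (1 : ℝ) ≤ W := by exact_mod_cast hW1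
  have hN0 : (0 : ℝ) < N := by exact_mod_cast hN
  have hq0 : (0 : ℝ) < q := by exact_mod_cast NeZero.pos q
  have hr0 : (0 : ℝ) < r := by exact_mod_cast hr1
  have hL0 : 0 < L := by linarith
  have hX0 : 0 ≤ X := by rw [hX]; positivity
  obtain ⟨I, hI⟩ : ∃ I, I = Nat.log 2 N + 1 := ⟨_, rfl⟩
  have hIL : (I : ℝ) ≤ 3 * L := by
    have := log2_le hN
    rw [← hI, ← hL] at this
    linarith
  have hZI : Z ≤ W * 2 ^ I := by
    have h1 : N < 2 ^ I := by
      rw [hI]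
      exact Nat.lt_pow_succ_log_self (by norm_num) N
    calc Z ≤ N := hZN
      _ ≤ 1 * 2 ^ I := by omega
      _ ≤ _ := Nat.mul_le_mul_right _ hW1
  rw [dyad_bil (ev (univ : Finset (DirichletCharacter ℂ q)) β) ha hZI]
  have hpiece : ∀ i ∈ range I, ‖∑ m ∈ Ioc (W * 2 ^ i) (2 * (W * 2 ^ i)), ∑ k ∈ Icc 1 (y / m),
      (a m * b k) • ev (univ : Finset (DirichletCharacter ℂ q)) β (m * k)‖ ^ 2 ≤ |K| * N * (32 * X * L) := by
    intro i _
    obtain ⟨M, hM⟩ : ∃ M, M = W * 2 ^ i := ⟨_, rfl⟩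
    rw [← hM]
    have hWM : W ≤ M := by
      rw [hM]
      exact Nat.le_mul_of_pos_right _ (by positivity)
    have hM1 : 1 ≤ M := hW1.trans hWM
    have hM0 : (0 : ℝ) < M := by exact_mod_cast hM1
    have hR0 : 0 ≤ |K| * N * (32 * X * L) := by positivity
    by_cases hMy : M ≤ y
    · by_cases hMZ : M ≤ Z
      · refine (hK q y M r h β a b hM1 hMy hr1 hcop hβ).trans ?_
        have e1 : ∑ m ∈ Ioc M (2 * M), ‖a m‖ ^ 2 ≤ M := by
          calc ∑ m ∈ Ioc M (2 * M), ‖a m‖ ^ 2 ≤ ∑ m ∈ Ioc M (2 * M), (1 : ℝ) :=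
                sum_le_sum fun m _ => pow_le_one₀ (norm_nonneg _) (ha1 m)
            _ = M := by
                rw [sum_const, Nat.card_Ioc, nsmul_eq_mul, mul_one]
                congr 1
                omega
        have e2 : ∑ k ∈ Icc 1 (y / M), ‖b k‖ ^ 2 ≤ 4 * ((N : ℝ) / M) := by
          calc ∑ k ∈ Icc 1 (y / M), ‖b k‖ ^ 2 ≤ ∑ k ∈ Icc 1 (y / M), (4 : ℝ) := by
                refine sum_le_sum fun m hm => ?_
                rw [mem_Icc] at hm
                have h1 := hb1 m (mem_Icc.2 ⟨hm.1, hm.2.trans ((Nat.div_le_self _ _).trans hy)⟩)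
                have h2 := pow_le_pow_left₀ (norm_nonneg _) h1 2
                linarith
            _ = 4 * ((y / M : ℕ) : ℝ) := by
                rw [sum_const, Nat.card_Icc, nsmul_eq_mul, Nat.add_sub_cancel]
                ring
            _ ≤ 4 * ((y : ℝ) / M) := by
                have := Nat.cast_div_le (α := ℝ) (m := y) (n := M)
                linarith
            _ ≤ 4 * ((N : ℝ) / M) := by
                have : (y : ℝ) ≤ N := by exact_mod_cast hy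
                gcongr
        have hyr : (y : ℝ) ≤ N := by exact_mod_cast hy
        have e3 : (q : ℝ) * (M + (y : ℝ) / (q * r) + (y : ℝ) / (q * M) + r) ≤ 4 * X := by
          have k1 : (q : ℝ) * M ≤ X := by
            refine le_trans ?_ hqZ
            have : (M : ℝ) ≤ Z := by exact_mod_cast hMZ
            gcongr
          have k2 : (y : ℝ) / r ≤ X := by
            refine le_trans ?_ hNr
            gcongr
          have k3 : (y : ℝ) / M ≤ X := by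
            refine le_trans ?_ hNW
            have : (W : ℝ) ≤ M := by exact_mod_cast hWM
            gcongr
          have k4 : (q : ℝ) * (M + (y : ℝ) / (q * r) + (y : ℝ) / (q * M) + r) =
              q * M + y / r + y / M + q * r := by
            field_simp
          rw [k4]
          linarith
        have e4 : 1 + Real.log r ≤ 2 * L := by
          have : Real.log r ≤ L := by
            rw [hL]
            exact Real.log_le_log hr0 (by exact_mod_cast hrN)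
          linarith
        have e5 : 0 ≤ 1 + Real.log r := by
          have := Real.log_natCast_nonneg r
          linarith
        have e6 : 0 ≤ ∑ m ∈ Ioc M (2 * M), ‖a m‖ ^ 2 := sum_nonneg fun _ _ => sq_nonneg _
        have e7 : 0 ≤ ∑ k ∈ Icc 1 (y / M), ‖b k‖ ^ 2 := sum_nonneg fun _ _ => sq_nonneg _
        have e8 : 0 ≤ (q : ℝ) * (M + (y : ℝ) / (q * r) + (y : ℝ) / (q * M) + r) := by positivity
        calc K * (∑ m ∈ Ioc M (2 * M), ‖a m‖ ^ 2) * (∑ k ∈ Icc 1 (y / M), ‖b k‖ ^ 2) *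
            (q * (M + (y : ℝ) / (q * r) + (y : ℝ) / (q * M) + r) * (1 + Real.log r))
            = K * ((∑ m ∈ Ioc M (2 * M), ‖a m‖ ^ 2) * (∑ k ∈ Icc 1 (y / M), ‖b k‖ ^ 2) *
            ((q * (M + (y : ℝ) / (q * r) + (y : ℝ) / (q * M) + r)) * (1 + Real.log r))) := by ring
          _ ≤ |K| * ((∑ m ∈ Ioc M (2 * M), ‖a m‖ ^ 2) * (∑ k ∈ Icc 1 (y / M), ‖b k‖ ^ 2) *
            ((q * (M + (y : ℝ) / (q * r) + (y : ℝ) / (q * M) + r)) * (1 + Real.log r))) := by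
              apply mul_le_mul_of_nonneg_right (le_abs_self K)
              positivity
          _ ≤ |K| * ((M * (4 * (N / M))) * ((4 * X) * (2 * L))) := by
              gcongr
          _ = _ := by
              field_simp
              ring
      · -- no coefficients
        rw [sum_eq_zero, norm_zero, zero_pow two_ne_zero]
        · exact hR0
        · intro m hm
          rw [mem_Ioc] at hm
          have : a m = 0 := by
            by_contra h0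
            have := (ha m h0).2
            omega
          simp only [this, zero_mul, zero_smul, sum_const_zero]
    · rw [sum_eq_zero, norm_zero, zero_pow two_ne_zero]
      · exact hR0
      · intro m hm
        rw [mem_Ioc] at hm
        rw [Nat.div_eq_of_lt (by omega)]
        simp
  refine (norm_sq_range I _ hpiece).trans ?_
  have hI0 : (0 : ℝ) ≤ I := Nat.cast_nonneg _
  calc (I : ℝ) * (I * (|K| * N * (32 * X * L))) ≤ (3 * L) * ((3 * L) * (|K| * N * (32 * X * L))) := by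
        gcongr
    _ = (288 * |K|) * (N * X * L ^ 3) := by ring
    _ ≤ L * (N * X * L ^ 3) := by gcongr
    _ = (N : ℝ) ^ 2 / L ^ A' := by
        rw [hX, hCA, pow_add]
        field_simp

theorem nLA (h1 : L2Stm) (hB : BilMinStm) (A : ℕ) {ρ : ℝ} (hρ : 0 < ρ) : ∃ C N₀ : ℕ, ∀ N : ℕ, N₀ ≤ N →
    MinAt N (1 / 30 + ρ) A C LA := by
  classical
  obtain ⟨K, hK⟩ := hB
  obtain ⟨k₀, hk, hkρ⟩ := ex_k (ρ := ρ / 2) (by positivity)
  obtain ⟨hk0', hk12⟩ := inv_k hk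
  obtain ⟨A', hA'⟩ : ∃ A', A' = A + 4 := ⟨_, rfl⟩
  obtain ⟨C, hC⟩ : ∃ C, C = A' + 2 * (A' + 14) + 8 + 4 := ⟨_, rfl⟩
  obtain ⟨N₂, hG⟩ := pr_vec h1 A' k₀ hk
  obtain ⟨N₅, hG2⟩ := la_vec h1 A
  obtain ⟨s, hs⟩ : ∃ s : ℝ, s = min (ρ / 2) (1 / (k₀ : ℝ)) := ⟨_, rfl⟩
  have hs0 : 0 < s := by rw [hs]; exact lt_min (by positivity) hk0'
  have hs1 : s ≤ ρ / 2 := by rw [hs]; exact min_le_left _ _
  have hs2 : s ≤ 1 / (k₀ : ℝ) := by rw [hs]; exact min_le_right _ _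
  obtain ⟨N₃, hN₃⟩ := Filter.eventually_atTop.1 (ev_log (C + A' + 9) (s := s) hs0 (8200000000 + 288 * |K|))
  refine ⟨C, max (max N₂ N₅) (max N₃ 64), fun N hN q _ hq k h β hk1 hk2 hcop hβ y hy => ?_⟩
  have hNN₂ : N₂ ≤ N := le_trans (le_trans (le_max_left _ _) (le_max_left _ _)) hN
  have hNN₅ : N₅ ≤ N := le_trans (le_trans (le_max_right _ _) (le_max_left _ _)) hN
  have hNN₃ : N₃ ≤ N := le_trans (le_trans (le_max_left _ _) (le_max_right _ _)) hN
  have hN64 : 64 ≤ N := le_trans (le_trans (le_max_right _ _) (le_max_right _ _)) hN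
  have hN1 : 1 ≤ N := by omega
  obtain ⟨hL16, hLp⟩ := hN₃ N hNN₃
  have hN0 : (0 : ℝ) < N := by exact_mod_cast hN1
  have hNr1 : (1 : ℝ) ≤ N := by exact_mod_cast hN1
  have hq0 : (0 : ℝ) < q := by exact_mod_cast NeZero.pos q
  have hq1 : (1 : ℝ) ≤ q := by exact_mod_cast NeZero.pos q
  have hKa := abs_nonneg K
  have hq' : (q : ℝ) ≤ (N : ℝ) ^ (2 / 3 - ρ) := by
    have e : (7 / 10 - (1 / 30 + ρ) : ℝ) = 2 / 3 - ρ := by ring
    rw [e] at hq
    exact hq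
  have hqN : (q : ℝ) ≤ N := by
    calc (q : ℝ) ≤ (N : ℝ) ^ (2 / 3 - ρ) := hq'
      _ ≤ (N : ℝ) ^ (1 : ℝ) := Real.rpow_le_rpow_of_exponent_le hNr1 (by linarith)
      _ = N := Real.rpow_one _
  have hqNn : q ≤ N := by exact_mod_cast hqN
  have hW1 := one_le_Wk (k := k₀) hN1
  have hW1r : (1 : ℝ) ≤ Wk k₀ N := by exact_mod_cast hW1
  have hWge : (N : ℝ) ^ (1 / (k₀ : ℝ)) ≤ 2 * Wk k₀ N := by
    have : (N : ℝ) ^ (1 / (k₀ : ℝ)) < (Wk k₀ N : ℝ) + 1 := Nat.lt_floor_add_one _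
    linarith
  have hP1 : 1 ≤ Pk k₀ N := hW1.trans ((Wk_le hN1).trans (Zk_le_Pk hk hN64))
  have hM1 : 1 ≤ Pk k₀ N * Wk k₀ N := Nat.mul_le_mul hP1 hW1
  have hMr := PW_real (k := k₀) hN1
  have hMN : Pk k₀ N * Wk k₀ N ≤ N := by
    have : ((Pk k₀ N * Wk k₀ N : ℕ) : ℝ) ≤ N := hMr.trans (by
      calc (N : ℝ) ^ (2 / 3 : ℝ) ≤ (N : ℝ) ^ (1 : ℝ) :=
            Real.rpow_le_rpow_of_exponent_le hNr1 (by norm_num)
        _ = N := Real.rpow_one _)
    exact_mod_cast this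
  obtain ⟨hl1, hl2⟩ := ell (by linarith) (by omega) (NeZero.pos q) hqNn hM1 hMN
  have hl4 : ((Nat.log 2 (2 * (Pk k₀ N * Wk k₀ N)) : ℕ) : ℝ) + 1 ≤ 4 * Real.log N := by
    have e1 := log2_le (N := 2 * (Pk k₀ N * Wk k₀ N)) (by omega)
    have e2 : Real.log ((2 * (Pk k₀ N * Wk k₀ N) : ℕ) : ℝ) ≤ Real.log 2 + Real.log N := by
      rw [← Real.log_mul (by norm_num) hN0.ne']
      apply Real.log_le_log
      · have : 0 < 2 * (Pk k₀ N * Wk k₀ N) := by omega
        exact_mod_cast this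
      · have : 2 * (Pk k₀ N * Wk k₀ N) ≤ 2 * N := Nat.mul_le_mul_left 2 hMN
        exact_mod_cast this
    have e3 : Real.log 2 ≤ 1 := by
      have := Real.log_two_lt_d9
      linarith
    push_cast at e1 e2 ⊢
    linarith
  obtain ⟨L, hL⟩ : ∃ L, L = Real.log (N : ℝ) := ⟨_, rfl⟩
  have hL16' : 16 ≤ L := by rw [hL]; linarith
  have hL0 : 0 < L := by linarith
  have hL1 : 1 ≤ L := by linarith
  rw [← hL] at hk1 hk2 hLp hL16 hl1 hl2 hl4
  have hLC1 : 1 ≤ L ^ C := one_le_pow₀ hL1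
  have hk0 : (0 : ℝ) < k := lt_of_lt_of_le (by positivity) hk1
  have hkn : 1 ≤ k := by exact_mod_cast hk0
  have hkN : k ≤ N := by
    have : (k : ℝ) ≤ N := by
      calc (k : ℝ) = 1 * k * 1 := by ring
        _ ≤ q * k * L ^ C := by gcongr
        _ ≤ N := hk2
    exact_mod_cast this
  have hl3 : 1 + Real.log k ≤ 4 * L := by
    have : Real.log k ≤ L := by
      rw [hL]
      exact Real.log_le_log hk0 (by exact_mod_cast hkN)
    linarith
  obtain ⟨X, hX⟩ : ∃ X, X = N / L ^ C := ⟨_, rfl⟩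
  have hX0 : 0 ≤ X := by rw [hX]; positivity
  have hqk : (q : ℝ) * k ≤ X := by
    rw [hX, le_div_iff₀ (by positivity)]
    exact hk2
  have hNk : (N : ℝ) / k ≤ X := by
    rw [hX]
    gcongr
  have hLC : L ^ C ≤ (N : ℝ) ^ s := (pow_le_pow_right₀ hL1 (by omega)).trans hLp
  have hqZ : (q : ℝ) * Zk k₀ N ≤ X := by
    rw [hX, le_div_iff₀ (by positivity)]
    calc (q : ℝ) * Zk k₀ N * L ^ C ≤ (N : ℝ) ^ (2 / 3 - ρ) * (N : ℝ) ^ (1 / 3 + 1 / (k₀ : ℝ)) * (N : ℝ) ^ s := by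
          have := Zk_real (k := k₀) (N := N)
          gcongr
      _ = (N : ℝ) ^ (2 / 3 - ρ + (1 / 3 + 1 / (k₀ : ℝ)) + s) := by
          rw [← Real.rpow_add hN0, ← Real.rpow_add hN0]
      _ ≤ (N : ℝ) ^ (1 : ℝ) := Real.rpow_le_rpow_of_exponent_le hNr1 (by linarith)
      _ = N := Real.rpow_one _
  have hNW : (N : ℝ) / Wk k₀ N ≤ X := by
    rw [hX, div_le_div_iff₀ (by positivity) (by positivity)]
    have : L ^ C ≤ Wk k₀ N := by
      have h2 : L ^ (C + A' + 9) ≤ 2 * Wk k₀ N :=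
        hLp.trans ((Real.rpow_le_rpow_of_exponent_le hNr1 hs2).trans hWge)
      have h3 : 2 * L ^ C ≤ L ^ (C + A' + 9) := by
        calc 2 * L ^ C ≤ L * L ^ C := by gcongr; linarith
          _ = L ^ (C + 1) := by ring
          _ ≤ _ := pow_le_pow_right₀ hL1 (by omega)
      linarith
    gcongr
  -- the sum of squares
  have hcs := hG2 N hNN₅ q hqN univ β y hy ?_
  · exact hcs
  intro y' hy'
  have hy'N : y' ≤ N := hy'.trans hy
  rw [← hA']
  apply hG N hNN₂ q hqN univ β y' hy'N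
  · have t1 := ti_gen hy'N (a := fun m => op (Zk k₀ N) (Pk k₀ N) (af (mu1 (Wk k₀ N) (Wk k₀ N))) m)
      (fun m hm => mu1_supp hP1 hm) (fun m hm => opb hN1 (mu1_le _ _) hm) β
      (univ : Finset (DirichletCharacter ℂ q)) (range q) (Or.inl rfl)
    refine t1.trans ?_
    have t2 := tot_min (q := q) (N := N) (M := Pk k₀ N * Wk k₀ N) (k := k) (NeZero.pos q) hN1 hM1 hkn hcop
      hβ (ℓ := 4 * L) hl1 hl2 hl3 hl4
    have t3 := ti_main (s := s) hN1 (by linarith) (by linarith) hq' hMr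
    have t4 : (N : ℝ) ^ 2 / (k : ℝ) ^ 2 ≤ X ^ 2 := by
      rw [← div_pow]
      exact pow_le_pow_left₀ (by positivity) hNk 2
    have t5 : (q * k : ℝ) ^ 2 ≤ X ^ 2 := pow_le_pow_left₀ (by positivity) hqk 2
    rw [← hL]
    have t6 : q * ((Pk k₀ N * Wk k₀ N : ℕ) : ℝ) ^ 2 + (N : ℝ) ^ 2 / (k : ℝ) ^ 2 + q * N + (q * k : ℝ) ^ 2 ≤
        2 * (N : ℝ) ^ (2 - s) + 2 * X ^ 2 := by linarith
    have t7 : (N : ℝ) ^ (2 - s) ≤ (N : ℝ) ^ 2 / L ^ (A' + 9) := by
      rw [le_div_iff₀ (by positivity)]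
      calc (N : ℝ) ^ (2 - s) * L ^ (A' + 9) ≤ (N : ℝ) ^ (2 - s) * (N : ℝ) ^ s := by
            gcongr
            exact (pow_le_pow_right₀ hL1 (by omega)).trans hLp
        _ = (N : ℝ) ^ 2 := by
            rw [← Real.rpow_add hN0, ← Real.rpow_natCast]
            congr 1
            push_cast
            ring
    have t8 : X ^ 2 ≤ (N : ℝ) ^ 2 / L ^ (A' + 9) := by
      rw [hX, div_pow, ← pow_mul]
      apply div_le_div_of_nonneg_left (by positivity) (by positivity)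
      exact pow_le_pow_right₀ hL1 (by omega)
    calc 4 * ∑ j ∈ range q, GG0 q N (Pk k₀ N * Wk k₀ N) (β + j / q) ^ 2
        ≤ 4 * (2000000 * ((4 * L) ^ 4 * (2 * (N : ℝ) ^ (2 - s) + 2 * X ^ 2))) := by
          gcongr
          refine t2.trans ?_
          gcongr
      _ ≤ 4 * (2000000 * ((4 * L) ^ 4 * (2 * ((N : ℝ) ^ 2 / L ^ (A' + 9)) + 2 * ((N : ℝ) ^ 2 / L ^ (A' + 9))))) := by
          gcongr
      _ = 8192000000 * (L ^ 4 * ((N : ℝ) ^ 2 / L ^ (A' + 9))) := by ring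
      _ ≤ L * (L ^ 4 * ((N : ℝ) ^ 2 / L ^ (A' + 9))) := by
          gcongr
          linarith
      _ = (N : ℝ) ^ 2 / L ^ (A' + 4) := by
          rw [show A' + 9 = (A' + 4) + 5 by ring, pow_add L (A' + 4) 5]
          field_simp
  · intro j _
    rw [← hL]
    exact bil_min2 hK hL hN1 hy'N hW1 (Zk_le hk hN1) (fun m hm => a2_supp' hk hN1 hm) (a2_le _ _ _ _)
      (fun m hm => opb hN1 (b2_le _ _ _) hm) hkn hkN hcop hβ hX (by linarith) hL1 hC hqZ hqk hNk hNW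
  · intro j _
    rw [← hL]
    exact bil_min2 hK hL hN1 hy'N hW1 (Zk_le hk hN1) (fun m hm => a1_supp' hm) (a1_le _ _ _ _)
      (fun m hm => opb hN1 (b1_le _ _) hm) hkn hkN hcop hβ hX (by linarith) hL1 hC hqZ hqk hNk hNW

end Pool.Agent.R460.GH
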