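import Pool.Agent.R460.GS.ErrAll
import Pool.Agent.R460.GH.Core3
import Pool.Agent.R460.GH.Mod
import Pool.Agent.R460.GH.NL
import Pool.Agent.H373R2.T7.LamMaj

set_option autoImplicit false

/-! The error terms in project GH: the difference between the von Mangoldt function and the sieve model. -/

namespace Pool.Agent.R460.GH

open Finset
open Pool.Agent.R460.GS
open Pool.Agent.H807R2.Dav (ee)
open Pool.Agent.H373R2.T7 (lamz Vz pz lamz_ap lam_ap)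
open Pool.Agent.Y883.T3 (lsh)
open Pool.Agent.Y883.GJ
open Pool.Agent.Y614.GJ.Core (ev_log)

lemma FF_eq (z r : ℕ) : FF z r = fun n => LA n - LS z r n := by
  funext n
  unfold FF LA LS
  push_cast
  ring

lemma norm_FF (z r n : ℕ) : ‖FF z r n‖ = |ArithmeticFunction.vonMangoldt n - lsh z r n| := by
  unfold FF
  rw [Complex.norm_real, Real.norm_eq_abs]

lemma norm_LS (z r n : ℕ) : ‖LS z r n‖ = |lsh z r n| := by
  unfold LS
  rw [Complex.norm_real, Real.norm_eq_abs]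

lemma bd_FF {U N z r : ℕ} (hP : Par U N z r) (hL : 2 ≤ Real.log N) : BdAt N (FF z r) := by
  intro n hn
  have h1 := one_le_div hn
  rw [norm_FF]
  refine (hP.hT n hn).trans ?_
  apply mul_le_mul_of_nonneg_right _ (by positivity)
  nlinarith

lemma bd_LS {U N z r : ℕ} (hP : Par U N z r) (hL : 3 ≤ Real.log N) : BdAt N (LS z r) := by
  intro n hn
  have h1 := one_le_div hn
  rw [norm_LS]
  refine (lsh_abs hP hn).trans ?_
  apply mul_le_mul_of_nonneg_right _ (by positivity)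
  nlinarith

lemma nc_FF {U N z r : ℕ} (hP : Par U N z r) : NcAt N U (FF z r) := by
  intro q hq hqN
  simp only [norm_FF]
  exact hP.hC q hq hqN

lemma nc_LS {U N z r : ℕ} (hP : Par (U + 1) N z r) (hL : 2 ≤ Real.log N) : NcAt N U (LS z r) := by
  intro q hq hqN
  have hL0 : 0 < Real.log N := by linarith
  have h1 := hP.hC q hq hqN
  have h2 := hP.hL q hq hqN
  have h3 : ∀ n ∈ (Icc 1 N).filter (fun n => ¬ n.Coprime q), ‖LS z r n‖ ≤
      |ArithmeticFunction.vonMangoldt n - lsh z r n| + ArithmeticFunction.vonMangoldt n := by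
    intro n _
    rw [norm_LS]
    have h5 : lsh z r n = ArithmeticFunction.vonMangoldt n -
      (ArithmeticFunction.vonMangoldt n - lsh z r n) := by ring
    have h4 : 0 ≤ ArithmeticFunction.vonMangoldt n := ArithmeticFunction.vonMangoldt_nonneg
    calc |lsh z r n| = |ArithmeticFunction.vonMangoldt n - (ArithmeticFunction.vonMangoldt n - lsh z r n)| := by
          rw [← h5]
      _ ≤ |ArithmeticFunction.vonMangoldt n| + |ArithmeticFunction.vonMangoldt n - lsh z r n| := abs_sub _ _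
      _ = _ := by rw [abs_of_nonneg h4]; ring
  refine (sum_le_sum h3).trans ?_
  rw [sum_add_distrib]
  have hX : 0 ≤ (N : ℝ) / Real.log N ^ (U + 1) := by positivity
  calc _ ≤ N / Real.log N ^ (U + 1) + N / Real.log N ^ (U + 1) := add_le_add h1 h2
    _ = 2 * (N / Real.log N ^ (U + 1)) := by ring
    _ ≤ Real.log N * (N / Real.log N ^ (U + 1)) := mul_le_mul_of_nonneg_right (by linarith) hX
    _ = _ := by
        rw [pow_succ]
        field_simp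

lemma ap_FF {N K U z r₀ : ℕ} (hL : 2 ≤ Real.log N)
    (hlam : ∀ q : ℕ, 1 ≤ q → (q : ℝ) ≤ Real.log N ^ K → ∀ c y : ℕ, y ≤ N →
      |∑ n ∈ (Icc 1 y).filter (fun n => n ≡ c [MOD q]), lamz z n -
        (if c.Coprime q then (y : ℝ) / (Nat.totient q : ℝ) else 0)| ≤ N / Real.log N ^ (U + 2))
    (hsum : ∑ n ∈ Icc 1 N, |lamz z n - lsh z r₀ n| ≤ N / Real.log N ^ (U + 2))
    (hap : ∀ r : ℕ, 1 ≤ r → (r : ℝ) ≤ Real.log N ^ K → ∀ c y : ℕ, y ≤ N →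
      |∑ n ∈ (Icc 1 y).filter (fun n => n ≡ c [MOD r]), ArithmeticFunction.vonMangoldt n -
        (if c.Coprime r then (y : ℝ) / (Nat.totient r : ℝ) else 0)| ≤ N / Real.log N ^ (U + 2)) :
    ApAt N K U (FF z r₀) := by
  intro r hr1 hrK c y hy
  have hL0 : 0 < Real.log N := by linarith
  have h1 := hlam r hr1 hrK c y hy
  have h2 := hap r hr1 hrK c y hy
  have h3 : |∑ n ∈ (Icc 1 y).filter (fun n => n ≡ c [MOD r]), (lamz z n - lsh z r₀ n)| ≤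
      N / Real.log N ^ (U + 2) := by
    refine (abs_sum_le_sum_abs _ _).trans (le_trans ?_ hsum)
    refine sum_le_sum_of_subset_of_nonneg (fun n hn => ?_) fun _ _ _ => abs_nonneg _
    rw [mem_filter] at hn
    exact Icc_subset_Icc le_rfl hy hn.1
  have e1 : ∑ n ∈ (Icc 1 y).filter (fun n => n ≡ c [MOD r]), FF z r₀ n =
      ((∑ n ∈ (Icc 1 y).filter (fun n => n ≡ c [MOD r]), (ArithmeticFunction.vonMangoldt n - lsh z r₀ n) : ℝ) : ℂ) := by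
    push_cast
    refine sum_congr rfl fun n _ => ?_
    unfold FF
    push_cast
    rfl
  rw [e1, Complex.norm_real, Real.norm_eq_abs]
  obtain ⟨M, hM⟩ : ∃ M : ℝ, M = (if c.Coprime r then (y : ℝ) / (Nat.totient r : ℝ) else 0) := ⟨_, rfl⟩
  rw [← hM] at h1 h2
  have e2 : ∑ n ∈ (Icc 1 y).filter (fun n => n ≡ c [MOD r]), (ArithmeticFunction.vonMangoldt n - lsh z r₀ n) =
      (∑ n ∈ (Icc 1 y).filter (fun n => n ≡ c [MOD r]), ArithmeticFunction.vonMangoldt n - M) -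
      (∑ n ∈ (Icc 1 y).filter (fun n => n ≡ c [MOD r]), lamz z n - M) +
      ∑ n ∈ (Icc 1 y).filter (fun n => n ≡ c [MOD r]), (lamz z n - lsh z r₀ n) := by
    rw [sum_sub_distrib, sum_sub_distrib]
    ring
  rw [e2]
  have hX : 0 ≤ (N : ℝ) / Real.log N ^ (U + 2) := by positivity
  calc _ ≤ N / Real.log N ^ (U + 2) + N / Real.log N ^ (U + 2) + N / Real.log N ^ (U + 2) :=
        (abs_add_le _ _).trans (add_le_add ((abs_sub _ _).trans (add_le_add h2 h1)) h3)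
    _ = 3 * (N / Real.log N ^ (U + 2)) := by ring
    _ ≤ Real.log N ^ 2 * (N / Real.log N ^ (U + 2)) := by
        apply mul_le_mul_of_nonneg_right _ hX
        nlinarith
    _ = _ := by
        rw [pow_add]
        field_simp

lemma maj_FF {N A C C₃ z r : ℕ} {ρ : ℝ} (hL : 2 ≤ Real.log N) (hG : MajAt N ρ (A + 2) C C₃ LA)
    (hH : ∀ (q : ℕ) [NeZero q], (q : ℝ) ≤ (N : ℝ) ^ (7 / 10 - ρ) →
      ∀ η : ℝ, |η| ≤ Real.log N ^ C / N → ∀ y : ℕ, y ≤ N →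
      ∀ S : Finset (DirichletCharacter ℂ q), 1 ∉ S →
        ∑ χ ∈ S, ‖cs q y (LS z r) η χ‖ ^ 2 ≤ (N : ℝ) ^ 2 / Real.log N ^ (A + 2)) :
    MajAt N ρ A C C₃ (FF z r) := by
  intro q _ hq
  obtain ⟨B, hB1, hBc, hB⟩ := hG q hq
  refine ⟨B, hB1, hBc, fun η hη y hy S hS => ?_⟩
  have h1 := hB η hη y hy S hS
  have h2 := hH q hq η hη y hy S (fun h => disjoint_left.1 hS h hB1)
  rw [FF_eq]
  exact (sq_sub_sum LA (LS z r) η S h1 h2).trans (four_le hL)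

lemma maj_LS {N A C C₃ z r : ℕ} {ρ : ℝ} (hL : 1 ≤ Real.log N)
    (hH : ∀ (q : ℕ) [NeZero q], (q : ℝ) ≤ (N : ℝ) ^ (7 / 10 - ρ) →
      ∀ η : ℝ, |η| ≤ Real.log N ^ C / N → ∀ y : ℕ, y ≤ N →
      ∀ S : Finset (DirichletCharacter ℂ q), 1 ∉ S →
        ∑ χ ∈ S, ‖cs q y (LS z r) η χ‖ ^ 2 ≤ (N : ℝ) ^ 2 / Real.log N ^ A) :
    MajAt N ρ A C C₃ (LS z r) := by
  intro q _ hq
  refine ⟨{1}, mem_singleton_self _, ?_, fun η hη y hy S hS => ?_⟩
  · rw [card_singleton, Nat.cast_one]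
    exact one_le_pow₀ hL
  · exact hH q hq η hη y hy S (fun h => disjoint_left.1 hS h (mem_singleton_self _))

lemma min_FF {N A C C' z r : ℕ} {ρ : ℝ} (hL : 2 ≤ Real.log N) (hG : MinAt N ρ (A + 2) C LA)
    (hH : MinAt N ρ (A + 2) C' (LS z r)) : MinAt N ρ A (max C C') (FF z r) := by
  have h1 := min_mono (by linarith) (le_max_left C C') hG
  have h2 := min_mono (by linarith) (le_max_right C C') hH
  intro q _ hq k hh β k1 k2 k3 k4 y hy
  rw [FF_eq]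
  exact (sq_sub_sum LA (LS z r) β univ (h1 q hq k hh β k1 k2 k3 k4 y hy)
    (h2 q hq k hh β k1 k2 k3 k4 y hy)).trans (four_le hL)

/-- ERRH: all error terms -/
def ErrHStm : Prop := ∀ (A T U₀ : ℕ) (ρ : ℝ), 0 < ρ → ∃ B : ℕ, ∀ E : ℕ, ∃ N₀ : ℕ, ∀ N : ℕ, N₀ ≤ N → ∀ z : ℕ,
  Real.log N ^ B ≤ z → (z : ℝ) ≤ Real.log N ^ E → ∃ r : ℕ, Par U₀ N z r ∧
    ∑ n ∈ Icc 1 N, |lamz z n - lsh z r n| ≤ N / Real.log N ^ U₀ ∧
    ∀ F : ℕ → ℂ, (F = LA ∨ F = LS z r) →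
    ∀ (q : ℕ) [NeZero q], (q : ℝ) ≤ (N : ℝ) ^ (2 / 3 - ρ) → ∀ a : ZMod q,
    (Nat.gcd a.val q : ℝ) ≤ Real.log N ^ T → ∀ y₁ y₂ : ℕ, y₁ ≤ N → y₂ ≤ N →
      ∑ n ∈ (Icc 1 (2 * N)).filter (fun n : ℕ => (n : ZMod q) = a),
        ‖cv F (FF z r) y₁ y₂ n‖ ^ 2 ≤ (N : ℝ) ^ 3 / (q * Real.log N ^ A)

theorem err_H (hCore : Core3Stm) (hShm : ShmStm) (hShl : ShlStm) (hL2 : L2Stm) (hB3 : BilMaj3Stm)
    (hBm : BilMinStm) (hTM : TiMaj2Stm) (hTm : TiMinStm) (hLsh : LshStm) (hModel : ModelStm) : ErrHStm := by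
  intro A T U₀ ρ hρ
  have hρ2 : 0 < ρ / 2 := by positivity
  obtain ⟨A₁, hC1⟩ := hCore A T (1 / 30 + ρ) (1 / 30 + ρ / 2) (by positivity) (by linarith)
  obtain ⟨Cg, Ng, hg⟩ := nLA hL2 hBm (A₁ + 2) hρ2
  obtain ⟨Ch, Nh, hh⟩ := nHU hTm hLsh (A₁ + 2) (ρ := 1 / 30 + ρ / 2) (by positivity)
  obtain ⟨C, hC⟩ : ∃ C, C = max Cg Ch := ⟨_, rfl⟩
  obtain ⟨A₂, hC2⟩ := hC1 C
  obtain ⟨C₃, Nm1, hm1⟩ := mLA hL2 hB3 (A₂ + 2) C hρ2
  obtain ⟨Nm2, hm2⟩ := mHU hTM hLsh (A₂ + 2) C (ρ := 1 / 30 + ρ / 2) (by positivity)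
  obtain ⟨B₂, hC3⟩ := hC2 C₃
  obtain ⟨A₂', hs⟩ := hShm B₂ C (T + C) (1 / 30 + ρ / 2) (by positivity)
  obtain ⟨Nm4, hm4⟩ := mHU hTM hLsh A₂' C (ρ := 1 / 30 + ρ / 2) (by positivity)
  obtain ⟨K₁, Ns1, hs1⟩ := hs 0
  obtain ⟨K₂, Ns2, hs2⟩ := hShl B₂ C (T + C) (1 / 30 + ρ / 2) (by positivity)
  obtain ⟨K, hK⟩ : ∃ K, K = max K₁ K₂ := ⟨_, rfl⟩
  obtain ⟨U, Nc, hC4⟩ := hC3 K
  obtain ⟨U₁, hU₁⟩ : ∃ U₁, U₁ = max U₀ (max (U + 2) (B₂ + 3)) := ⟨_, rfl⟩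
  obtain ⟨Bm, hBm⟩ := hModel U₁
  refine ⟨max Bm K, fun E => ?_⟩
  obtain ⟨Nmo, hmo⟩ := hBm E
  obtain ⟨Nl, hl⟩ := lamz_ap E (U + 2)
  obtain ⟨Na, ha⟩ := lam_ap K (U + 2)
  obtain ⟨Ne, hNe⟩ := Filter.eventually_atTop.1 (ev_log 1 (s := 1) (by norm_num) 4)
  refine ⟨Ng + Nh + Nm1 + Nm2 + Nm4 + Ns1 + Ns2 + Nc + Nmo + Nl + Na + Ne + 1, fun N hN z hz1 hz2 => ?_⟩
  have hN1 : 1 ≤ N := by omega
  obtain ⟨hLe, -⟩ := hNe N (by omega)
  have hL1 : 1 ≤ Real.log N := by linarith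
  have hL2 : 2 ≤ Real.log N := by linarith
  have hzB : Real.log N ^ Bm ≤ z := (pow_le_pow_right₀ hL1 (le_max_left _ _)).trans hz1
  have hzK : Real.log N ^ K ≤ z := (pow_le_pow_right₀ hL1 (le_max_right _ _)).trans hz1
  have hz1' : 1 ≤ z := by
    have : (1 : ℝ) ≤ z := (one_le_pow₀ hL1).trans hz1
    exact_mod_cast this
  obtain ⟨r, hPar, hsum⟩ := hmo N (by omega) z hzB hz2
  have hdiv : ∀ V : ℕ, V ≤ U₁ → (N : ℝ) / Real.log N ^ U₁ ≤ N / Real.log N ^ V := fun V hV =>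
    div_le_div_of_nonneg_left (Nat.cast_nonneg _) (by positivity) (pow_le_pow_right₀ hL1 hV)
  have hU0 : U₀ ≤ U₁ := by rw [hU₁]; exact le_max_left _ _
  have hU2 : U + 2 ≤ U₁ := by rw [hU₁]; exact (le_max_left _ _).trans (le_max_right _ _)
  have hU3 : B₂ + 3 ≤ U₁ := by rw [hU₁]; exact (le_max_right _ _).trans (le_max_right _ _)
  have hP0 := par_mono hL1 hU0 hPar
  have hP2 := par_mono hL1 hU2 hPar
  have hP3 := par_mono hL1 hU3 hPar
  refine ⟨r, hP0, hsum.trans (hdiv _ hU0), ?_⟩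
  intro F hF q _ hq a hgcd y₁ y₂ hy₁ hy₂
  -- the conditions of the core estimate
  have hMin : MinAt N (1 / 30 + ρ / 2) A₁ C (FF z r) := by
    rw [hC]
    exact min_FF hL2 (hg N (by omega)) (hh N (by omega) z r hPar.hD hPar.hV)
  have hMaj : MajAt N (1 / 30 + ρ / 2) A₂ C C₃ (FF z r) :=
    maj_FF hL2 (hm1 N (by omega)) (fun q _ hq => hm2 N (by omega) q hq z r hPar.hD hPar.hV)
  have hAp : ApAt N K U (FF z r) := by
    refine ap_FF hL2 ?_ (hsum.trans (hdiv _ hU2)) (ha N (by omega))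
    intro q hq hqK c y hy
    refine hl N (by omega) z hz1' hz2 q hq ?_ c y hy
    exact_mod_cast hqK.trans hzK
  have hNc : NcAt N U (FF z r) := nc_FF (par_mono hL1 (by omega) hP2)
  have hBdF : BdAt N F := by
    rcases hF with h | h
    · rw [h]; exact bd_LA hL1
    · rw [h]; exact bd_LS hPar (by linarith)
  have hSh : ShAt N (1 / 30 + ρ / 2) B₂ C (T + C) K F := by
    rcases hF with h | h
    · rw [h]
      exact sh_mono hL1 (by rw [hK]; exact le_max_right _ _) (hs2 N (by omega))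
    · rw [h]
      refine sh_mono hL1 (by rw [hK]; exact le_max_left _ _) (hs1 N (by omega) _ (bd_LS hPar (by linarith)) ?_ ?_)
      · exact nc_LS (par_mono hL1 (by omega) hP3) (by linarith)
      · exact maj_LS hL1 (fun q _ hq => hm4 N (by omega) q hq z r hPar.hD hPar.hV)
  have hq' : (q : ℝ) ≤ (N : ℝ) ^ (7 / 10 - (1 / 30 + ρ)) := by
    have e : (7 / 10 - (1 / 30 + ρ) : ℝ) = 2 / 3 - ρ := by ring
    rw [e]
    exact hq
  exact hC4 N (by omega) F (FF z r) hBdF (bd_FF hPar (by linarith)) hMin hMaj hAp hNc hSh q hq' a hgcd y₁ y₂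
    hy₁ hy₂

end Pool.Agent.R460.GH
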