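import Pool.Agent.H373R2.T7.Lin
import Pool.Agent.Y614.GJ.Core

set_option autoImplicit false

/-! The majorant `KK`: one frequency. -/

namespace Pool.Agent.R460.GH

open Finset
open Pool.Agent.H807R2.Dav

/-- lower bound by the distance to the integers -/
lemma dd_ge_dist {x δ : ℝ} (h : ∀ m : ℤ, δ ≤ |x - m|) : 4 * δ ≤ dd x := by
  obtain ⟨t, ht⟩ : ∃ t, t = Int.fract x := ⟨_, rfl⟩
  have h0 : 0 ≤ t := by rw [ht]; exact Int.fract_nonneg _
  have h1 : t < 1 := by rw [ht]; exact Int.fract_lt_one _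
  have hdd : dd x = dd t := by
    have : x = t + (⌊x⌋ : ℤ) := by rw [ht]; exact (Int.fract_add_floor _).symm
    rw [this, dd_add_int]
  have h2 := dd_ge h0 h1.le
  rw [hdd]
  have h3 : δ ≤ t := by
    have := h ⌊x⌋
    rw [show x - (⌊x⌋ : ℤ) = t by rw [ht]; rfl, abs_of_nonneg h0] at this
    exact this
  have h4 : δ ≤ 1 - t := by
    have := h (⌊x⌋ + 1)
    have e : x - ((⌊x⌋ + 1 : ℤ) : ℝ) = -(1 - t) := by
      rw [ht, Int.fract]; push_cast; ring
    rw [e, abs_neg, abs_of_nonneg (by linarith)] at this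
    exact this
  have h5 : δ ≤ min t (1 - t) := le_min h3 h4
  linarith

lemma dd_ge_abs {x : ℝ} (hx : |x| ≤ 1 / 2) : 4 * |x| ≤ dd x := by
  apply dd_ge_dist
  intro m
  by_cases hm : m = 0
  · rw [hm]; simp
  · have h1 : (1 : ℝ) ≤ |(m : ℝ)| := by
      have : (1 : ℤ) ≤ |m| := Int.one_le_abs hm
      exact_mod_cast this
    have h2 := abs_sub_abs_le_abs_sub (m : ℝ) x
    rw [abs_sub_comm] at h2
    linarith

lemma dd_nmul (n : ℕ) (x : ℝ) : dd (n * x) ≤ n * dd x := by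
  induction n with
  | zero => simp [dd, ee_zero]
  | succ n ih =>
    have h1 : dd (((n + 1 : ℕ) : ℝ) * x) ≤ dd (n * x) + dd x := by
      unfold dd
      have e : ((n + 1 : ℕ) : ℝ) * x = n * x + x := by push_cast; ring
      rw [e, ee_add]
      have h2 : (1 : ℂ) - ee (n * x) * ee x = (1 - ee (n * x)) + ee (n * x) * (1 - ee x) := by ring
      rw [h2]
      refine (norm_add_le _ _).trans ?_
      rw [norm_mul, norm_ee, one_mul]
    push_cast at h1 ⊢
    linarith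

lemma KK_add_int (M x : ℝ) (n : ℤ) : KK M (x + n) = KK M x := by
  unfold KK; rw [dd_add_int]

/-- change of the parameter, large distance -/
lemma KK_chg {M x r : ℝ} (hM : 0 ≤ M) (hr : 0 < r) (h : 2 / r ≤ dd x) : KK M x ≤ 3 / 2 * KK r x := by
  have h3 : 0 < 2 / r := by positivity
  have h4 : 0 < dd x := lt_of_lt_of_le h3 h
  refine (KK_le' hM h4 le_rfl).trans ?_
  unfold KK
  have h6 : 2 ≤ r * dd x := by
    rw [div_le_iff₀ hr] at h
    linarith
  rw [mul_div_assoc', div_le_div_iff₀ h4 (by positivity)]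
  nlinarith

/-- the multiples of `r` are far away -/
lemma far {r m M : ℕ} {a : ℤ} {γ : ℝ} (hr : 1 ≤ r) (hcop : IsCoprime a (r : ℤ)) (hM : 1 ≤ M)
    (hγ : |γ - a / r| ≤ 1 / (2 * (M : ℝ) * r)) (hm : m ≤ M) (hrm : ¬ r ∣ m) : 2 / (r : ℝ) ≤ dd (m * γ) := by
  have hr0 : (0 : ℝ) < r := by exact_mod_cast hr
  have hM0 : (0 : ℝ) < M := by exact_mod_cast hM
  have hmr : (m : ℝ) ≤ M := by exact_mod_cast hm
  have key := dd_ge_dist (x := m * γ) (δ := 1 / (2 * (r : ℝ))) (by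
    intro n
    have hne : (m : ℤ) * a - n * r ≠ 0 := by
      intro h
      have h1 : (r : ℤ) ∣ (m : ℤ) * a := ⟨n, by linarith⟩
      have h2 : (r : ℤ) ∣ (m : ℤ) := (hcop.symm).dvd_of_dvd_mul_right h1
      exact hrm (by exact_mod_cast h2)
    have h1 : (1 : ℝ) ≤ |(m : ℝ) * a - n * r| := by
      have : (1 : ℤ) ≤ |(m : ℤ) * a - n * r| := Int.one_le_abs hne
      exact_mod_cast this
    have h2 : 1 / (r : ℝ) ≤ |(m : ℝ) * ((a : ℝ) / r) - n| := by
      have e : (m : ℝ) * (a / r) - n = ((m : ℝ) * a - n * r) / r := by field_simp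
      rw [e, abs_div, abs_of_pos hr0]
      exact div_le_div_of_nonneg_right h1 hr0.le
    have h3 : |(m : ℝ) * (γ - a / r)| ≤ 1 / (2 * r) := by
      rw [abs_mul, abs_of_nonneg (Nat.cast_nonneg m)]
      calc (m : ℝ) * |γ - a / r| ≤ M * (1 / (2 * (M : ℝ) * r)) := by gcongr
        _ = _ := by field_simp
    have h4 : (m : ℝ) * ((a : ℝ) / r) - n = (m * γ - n) - (m : ℝ) * (γ - a / r) := by ring
    have h5 := abs_sub (m * γ - n : ℝ) ((m : ℝ) * (γ - a / r))
    rw [← h4] at h5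
    have h6 : 1 / (r : ℝ) = 1 / (2 * r) + 1 / (2 * r) := by field_simp; norm_num
    linarith)
  have h6 : 2 / (r : ℝ) = 4 * (1 / (2 * r)) := by field_simp; norm_num
  rw [h6]
  exact key

/-- the multiples of `r` -/
lemma near {r t M N : ℕ} {a : ℤ} {γ : ℝ} (hr : 1 ≤ r) (hM : 1 ≤ M) (ht1 : 1 ≤ t)
    (hγ : |γ - a / r| ≤ 1 / (2 * (M : ℝ) * r)) (ht : r * t ≤ M) :
    KK ((N : ℝ) / ((r * t : ℕ) : ℝ)) (((r * t : ℕ) : ℝ) * γ) ≤ (2 / ((r : ℝ) * t)) * KK N (γ - a / r) := by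
  have hr0 : (0 : ℝ) < r := by exact_mod_cast hr
  have hM0 : (0 : ℝ) < M := by exact_mod_cast hM
  have ht0 : (0 : ℝ) < t := by exact_mod_cast ht1
  obtain ⟨δ, hδ⟩ : ∃ δ, δ = γ - a / r := ⟨_, rfl⟩
  rw [← hδ] at hγ ⊢
  have e1 : ((r * t : ℕ) : ℝ) * γ = (r * t) * δ + ((t * a : ℤ) : ℝ) := by
    rw [hδ]; push_cast; field_simp; ring
  rw [e1, KK_add_int]
  have htM : (r : ℝ) * t ≤ M := by exact_mod_cast ht
  have h1 : |(r * t : ℝ) * δ| ≤ 1 / 2 := by
    rw [abs_mul, abs_of_nonneg (by positivity)]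
    calc (r : ℝ) * t * |δ| ≤ M * (1 / (2 * (M : ℝ) * r)) := by gcongr
      _ = 1 / (2 * r) := by field_simp
      _ ≤ 1 / 2 := by
          apply one_div_le_one_div_of_le (by norm_num)
          have : (1 : ℝ) ≤ r := by exact_mod_cast hr
          linarith
  have h2 := dd_ge_abs h1
  have h3 := dd_le δ
  have h4 : dd δ ≤ 8 * |δ| := by
    have := Real.pi_lt_d2
    have h5 := abs_nonneg δ
    nlinarith
  rw [abs_mul, abs_of_nonneg (by positivity : (0 : ℝ) ≤ r * t)] at h2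
  have h5 : (r * t : ℝ) * dd δ ≤ 2 * dd ((r * t : ℝ) * δ) := by nlinarith [mul_le_mul_of_nonneg_left h4 (by positivity : (0 : ℝ) ≤ r * t)]
  unfold KK
  have hd1 := dd_nonneg δ
  have hd2 := dd_nonneg ((r * t : ℝ) * δ)
  have hN0 : (0 : ℝ) ≤ N := Nat.cast_nonneg _
  push_cast
  have e2 : 2 / ((r : ℝ) * t) * (3 * N / (1 + N * dd δ)) = (3 * N / ((r : ℝ) * t)) * (2 / (1 + N * dd δ)) := by ring
  have e3 : 3 * ((N : ℝ) / (r * t)) / (1 + N / (r * t) * dd ((r * t : ℝ) * δ)) =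
      (3 * N / ((r : ℝ) * t)) * (1 / (1 + N / (r * t) * dd ((r * t : ℝ) * δ))) := by ring
  rw [e2, e3]
  apply mul_le_mul_of_nonneg_left _ (by positivity)
  rw [div_le_div_iff₀ (by positivity) (by positivity)]
  have h6 : (N : ℝ) * dd δ ≤ 2 * (N / (r * t) * dd ((r * t : ℝ) * δ)) := by
    have : (N : ℝ) * dd δ = N / (r * t) * ((r * t) * dd δ) := by field_simp
    rw [this]
    calc (N : ℝ) / (r * t) * ((r * t) * dd δ) ≤ N / (r * t) * (2 * dd ((r * t : ℝ) * δ)) := by gcongr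
      _ = _ := by ring
  linarith

/-- the sum over the moduli coprime to `q` -/
noncomputable def GG0 (q N M : ℕ) (γ : ℝ) : ℝ :=
  ∑ m ∈ (Icc 1 M).filter (fun m => m.Coprime q), KK ((N : ℝ) / m) (m * γ)

lemma harm (n : ℕ) (hn : 1 ≤ n) : ∑ t ∈ Icc 1 n, (1 : ℝ) / t ≤ 1 + Real.log n := by
  have h := harmonic_le_one_add_log n
  have e : ((harmonic n : ℚ) : ℝ) = ∑ t ∈ Icc 1 n, (1 : ℝ) / t := by
    rw [harmonic_eq_sum_Icc]
    push_cast
    exact sum_congr rfl fun i _ => by rw [one_div]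
  rw [← e]
  exact h

lemma one_freq {q N M r : ℕ} {a : ℤ} {γ ℓ : ℝ} (hr : 1 ≤ r) (hrM : r ≤ 2 * M) (hcop : IsCoprime a (r : ℤ)) (hM : 1 ≤ M)
    (hγ : |γ - a / r| ≤ 1 / (2 * (M : ℝ) * r)) (hℓ : 1 + Real.log (2 * M) ≤ ℓ) :
    GG0 q N M γ ≤ 252 * (M * ℓ) + if r.Coprime q then (2 * ℓ / r) * KK N (γ - a / r) else 0 := by
  classical
  have hr0 : (0 : ℝ) < r := by exact_mod_cast hr
  have hM0 : (0 : ℝ) < M := by exact_mod_cast hM
  have hM1 : (1 : ℝ) ≤ M := by exact_mod_cast hM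
  have hrMr : (r : ℝ) ≤ 2 * M := by exact_mod_cast hrM
  have hN0 : (0 : ℝ) ≤ N := Nat.cast_nonneg _
  have hlr : Real.log r ≤ Real.log (2 * M) := Real.log_le_log hr0 hrMr
  have hlr0 : 0 ≤ Real.log r := Real.log_natCast_nonneg r
  unfold GG0
  rw [← sum_filter_add_sum_filter_not ((Icc 1 M).filter (fun m => m.Coprime q)) (fun m => ¬ r ∣ m)]
  refine add_le_add ?_ ?_
  · -- far
    have h1 : ∀ m ∈ ((Icc 1 M).filter (fun m => m.Coprime q)).filter (fun m => ¬ r ∣ m),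
        KK ((N : ℝ) / m) (m * γ) ≤ 3 / 2 * KK r (0 + m * γ) := by
      intro m hm
      rw [mem_filter, mem_filter, mem_Icc] at hm
      rw [zero_add]
      exact KK_chg (by positivity) hr0 (far hr hcop hM hγ hm.1.1.2 hm.2)
    refine (sum_le_sum h1).trans ?_
    rw [← mul_sum]
    have h2 : ∑ m ∈ ((Icc 1 M).filter (fun m => m.Coprime q)).filter (fun m => ¬ r ∣ m), KK r (0 + m * γ) ≤
        ∑ m ∈ range (M + 1), KK r (0 + m * γ) := by
      apply sum_le_sum_of_subset_of_nonneg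
      · intro m hm
        rw [mem_filter, mem_filter, mem_Icc] at hm
        rw [mem_range]; omega
      · intro m _ _; exact KK_nonneg hr0.le _
    have h3 := vino hr hcop (α := γ) (by
      refine hγ.trans ?_
      rw [sq]
      apply one_div_le_one_div_of_le (by positivity)
      gcongr) (M := (r : ℝ)) hr0.le 0 (M + 1)
    have h4 : (((M + 1 : ℕ) : ℝ) / r + 1) * (39 * r + 3 * r * (1 + Real.log r)) =
        (((M + 1 : ℕ) : ℝ) + r) * (39 + 3 * (1 + Real.log r)) := by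
      field_simp
    rw [h4] at h3
    have h5 : (((M + 1 : ℕ) : ℝ) + r) * (39 + 3 * (1 + Real.log r)) ≤ (4 * M) * (42 * ℓ) := by
      push_cast
      apply mul_le_mul (by linarith) _ (by positivity) (by positivity)
      nlinarith [Real.log_natCast_nonneg r]
    linarith
  · -- near
    by_cases hrq : r.Coprime q
    · rw [if_pos hrq]
      have hs : ((Icc 1 M).filter (fun m => m.Coprime q)).filter (fun m => ¬ ¬ r ∣ m) ⊆
          (Icc 1 (M / r)).image (fun t => r * t) := by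
        intro m hm
        rw [mem_filter, mem_filter, mem_Icc, not_not] at hm
        obtain ⟨⟨⟨h1, h2⟩, -⟩, t, rfl⟩ := hm
        rw [mem_image]
        refine ⟨t, ?_, rfl⟩
        rw [mem_Icc]
        refine ⟨Nat.pos_of_mul_pos_left h1, ?_⟩
        rw [Nat.le_div_iff_mul_le (by omega), mul_comm]
        exact h2
      refine (sum_le_sum_of_subset_of_nonneg hs fun m _ _ => KK_nonneg (by positivity) _).trans ?_
      rw [sum_image (fun x _ y _ h => Nat.eq_of_mul_eq_mul_left (by omega) h)]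
      have h1 : ∀ t ∈ Icc 1 (M / r), KK ((N : ℝ) / ((r * t : ℕ) : ℝ)) (((r * t : ℕ) : ℝ) * γ) ≤
          (2 / r * KK N (γ - a / r)) * (1 / t) := by
        intro t ht
        rw [mem_Icc] at ht
        refine (near hr hM ht.1 hγ ?_).trans (le_of_eq ?_)
        · have := (Nat.le_div_iff_mul_le (by omega : 0 < r)).1 ht.2
          rw [mul_comm]
          exact this
        · have : (0 : ℝ) < t := by exact_mod_cast ht.1
          field_simp
      refine (sum_le_sum h1).trans ?_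
      rw [← mul_sum]
      have h2 : ∑ t ∈ Icc 1 (M / r), (1 : ℝ) / t ≤ ℓ := by
        rcases Nat.eq_zero_or_pos (M / r) with h0 | h0
        · rw [h0]
          simp
          have := Real.log_nonneg (show (1 : ℝ) ≤ 2 * M by linarith)
          linarith
        · refine (harm _ h0).trans ?_
          have : Real.log ((M / r : ℕ) : ℝ) ≤ Real.log (2 * M) := by
            apply Real.log_le_log (by exact_mod_cast h0)
            have : ((M / r : ℕ) : ℝ) ≤ M := by exact_mod_cast Nat.div_le_self _ _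
            linarith
          linarith
      have hK := KK_nonneg hN0 (γ - a / r)
      calc 2 / (r : ℝ) * KK N (γ - a / r) * ∑ t ∈ Icc 1 (M / r), (1 : ℝ) / t
          ≤ 2 / r * KK N (γ - a / r) * ℓ := by gcongr
        _ = _ := by ring
    · rw [if_neg hrq]
      apply le_of_eq
      apply sum_eq_zero
      intro m hm
      exfalso
      rw [mem_filter, mem_filter, not_not] at hm
      exact hrq (Nat.Coprime.coprime_dvd_left hm.2 hm.1.2)

/-- the square, for one frequency -/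
lemma one_sq {q N M : ℕ} {γ ℓ : ℝ} (hM : 1 ≤ M) (hℓ : 1 + Real.log (2 * M) ≤ ℓ) :
    GG0 q N M γ ^ 2 ≤ 127008 * ((M : ℝ) ^ 2 * ℓ ^ 2) + 8 * ℓ ^ 2 *
      ∑ r ∈ (Icc 1 (2 * M)).filter (fun r => r.Coprime q), (1 / (r : ℝ) ^ 2) *
        ∑ c ∈ range r, KK N (γ - c / r) ^ 2 := by
  classical
  have hN0 : (0 : ℝ) ≤ N := Nat.cast_nonneg _
  have hM1 : (1 : ℝ) ≤ M := by exact_mod_cast hM
  have hℓ0 : 0 ≤ ℓ := by
    have := Real.log_nonneg (show (1 : ℝ) ≤ 2 * M by linarith)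
    linarith
  obtain ⟨j, h, hj, hcop, hx⟩ := Pool.Agent.Y614.GJ.Core.dirich γ (n := 2 * M) (by omega)
  obtain ⟨r, hr⟩ : ∃ r, r = j + 1 := ⟨_, rfl⟩
  rw [← hr] at hj hcop hx
  have hr1 : 1 ≤ r := by omega
  have hr0 : (0 : ℝ) < r := by exact_mod_cast hr1
  have h1 := one_freq (q := q) (N := N) hr1 hj hcop hM (γ := γ) (by
    refine hx.trans ?_
    apply one_div_le_one_div_of_le (by positivity)
    push_cast
    nlinarith) hℓ
  have hG0 : 0 ≤ GG0 q N M γ := sum_nonneg fun m _ => KK_nonneg (by positivity) _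
  have hterm : ∀ r ∈ (Icc 1 (2 * M)).filter (fun r => r.Coprime q), 0 ≤ (1 / (r : ℝ) ^ 2) *
        ∑ c ∈ range r, KK N (γ - c / r) ^ 2 := fun r _ =>
    mul_nonneg (by positivity) (sum_nonneg fun _ _ => sq_nonneg _)
  by_cases hrq : r.Coprime q
  · rw [if_pos hrq] at h1
    have h2 : KK N (γ - h / r) ^ 2 ≤ ∑ c ∈ range r, KK N (γ - c / r) ^ 2 := by
      obtain ⟨c, hc⟩ : ∃ c : ℕ, (c : ℤ) = h % r := ⟨(h % r).toNat, Int.toNat_of_nonneg (Int.emod_nonneg _ (by omega))⟩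
      have hcr : c < r := by
        have := Int.emod_lt_of_pos h (show (0 : ℤ) < r by omega)
        omega
      have e : γ - h / r = (γ - c / r) + ((-(h / (r : ℤ)) : ℤ) : ℝ) := by
        have e1 : (h : ℝ) = c + r * ((h / (r : ℤ) : ℤ) : ℝ) := by
          have := Int.emod_add_mul_ediv h r
          rw [← hc] at this
          exact_mod_cast this.symm
        rw [e1]
        push_cast
        field_simp
        have e2 : ((((c : ℤ) + (r : ℤ) * (h / (r : ℤ))) / (r : ℤ) : ℤ) : ℝ) = ((h / (r : ℤ) : ℤ) : ℝ) := by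
          rw [hc, Int.emod_add_mul_ediv]
        ring
      rw [e, KK_add_int]
      exact single_le_sum (f := fun c : ℕ => KK N (γ - c / r) ^ 2) (fun _ _ => sq_nonneg _) (mem_range.2 hcr)
    have h3 : (1 / (r : ℝ) ^ 2) * ∑ c ∈ range r, KK N (γ - c / r) ^ 2 ≤
        ∑ r ∈ (Icc 1 (2 * M)).filter (fun r => r.Coprime q), (1 / (r : ℝ) ^ 2) *
        ∑ c ∈ range r, KK N (γ - c / r) ^ 2 :=
      single_le_sum (f := fun r : ℕ => (1 / (r : ℝ) ^ 2) * ∑ c ∈ range r, KK N (γ - c / r) ^ 2) hterm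
        (mem_filter.2 ⟨mem_Icc.2 ⟨hr1, hj⟩, hrq⟩)
    have h4 : GG0 q N M γ ^ 2 ≤ (252 * (M * ℓ) + (2 * ℓ / r) * KK N (γ - h / r)) ^ 2 :=
      pow_le_pow_left₀ hG0 h1 2
    have h5 : (252 * (M * ℓ) + (2 * ℓ / r) * KK N (γ - h / r)) ^ 2 ≤
        2 * (252 * (M * ℓ)) ^ 2 + 2 * ((2 * ℓ / r) * KK N (γ - h / r)) ^ 2 := by
      nlinarith [sq_nonneg (252 * (M * ℓ) - (2 * ℓ / r) * KK N (γ - h / r))]
    have h6 : 2 * ((2 * ℓ / r) * KK N (γ - h / r)) ^ 2 = 8 * ℓ ^ 2 * ((1 / (r : ℝ) ^ 2) * KK N (γ - h / r) ^ 2) := by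
      field_simp
      ring
    have h7 : 8 * ℓ ^ 2 * ((1 / (r : ℝ) ^ 2) * KK N (γ - h / r) ^ 2) ≤ 8 * ℓ ^ 2 *
      ∑ r ∈ (Icc 1 (2 * M)).filter (fun r => r.Coprime q), (1 / (r : ℝ) ^ 2) *
        ∑ c ∈ range r, KK N (γ - c / r) ^ 2 := by
      apply mul_le_mul_of_nonneg_left _ (by positivity)
      refine le_trans ?_ h3
      gcongr
    have h8 : 2 * (252 * (M * ℓ)) ^ 2 = 127008 * ((M : ℝ) ^ 2 * ℓ ^ 2) := by ring
    linarith
  · rw [if_neg hrq, add_zero] at h1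
    have h4 : GG0 q N M γ ^ 2 ≤ (252 * (M * ℓ)) ^ 2 := pow_le_pow_left₀ hG0 h1 2
    have h8 : (252 * (M * ℓ)) ^ 2 ≤ 127008 * ((M : ℝ) ^ 2 * ℓ ^ 2) := by
      have : (252 * (M * ℓ)) ^ 2 = 63504 * ((M : ℝ) ^ 2 * ℓ ^ 2) := by ring
      rw [this]
      have : 0 ≤ (M : ℝ) ^ 2 * ℓ ^ 2 := by positivity
      linarith
    have h9 : 0 ≤ 8 * ℓ ^ 2 * ∑ r ∈ (Icc 1 (2 * M)).filter (fun r => r.Coprime q), (1 / (r : ℝ) ^ 2) *
        ∑ c ∈ range r, KK N (γ - c / r) ^ 2 := mul_nonneg (by positivity) (sum_nonneg hterm)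
    linarith

end Pool.Agent.R460.GH
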