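import Pool.Agent.R460.GH.Ka

set_option autoImplicit false

/-! The majorant `KK`: sums of squares over many frequencies. -/

namespace Pool.Agent.R460.GH

open Finset
open Pool.Agent.H807R2.Dav

/-- from pairs of residues to one residue -/
lemma crt_sum {q r : ℕ} (hq : 1 ≤ q) (hr : 1 ≤ r) (hcop : r.Coprime q) (g : ℝ → ℝ) (hg : ∀ x, 0 ≤ g x)
    (hper : ∀ (x : ℝ) (n : ℤ), g (x + n) = g x) (β : ℝ) (J : Finset ℕ) (hJ : J ⊆ range q) (U : Finset ℕ)
    (hU : ∀ j ∈ J, ∀ u < r * q, u ≡ j * r [MOD q] → u ∈ U) :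
    ∑ j ∈ J, ∑ c ∈ range r, g (β + j / q - c / r) ≤ ∑ u ∈ U, g (β + u / ((r * q : ℕ) : ℝ)) := by
  classical
  have hq0 : (0 : ℝ) < q := by exact_mod_cast hq
  have hr0 : (0 : ℝ) < r := by exact_mod_cast hr
  have hrq : 0 < r * q := Nat.mul_pos (by omega) (by omega)
  obtain ⟨f, hf⟩ : ∃ f : ℕ × ℕ → ℕ, f = fun x => (x.1 * r + (r - x.2) * q) % (r * q) := ⟨_, rfl⟩
  have e1 : ∀ j ∈ J, ∀ c ∈ range r, g (β + j / q - c / r) = g (β + (f (j, c) : ℕ) / ((r * q : ℕ) : ℝ)) := by
    intro j hj c hc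
    rw [mem_range] at hc
    obtain ⟨Q, hQ⟩ : ∃ Q : ℕ, Q = (j * r + (r - c) * q) / (r * q) := ⟨_, rfl⟩
    have k1 : ((j * r + (r - c) * q : ℕ) : ℝ) = (r * q) * (Q : ℝ) + (f (j, c) : ℕ) := by
      rw [hf, hQ]
      have := Nat.div_add_mod (j * r + (r - c) * q) (r * q)
      exact_mod_cast this.symm
    have k2 : ((j * r + (r - c) * q : ℕ) : ℝ) = j * r + (r - c) * q := by
      push_cast [Nat.cast_sub hc.le]
      ring
    have k3 : β + (f (j, c) : ℕ) / ((r * q : ℕ) : ℝ) = (β + j / q - c / r) + ((1 - (Q : ℤ) : ℤ) : ℝ) := by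
      have k4 : ((f (j, c) : ℕ) : ℝ) = (j * r + (r - c) * q) - (r * q) * (Q : ℝ) := by
        linarith
      rw [k4]
      push_cast
      field_simp
      ring
    rw [k3, hper]
  rw [sum_congr rfl fun j hj => sum_congr rfl fun c hc => e1 j hj c hc, ← sum_product']
  have hinj : Set.InjOn f ((J ×ˢ range r : Finset (ℕ × ℕ)) : Set (ℕ × ℕ)) := by
    rintro ⟨j, c⟩ h1 ⟨j', c'⟩ h2 h
    rw [mem_coe, mem_product, mem_range] at h1 h2
    simp only at h1 h2
    have hj := mem_range.1 (hJ h1.1)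
    have hj' := mem_range.1 (hJ h2.1)
    have h3 : j * r + (r - c) * q ≡ j' * r + (r - c') * q [MOD r * q] := by
      rw [hf] at h
      exact h
    have h4 : j * r ≡ j' * r [MOD q] := by
      have h5 : j * r + (r - c) * q ≡ j' * r + (r - c') * q [MOD q] := h3.of_mul_left r
      have e1 : j * r + (r - c) * q ≡ j * r [MOD q] := by
        unfold Nat.ModEq
        rw [Nat.add_mul_mod_self_right]
      have e2 : j' * r + (r - c') * q ≡ j' * r [MOD q] := by
        unfold Nat.ModEq
        rw [Nat.add_mul_mod_self_right]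
      exact (e1.symm.trans h5).trans e2
    have h6 : j ≡ j' [MOD q] := Nat.ModEq.cancel_right_of_coprime (by rw [Nat.gcd_comm]; exact hcop) h4
    have h7 : j = j' := by
      have := h6
      unfold Nat.ModEq at this
      rwa [Nat.mod_eq_of_lt hj, Nat.mod_eq_of_lt hj'] at this
    have h8 : (r - c) * q ≡ (r - c') * q [MOD r] := by
      have h5 : j * r + (r - c) * q ≡ j' * r + (r - c') * q [MOD r] := h3.of_mul_right q
      have e1 : j * r + (r - c) * q ≡ (r - c) * q [MOD r] := by
        unfold Nat.ModEq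
        rw [Nat.add_comm, Nat.add_mul_mod_self_right]
      have e2 : j' * r + (r - c') * q ≡ (r - c') * q [MOD r] := by
        unfold Nat.ModEq
        rw [Nat.add_comm, Nat.add_mul_mod_self_right]
      exact (e1.symm.trans h5).trans e2
    have h9 : r - c ≡ r - c' [MOD r] := Nat.ModEq.cancel_right_of_coprime hcop h8
    have h10 : c = c' := by
      unfold Nat.ModEq at h9
      by_cases hc0 : c = 0
      · by_cases hc0' : c' = 0
        · rw [hc0, hc0']
        · exfalso
          rw [hc0, Nat.sub_zero, Nat.mod_self, Nat.mod_eq_of_lt (by omega)] at h9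
          omega
      · by_cases hc0' : c' = 0
        · exfalso
          rw [hc0', Nat.sub_zero, Nat.mod_self, Nat.mod_eq_of_lt (by omega)] at h9
          omega
        · rw [Nat.mod_eq_of_lt (by omega), Nat.mod_eq_of_lt (by omega)] at h9
          omega
    rw [h7, h10]
  rw [← sum_image (f := fun u : ℕ => g (β + u / ((r * q : ℕ) : ℝ))) hinj]
  apply sum_le_sum_of_subset_of_nonneg
  · intro u hu
    rw [mem_image] at hu
    obtain ⟨⟨j, c⟩, h1, rfl⟩ := hu
    rw [mem_product] at h1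
    refine hU j h1.1 _ ?_ ?_
    · rw [hf]
      exact Nat.mod_lt _ hrq
    · rw [hf]
      simp only
      have e1 : (j * r + (r - c) * q) % (r * q) ≡ j * r + (r - c) * q [MOD q] := by
        have : (j * r + (r - c) * q) % (r * q) ≡ j * r + (r - c) * q [MOD r * q] := Nat.mod_modEq _ _
        exact this.of_mul_left r
      have e2 : j * r + (r - c) * q ≡ j * r [MOD q] := by
        unfold Nat.ModEq
        rw [Nat.add_mul_mod_self_right]
      exact e1.trans e2
  · intro u _ _
    exact hg _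

/-- squares over all fractions with denominator `n` -/
lemma sq_min {n N : ℕ} (hn : 1 ≤ n) (hN : 1 ≤ N) {ℓ : ℝ} (hℓ : 1 + Real.log n ≤ ℓ) (β : ℝ) :
    ∑ u ∈ range n, KK N (β + u / n) ^ 2 ≤ 52 * (n * KK ((N : ℝ) / n) (n * β)) ^ 2 + 36 * (N * n * ℓ) := by
  have hn0 : (0 : ℝ) < n := by exact_mod_cast hn
  have hN0 : (0 : ℝ) < N := by exact_mod_cast hN
  have hln : 0 ≤ Real.log n := Real.log_natCast_nonneg n
  obtain ⟨D, hD⟩ : ∃ D, D = dd (n * β) / n := ⟨_, rfl⟩
  have hD0 : 0 ≤ D := by rw [hD]; exact div_nonneg (dd_nonneg _) hn0.le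
  obtain ⟨M', hM'⟩ : ∃ M', M' = (N : ℝ) / (1 + N * D) := ⟨_, rfl⟩
  have hM'0 : 0 ≤ M' := by rw [hM']; positivity
  have hM'N : M' ≤ N := by
    rw [hM', div_le_iff₀ (by positivity)]
    have : 0 ≤ (N : ℝ) * (N * D) := by positivity
    linarith
  have hH : (n : ℝ) * KK ((N : ℝ) / n) (n * β) = 3 * M' := by
    have : dd (n * β) = n * D := by rw [hD]; field_simp
    unfold KK
    rw [this, hM']
    have h1 : (N : ℝ) / n * (n * D) = N * D := by field_simp
    rw [h1]
    field_simp
  rw [hH]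
  have hdd : ∀ u : ℕ, D ≤ dd (β + u / n) := by
    intro u
    have h1 := dd_nmul n (β + u / n)
    have e : (n : ℝ) * (β + u / n) = n * β + ((u : ℤ) : ℝ) := by push_cast; field_simp
    rw [e, dd_add_int] at h1
    rw [hD, div_le_iff₀ hn0]
    linarith
  have k1 : ∀ u : ℕ, KK N (β + u / n) ≤ 3 * M' := by
    intro u
    have h1 := hdd u
    have h2 : (N : ℝ) * D ≤ N * dd (β + u / n) := by gcongr
    rw [hM']
    unfold KK
    have h3 : 3 * ((N : ℝ) / (1 + N * D)) = 3 * N / (1 + N * D) := by ring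
    rw [h3]
    apply div_le_div_of_nonneg_left (by positivity) (by positivity)
    linarith
  have k2 : ∀ u : ℕ, KK N (β + u / n) ≤ 2 * KK M' (β + u / n) := by
    intro u
    have h1 := hdd u
    obtain ⟨d, hd⟩ : ∃ d, d = dd (β + u / n) := ⟨_, rfl⟩
    unfold KK
    rw [← hd] at h1 ⊢
    have hd0 : 0 ≤ d := hD0.trans h1
    have e1 : 3 * M' / (1 + M' * d) = 3 * N / (1 + N * D + N * d) := by
      rw [hM']
      have h2 : (1 + (N : ℝ) * D) ≠ 0 := by positivity
      have h3 : (1 + (N : ℝ) * D + N * d) ≠ 0 := by positivity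
      have h4 : (1 + (N : ℝ) / (1 + N * D) * d) ≠ 0 := by positivity
      rw [div_eq_div_iff h4 h3]
      field_simp
    rw [e1, mul_div_assoc', div_le_div_iff₀ (by positivity) (by positivity)]
    have h2 : (N : ℝ) * D ≤ N * d := by gcongr
    have h3 : (3 * (N : ℝ)) * (1 + N * D + N * d) ≤ (3 * N) * (2 * (1 + N * d)) := by
      apply mul_le_mul_of_nonneg_left _ (by positivity)
      linarith
    linarith
  have h5 := vino (q := n) hn (a := 1) isCoprime_one_left (α := 1 / n) (by simp) (M := M') hM'0 β n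
  have h6 : ∑ u ∈ range n, KK M' (β + u / n) ≤ 78 * M' + 6 * (n * ℓ) := by
    have e1 : ∑ u ∈ range n, KK M' (β + u / n) = ∑ j ∈ range n, KK M' (β + j * (1 / n)) := by
      refine sum_congr rfl fun j _ => ?_
      rw [mul_one_div]
    rw [e1]
    refine h5.trans ?_
    rw [div_self hn0.ne']
    have : (n : ℝ) * (1 + Real.log n) ≤ n * ℓ := by gcongr
    linarith
  have h7 : ∑ u ∈ range n, KK N (β + u / n) ^ 2 ≤ (3 * M') * (2 * ∑ u ∈ range n, KK M' (β + u / n)) := by
    rw [mul_sum, mul_sum]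
    refine sum_le_sum fun u _ => ?_
    rw [sq]
    exact mul_le_mul (k1 u) (k2 u) (KK_nonneg hN0.le _) (by positivity)
  refine h7.trans ?_
  have hnl : 0 ≤ (n : ℝ) * ℓ := by
    have : 0 ≤ ℓ := by linarith
    positivity
  calc (3 * M') * (2 * ∑ u ∈ range n, KK M' (β + u / n)) ≤ (3 * M') * (2 * (78 * M' + 6 * (n * ℓ))) := by gcongr
    _ = 52 * (3 * M') ^ 2 + 36 * (M' * (n * ℓ)) := by ring
    _ ≤ 52 * (3 * M') ^ 2 + 36 * (N * (n * ℓ)) := by gcongr
    _ = _ := by ring

/-- the same on the major arcs, without the term `u = 0` -/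
lemma sq_maj {n N : ℕ} (hn : 1 ≤ n) (hN : 1 ≤ N) {ℓ T η : ℝ} (hℓ : 1 + Real.log n ≤ ℓ) (hT : 1 ≤ T)
    (hη : |η| ≤ T / N) :
    ∑ u ∈ (range n).erase 0, KK N (η + u / n) ^ 2 ≤ 1000 * (T * (N * n * ℓ)) := by
  have hn0 : (0 : ℝ) < n := by exact_mod_cast hn
  have hN0 : (0 : ℝ) < N := by exact_mod_cast hN
  have hln : 0 ≤ Real.log n := Real.log_natCast_nonneg n
  have hℓ1 : 1 ≤ ℓ := by linarith
  have hπ := Real.pi_lt_d2
  have hπ0 := Real.pi_pos
  have hπ3 := Real.pi_gt_three
  have hvin : ∀ M' : ℝ, 0 ≤ M' → ∑ u ∈ (range n).erase 0, KK M' (η + u / n) ≤ 78 * M' + 6 * (n * ℓ) := by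
    intro M' hM'
    have h5 := vino (q := n) hn (a := 1) isCoprime_one_left (α := 1 / n) (by simp) (M := M') hM' η n
    refine (sum_le_sum_of_subset_of_nonneg (erase_subset 0 (range n)) fun u _ _ => KK_nonneg hM' _).trans ?_
    have e1 : ∑ u ∈ range n, KK M' (η + u / n) = ∑ j ∈ range n, KK M' (η + j * (1 / n)) := by
      refine sum_congr rfl fun j _ => ?_
      rw [mul_one_div]
    rw [e1]
    refine h5.trans ?_
    rw [div_self hn0.ne']
    have : (n : ℝ) * (1 + Real.log n) ≤ n * ℓ := by gcongr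
    linarith
  by_cases hcase : Real.pi * T * n ≤ N
  · have hη2 : 2 * Real.pi * |η| ≤ 2 / n := by
      calc 2 * Real.pi * |η| ≤ 2 * Real.pi * (T / N) := by gcongr
        _ = 2 * (Real.pi * T / N) := by ring
        _ ≤ 2 * (1 / n) := by
            apply mul_le_mul_of_nonneg_left _ (by norm_num)
            rw [div_le_div_iff₀ hN0 hn0]
            linarith
        _ = 2 / n := by ring
    have hd : ∀ u ∈ (range n).erase 0, 2 / (n : ℝ) ≤ dd (η + u / n) := by
      intro u hu
      rw [mem_erase, mem_range] at hu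
      have h1 := dd_ge_dist (x := (u : ℝ) / n) (δ := 1 / n) (by
        intro m
        have e : (u : ℝ) / n - m = ((u : ℤ) - m * n : ℤ) / n := by push_cast; field_simp
        rw [e, abs_div, abs_of_pos hn0]
        apply div_le_div_of_nonneg_right _ hn0.le
        have hne : (u : ℤ) - m * n ≠ 0 := by
          intro h
          have h2 : (n : ℤ) ∣ (u : ℤ) := ⟨m, by linarith⟩
          have h3 := Nat.le_of_dvd (by omega) (by exact_mod_cast h2 : n ∣ u)
          omega
        have := Int.one_le_abs hne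
        exact_mod_cast this)
      have h2 := dd_add_ge ((u : ℝ) / n) η
      rw [add_comm η]
      have e : 4 * (1 / (n : ℝ)) = 2 / n + 2 / n := by ring
      linarith
    have k1 : ∀ u ∈ (range n).erase 0, KK N (η + u / n) ^ 2 ≤ (3 / 2 * n) * (3 / 2 * KK n (η + u / n)) := by
      intro u hu
      have h1 := hd u hu
      rw [sq]
      refine mul_le_mul ?_ (KK_chg hN0.le hn0 h1) (KK_nonneg hN0.le _) (by positivity)
      refine (KK_le' hN0.le (by positivity) h1).trans (le_of_eq ?_)
      field_simp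
    refine (sum_le_sum k1).trans ?_
    rw [← mul_sum, ← mul_sum]
    have h2 := hvin n hn0.le
    have h3 : (n : ℝ) ≤ n * ℓ := le_mul_of_one_le_right hn0.le hℓ1
    calc 3 / 2 * (n : ℝ) * (3 / 2 * ∑ u ∈ (range n).erase 0, KK n (η + u / n))
        ≤ 3 / 2 * n * (3 / 2 * (78 * (n * ℓ) + 6 * (n * ℓ))) := by
          gcongr
          linarith
      _ = 189 * (n * (n * ℓ)) := by ring
      _ ≤ 189 * ((T * N) * (n * ℓ)) := by
          have : (n : ℝ) ≤ T * N := by
            have h4 : (1 : ℝ) * n ≤ Real.pi * T * n := by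
              apply mul_le_mul_of_nonneg_right _ hn0.le
              nlinarith
            have h5 : (N : ℝ) ≤ T * N := le_mul_of_one_le_left hN0.le hT
            linarith
          gcongr
      _ ≤ 1000 * (T * (N * n * ℓ)) := by
          have : 0 ≤ T * (N * n * ℓ) := by positivity
          nlinarith
  · rw [not_le] at hcase
    have k1 : ∀ u ∈ (range n).erase 0, KK N (η + u / n) ^ 2 ≤ (3 * N) * KK N (η + u / n) := by
      intro u _
      rw [sq]
      exact mul_le_mul_of_nonneg_right (KK_le hN0.le _) (KK_nonneg hN0.le _)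
    refine (sum_le_sum k1).trans ?_
    rw [← mul_sum]
    have h2 := hvin N hN0.le
    calc 3 * (N : ℝ) * ∑ u ∈ (range n).erase 0, KK N (η + u / n) ≤ 3 * N * (78 * N + 6 * (n * ℓ)) := by gcongr
      _ ≤ 3 * N * (78 * (3.15 * T * n * ℓ) + 6 * (T * n * ℓ)) := by
          have h4 : (N : ℝ) ≤ 3.15 * T * n * ℓ := by
            calc (N : ℝ) ≤ Real.pi * T * n := hcase.le
              _ ≤ 3.15 * T * n := by gcongr
              _ ≤ _ := le_mul_of_one_le_right (by positivity) hℓ1
          have h5 : (n : ℝ) * ℓ ≤ T * n * ℓ := by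
            have : (1 : ℝ) * (n * ℓ) ≤ T * (n * ℓ) := mul_le_mul_of_nonneg_right hT (by positivity)
            linarith
          gcongr
      _ = 755.1 * (T * (N * n * ℓ)) := by ring
      _ ≤ _ := by
          have : 0 ≤ T * (N * n * ℓ) := by positivity
          nlinarith

end Pool.Agent.R460.GH
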