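import Pool.Agent.R460.GH.Kb

set_option autoImplicit false

/-! The majorant `KK`: the total mean squares. -/

namespace Pool.Agent.R460.GH

open Finset
open Pool.Agent.H807R2.Dav
open Pool.Agent.H373R2.T7 (KK_mono gap_small)
open Pool.Agent.H373R2.T3 (dyadic_sum)

/-- sums of squares over multiples -/
theorem sq_lin {k : ℕ} (hk : 1 ≤ k) {a : ℤ} (hcop : IsCoprime a (k : ℤ)) {α : ℝ}
    (hα : |α - a / k| ≤ 1 / (k : ℝ) ^ 2) {Y : ℝ} (hY : 0 ≤ Y) {D : ℕ} (hD : 1 ≤ D) {ℓ : ℝ}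
    (hℓ : 1 + Real.log k ≤ ℓ) (hJℓ : (Nat.log 2 D : ℝ) + 1 ≤ ℓ) :
    ∑ d ∈ Icc 1 D, KK (Y / d) (d * α) ^ 2 ≤ 4000 * (ℓ ^ 2 * (Y ^ 2 / (k : ℝ) ^ 2 + Y + (k : ℝ) ^ 2)) := by
  have hk0 : (0 : ℝ) < k := by exact_mod_cast hk
  have hk1 : (1 : ℝ) ≤ k := by exact_mod_cast hk
  have hlk : 0 ≤ Real.log k := Real.log_nonneg hk1
  have hℓ1 : 1 ≤ ℓ := by linarith
  obtain ⟨J, hJ⟩ : ∃ J, J = Nat.log 2 D + 1 := ⟨_, rfl⟩
  have hJ2 : D < 2 ^ J := by rw [hJ]; exact Nat.lt_pow_succ_log_self (by norm_num) _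
  have hJr : (J : ℝ) ≤ ℓ := by rw [hJ]; push_cast; exact hJℓ
  have hsplit : ∑ d ∈ Icc 1 D, KK (Y / d) (d * α) ^ 2 =
      ∑ d ∈ (Icc 1 D).filter (fun d => 2 * d ≤ k), KK (Y / d) (d * α) ^ 2 +
      ∑ d ∈ (Icc 1 D).filter (fun d => ¬ 2 * d ≤ k), KK (Y / d) (d * α) ^ 2 :=
    (sum_filter_add_sum_filter_not _ _ _).symm
  rw [hsplit]
  have hA : ∑ d ∈ (Icc 1 D).filter (fun d => 2 * d ≤ k), KK (Y / d) (d * α) ^ 2 ≤ 567 * ((k : ℝ) ^ 2 * ℓ) := by
    have h1 : ∀ d ∈ (Icc 1 D).filter (fun d => 2 * d ≤ k), KK (Y / d) (d * α) ^ 2 ≤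
        (27 / 4 * k) * KK k (0 + d * α) := by
      intro d hd
      rw [mem_filter, mem_Icc] at hd
      have h2 := KK_chg (M := Y / d) (by positivity) hk0 (gap_small hcop hα d hd.1.1 hd.2)
      rw [zero_add]
      have h3 := KK_nonneg (M := Y / d) (by positivity) (d * α)
      have h4 := KK_nonneg hk0.le (d * α)
      have h5 := KK_le hk0.le (d * α)
      calc KK (Y / d) (d * α) ^ 2 ≤ (3 / 2 * KK k (d * α)) ^ 2 := pow_le_pow_left₀ h3 h2 2
        _ = 9 / 4 * KK k (d * α) * KK k (d * α) := by ring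
        _ ≤ 9 / 4 * (3 * k) * KK k (d * α) := by gcongr
        _ = _ := by ring
    refine (sum_le_sum h1).trans ?_
    rw [← mul_sum]
    have h2 : ∑ d ∈ (Icc 1 D).filter (fun d => 2 * d ≤ k), KK k (0 + d * α) ≤ ∑ d ∈ range k, KK k (0 + d * α) := by
      apply sum_le_sum_of_subset_of_nonneg
      · intro d hd
        rw [mem_filter, mem_Icc] at hd
        rw [mem_range]; omega
      · intro d _ _; exact KK_nonneg hk0.le _
    have h3 := vino hk hcop hα (M := (k : ℝ)) hk0.le 0 k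
    rw [div_self hk0.ne'] at h3
    have h4 : ((1 : ℝ) + 1) * (39 * k + 3 * k * (1 + Real.log k)) ≤ 84 * (k * ℓ) := by
      have h5 : (k : ℝ) ≤ k * ℓ := le_mul_of_one_le_right hk0.le hℓ1
      have h6 : (k : ℝ) * (1 + Real.log k) ≤ k * ℓ := by gcongr
      linarith
    calc 27 / 4 * (k : ℝ) * ∑ d ∈ (Icc 1 D).filter (fun d => 2 * d ≤ k), KK k (0 + d * α)
        ≤ 27 / 4 * k * (84 * (k * ℓ)) := by
          gcongr
          linarith
      _ = _ := by ring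
  have hB : ∑ d ∈ (Icc 1 D).filter (fun d => ¬ 2 * d ≤ k), KK (Y / d) (d * α) ^ 2 ≤
      9 * (Y ^ 2 / (k : ℝ) ^ 2) + J * (3276 * (Y ^ 2 / (k : ℝ) ^ 2) + 63 * (Y * ℓ)) := by
    obtain ⟨g, hg⟩ : ∃ g : ℕ → ℝ, g = fun d => if 2 * d ≤ k then 0 else KK (Y / d) (d * α) ^ 2 := ⟨_, rfl⟩
    have hg0 : ∀ d, 0 ≤ g d := by
      intro d; rw [hg]; simp only; split_ifs
      · exact le_rfl
      · exact sq_nonneg _
    have e1 : ∑ d ∈ (Icc 1 D).filter (fun d => ¬ 2 * d ≤ k), KK (Y / d) (d * α) ^ 2 = ∑ d ∈ Icc 1 D, g d := by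
      rw [sum_filter]
      apply sum_congr rfl
      intro d _
      rw [hg]
      simp only
      by_cases h : 2 * d ≤ k
      · rw [if_neg (by simpa using h), if_pos h]
      · rw [if_pos h, if_neg h]
    rw [e1]
    have h1 : ∑ d ∈ Icc 1 D, g d ≤ g 1 + ∑ d ∈ Ioc 1 (2 ^ J), g d := by
      have h2 : Icc 1 D ⊆ insert 1 (Ioc 1 (2 ^ J)) := by
        intro d hd
        rw [mem_Icc] at hd
        rw [mem_insert, mem_Ioc]
        omega
      refine (sum_le_sum_of_subset_of_nonneg h2 (fun d _ _ => hg0 d)).trans ?_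
      rw [sum_insert (by simp)]
    refine h1.trans (add_le_add ?_ ?_)
    · rw [hg]
      simp only
      split_ifs with h
      · positivity
      · have hk' : k = 1 := by omega
        have h2 := KK_le (M := Y / (1 : ℕ)) (by positivity) ((1 : ℕ) * α)
        have h3 := KK_nonneg (M := Y / (1 : ℕ)) (by positivity) ((1 : ℕ) * α)
        rw [hk']
        refine (pow_le_pow_left₀ h3 h2 2).trans (le_of_eq ?_)
        push_cast
        ring
    · rw [dyadic_sum]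
      have h2 : ∀ i ∈ range J, ∑ d ∈ Ioc (2 ^ i) (2 * 2 ^ i), g d ≤
          3276 * (Y ^ 2 / (k : ℝ) ^ 2) + 63 * (Y * ℓ) := by
        intro i hi
        rw [mem_range] at hi
        obtain ⟨P, hP⟩ : ∃ P : ℕ, P = 2 ^ i := ⟨_, rfl⟩
        rw [← hP]
        have hP1 : 1 ≤ P := by rw [hP]; exact Nat.one_le_two_pow
        have hP0 : (1 : ℝ) ≤ P := by exact_mod_cast hP1
        by_cases h3 : 4 * P ≤ k
        · have h4 : ∑ d ∈ Ioc P (2 * P), g d = 0 := by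
            apply sum_eq_zero
            intro d hd
            rw [mem_Ioc] at hd
            rw [hg]
            simp only
            rw [if_pos (by omega)]
          rw [h4]; positivity
        · have h4 : ∑ d ∈ Ioc P (2 * P), g d ≤ (3 * (Y / P)) * ∑ d ∈ range (2 * P + 1), KK (Y / P) (0 + d * α) := by
            rw [mul_sum]
            refine le_trans ?_ (sum_le_sum_of_subset_of_nonneg (s := Ioc P (2 * P)) ?_ ?_)
            · apply sum_le_sum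
              intro d hd
              rw [mem_Ioc] at hd
              have hd0 : (P : ℝ) ≤ d := by exact_mod_cast hd.1.le
              rw [hg]
              simp only
              have hKP := KK_nonneg (M := Y / P) (by positivity) (0 + d * α)
              split_ifs
              · positivity
              · rw [zero_add]
                have h5 : KK (Y / d) (d * α) ≤ KK (Y / P) (d * α) :=
                  KK_mono (by positivity) (div_le_div_of_nonneg_left hY (by linarith) hd0) _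
                have h6 := KK_nonneg (M := Y / d) (by positivity) (d * α)
                have h7 := KK_le (M := Y / P) (by positivity) (d * α)
                have h8 := KK_nonneg (M := Y / P) (by positivity) (d * α)
                calc KK (Y / d) (d * α) ^ 2 ≤ KK (Y / P) (d * α) ^ 2 := pow_le_pow_left₀ h6 h5 2
                  _ = KK (Y / P) (d * α) * KK (Y / P) (d * α) := sq _
                  _ ≤ _ := by gcongr
            · intro d hd
              rw [mem_Ioc] at hd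
              rw [mem_range]; omega
            · intro d _ _
              have := KK_nonneg (M := Y / P) (by positivity) (0 + d * α)
              positivity
          refine h4.trans ?_
          have h5 : (((2 * P + 1 : ℕ) : ℝ) / k + 1) ≤ 7 * P / k := by
            rw [div_add_one hk0.ne', div_le_div_iff_of_pos_right hk0]
            push_cast
            have : (k : ℝ) ≤ 4 * P := by exact_mod_cast (by omega : k ≤ 4 * P)
            linarith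
          have h6 : (1 : ℝ) / P ≤ 4 / k := by
            rw [div_le_div_iff₀ (by positivity) hk0]
            have : (k : ℝ) ≤ 4 * P := by exact_mod_cast (by omega : k ≤ 4 * P)
            linarith
          calc 3 * (Y / P) * ∑ d ∈ range (2 * P + 1), KK (Y / P) (0 + d * α)
              ≤ 3 * (Y / P) * ((((2 * P + 1 : ℕ) : ℝ) / k + 1) * (39 * (Y / P) + 3 * k * (1 + Real.log k))) := by
                gcongr
                exact vino hk hcop hα (M := Y / P) (by positivity) 0 (2 * P + 1)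
            _ ≤ 3 * (Y / P) * ((7 * P / k) * (39 * (Y / P) + 3 * k * ℓ)) := by
                gcongr
            _ = 819 * (Y ^ 2 / k) * (1 / P) + 63 * (Y * ℓ) := by
                field_simp; ring
            _ ≤ 819 * (Y ^ 2 / k) * (4 / k) + 63 * (Y * ℓ) := by
                gcongr
            _ = _ := by
                field_simp; ring
      refine (sum_le_sum h2).trans ?_
      rw [sum_const, card_range, nsmul_eq_mul]
  have hQ : 0 ≤ Y ^ 2 / (k : ℝ) ^ 2 := by positivity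
  have hℓ2 : ℓ ≤ ℓ ^ 2 := by nlinarith
  have t1 : (k : ℝ) ^ 2 * ℓ ≤ ℓ ^ 2 * (k : ℝ) ^ 2 := by
    rw [mul_comm]
    exact mul_le_mul_of_nonneg_right hℓ2 (by positivity)
  have t2 : Y ^ 2 / (k : ℝ) ^ 2 ≤ ℓ ^ 2 * (Y ^ 2 / (k : ℝ) ^ 2) := le_mul_of_one_le_left hQ (by nlinarith)
  have t3 : (J : ℝ) * (3276 * (Y ^ 2 / (k : ℝ) ^ 2) + 63 * (Y * ℓ)) ≤
      ℓ * (3276 * (Y ^ 2 / (k : ℝ) ^ 2) + 63 * (Y * ℓ)) := by
    apply mul_le_mul_of_nonneg_right hJr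
    positivity
  have t4 : ℓ * (Y ^ 2 / (k : ℝ) ^ 2) ≤ ℓ ^ 2 * (Y ^ 2 / (k : ℝ) ^ 2) := mul_le_mul_of_nonneg_right hℓ2 hQ
  have t5 : 0 ≤ ℓ ^ 2 * (k : ℝ) ^ 2 := by positivity
  have t6 : 0 ≤ ℓ ^ 2 * Y := by positivity
  have t7 : 0 ≤ ℓ ^ 2 * (Y ^ 2 / (k : ℝ) ^ 2) := by positivity
  nlinarith

lemma GG0_sum_sq {q N M : ℕ} (hq : 1 ≤ q) (hM : 1 ≤ M) {ℓ β : ℝ} (hℓ : 1 + Real.log (2 * M) ≤ ℓ)
    (J : Finset ℕ) (hJ : J ⊆ range q) (U : ℕ → Finset ℕ)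
    (hU : ∀ r, 1 ≤ r → r.Coprime q → ∀ j ∈ J, ∀ u < r * q, u ≡ j * r [MOD q] → u ∈ U r) :
    ∑ j ∈ J, GG0 q N M (β + j / q) ^ 2 ≤ 127008 * (q * (M : ℝ) ^ 2 * ℓ ^ 2) + 8 * ℓ ^ 2 *
      ∑ r ∈ (Icc 1 (2 * M)).filter (fun r => r.Coprime q), (1 / (r : ℝ) ^ 2) *
        ∑ u ∈ U r, KK N (β + u / ((r * q : ℕ) : ℝ)) ^ 2 := by
  classical
  have hcard : (J.card : ℝ) ≤ q := by
    have := card_le_card hJ
    rw [card_range] at this
    exact_mod_cast this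
  calc ∑ j ∈ J, GG0 q N M (β + j / q) ^ 2
      ≤ ∑ j ∈ J, (127008 * ((M : ℝ) ^ 2 * ℓ ^ 2) + 8 * ℓ ^ 2 *
      ∑ r ∈ (Icc 1 (2 * M)).filter (fun r => r.Coprime q), (1 / (r : ℝ) ^ 2) *
        ∑ c ∈ range r, KK N (β + j / q - c / r) ^ 2) := sum_le_sum fun j _ => one_sq hM hℓ
    _ = J.card * (127008 * ((M : ℝ) ^ 2 * ℓ ^ 2)) + 8 * ℓ ^ 2 *
      ∑ r ∈ (Icc 1 (2 * M)).filter (fun r => r.Coprime q), (1 / (r : ℝ) ^ 2) *
        ∑ j ∈ J, ∑ c ∈ range r, KK N (β + j / q - c / r) ^ 2 := by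
        rw [sum_add_distrib, sum_const, nsmul_eq_mul, ← mul_sum, sum_comm]
        congr 2
        refine sum_congr rfl fun r _ => ?_
        rw [mul_sum]
    _ ≤ q * (127008 * ((M : ℝ) ^ 2 * ℓ ^ 2)) + 8 * ℓ ^ 2 *
      ∑ r ∈ (Icc 1 (2 * M)).filter (fun r => r.Coprime q), (1 / (r : ℝ) ^ 2) *
        ∑ u ∈ U r, KK N (β + u / ((r * q : ℕ) : ℝ)) ^ 2 := by
        gcongr with r hr
        rw [mem_filter, mem_Icc] at hr
        exact crt_sum hq hr.1.1 hr.2 (fun x => KK N x ^ 2) (fun x => sq_nonneg _)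
          (fun x n => by simp only [KK_add_int]) β J hJ (U r) (hU r hr.1.1 hr.2)
    _ = _ := by ring

lemma sum_inv_filter {M q : ℕ} (hM : 1 ≤ M) {ℓ : ℝ} (hℓ : 1 + Real.log (2 * M) ≤ ℓ) :
    ∑ r ∈ (Icc 1 (2 * M)).filter (fun r => r.Coprime q), (1 : ℝ) / r ≤ ℓ := by
  refine (sum_le_sum_of_subset_of_nonneg (filter_subset _ _) fun r _ _ => by positivity).trans ?_
  refine (harm (2 * M) (by omega)).trans ?_
  push_cast
  exact hℓ

/-- minor arcs -/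
theorem tot_min {q N M k : ℕ} (hq : 1 ≤ q) (hN : 1 ≤ N) (hM : 1 ≤ M) (hk : 1 ≤ k) {h : ℤ}
    (hcop : IsCoprime h (k : ℤ)) {β : ℝ} (hβ : |q * β - h / k| ≤ 1 / (k : ℝ) ^ 2) {ℓ : ℝ}
    (hℓ1 : 1 + Real.log (2 * M) ≤ ℓ) (hℓ2 : 1 + Real.log (2 * M * q) ≤ ℓ) (hℓ3 : 1 + Real.log k ≤ ℓ)
    (hℓ4 : (Nat.log 2 (2 * M) : ℝ) + 1 ≤ ℓ) :
    ∑ j ∈ range q, GG0 q N M (β + j / q) ^ 2 ≤
      2000000 * (ℓ ^ 4 * (q * (M : ℝ) ^ 2 + (N : ℝ) ^ 2 / (k : ℝ) ^ 2 + q * N + (q * k : ℝ) ^ 2)) := by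
  have hq0 : (0 : ℝ) < q := by exact_mod_cast hq
  have hk0 : (0 : ℝ) < k := by exact_mod_cast hk
  have hN0 : (0 : ℝ) < N := by exact_mod_cast hN
  have hℓp : 1 ≤ ℓ := by
    have := Real.log_natCast_nonneg k
    linarith
  have h1 := GG0_sum_sq (N := N) (β := β) hq hM hℓ1 (range q) subset_rfl (fun r => range (r * q))
    (fun r _ _ j _ u hu _ => mem_range.2 hu)
  refine h1.trans ?_
  have h2 : ∀ r ∈ (Icc 1 (2 * M)).filter (fun r => r.Coprime q), (1 / (r : ℝ) ^ 2) *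
        ∑ u ∈ range (r * q), KK N (β + u / ((r * q : ℕ) : ℝ)) ^ 2 ≤
      52 * (q : ℝ) ^ 2 * KK ((N / q : ℝ) / r) (r * (q * β)) ^ 2 + 36 * (q * N * ℓ) * (1 / r) := by
    intro r hr
    rw [mem_filter, mem_Icc] at hr
    have hr0 : (0 : ℝ) < r := by exact_mod_cast hr.1.1
    have hr2 : (r : ℝ) ≤ 2 * M := by exact_mod_cast hr.1.2
    have h3 := sq_min (n := r * q) (N := N) (Nat.mul_pos hr.1.1 hq) hN (ℓ := ℓ) (by
      have : Real.log ((r * q : ℕ) : ℝ) ≤ Real.log (2 * M * q) := by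
        push_cast
        apply Real.log_le_log (by positivity)
        gcongr
      linarith) β
    have e1 : (N : ℝ) / ((r * q : ℕ) : ℝ) = (N / q : ℝ) / r := by push_cast; field_simp
    have e2 : ((r * q : ℕ) : ℝ) * β = r * (q * β) := by push_cast; ring
    rw [e1, e2] at h3
    calc (1 / (r : ℝ) ^ 2) * ∑ u ∈ range (r * q), KK N (β + u / ((r * q : ℕ) : ℝ)) ^ 2
        ≤ (1 / (r : ℝ) ^ 2) * (52 * (((r * q : ℕ) : ℝ) * KK ((N / q : ℝ) / r) (r * (q * β))) ^ 2 +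
          36 * (N * ((r * q : ℕ) : ℝ) * ℓ)) := by gcongr
      _ = _ := by push_cast; field_simp
  have h4 := sq_lin hk hcop hβ (Y := (N : ℝ) / q) (by positivity) (D := 2 * M) (by omega) hℓ3 hℓ4
  have h5 : ∑ r ∈ (Icc 1 (2 * M)).filter (fun r => r.Coprime q), KK ((N / q : ℝ) / r) (r * (q * β)) ^ 2 ≤
      ∑ r ∈ Icc 1 (2 * M), KK ((N / q : ℝ) / r) (r * (q * β)) ^ 2 :=
    sum_le_sum_of_subset_of_nonneg (filter_subset _ _) fun _ _ _ => sq_nonneg _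
  have h6 : ∑ r ∈ (Icc 1 (2 * M)).filter (fun r => r.Coprime q), (1 / (r : ℝ) ^ 2) *
        ∑ u ∈ range (r * q), KK N (β + u / ((r * q : ℕ) : ℝ)) ^ 2 ≤
      52 * (q : ℝ) ^ 2 * (4000 * (ℓ ^ 2 * (((N : ℝ) / q) ^ 2 / (k : ℝ) ^ 2 + (N : ℝ) / q + (k : ℝ) ^ 2))) +
        36 * (q * N * ℓ) * ℓ := by
    refine (sum_le_sum h2).trans ?_
    rw [sum_add_distrib, ← mul_sum, ← mul_sum]
    have h7 := sum_inv_filter (q := q) hM hℓ1
    have h8 := h5.trans h4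
    gcongr
  have e3 : 52 * (q : ℝ) ^ 2 * (4000 * (ℓ ^ 2 * (((N : ℝ) / q) ^ 2 / (k : ℝ) ^ 2 + (N : ℝ) / q + (k : ℝ) ^ 2))) =
      208000 * (ℓ ^ 2 * ((N : ℝ) ^ 2 / (k : ℝ) ^ 2 + q * N + (q * k : ℝ) ^ 2)) := by
    field_simp
    ring
  rw [e3] at h6
  have hX1 : 0 ≤ (N : ℝ) ^ 2 / (k : ℝ) ^ 2 := by positivity
  have hℓ24 : ℓ ^ 2 ≤ ℓ ^ 4 := pow_le_pow_right₀ hℓp (by norm_num)
  calc 127008 * (q * (M : ℝ) ^ 2 * ℓ ^ 2) + 8 * ℓ ^ 2 *
      ∑ r ∈ (Icc 1 (2 * M)).filter (fun r => r.Coprime q), (1 / (r : ℝ) ^ 2) *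
        ∑ u ∈ range (r * q), KK N (β + u / ((r * q : ℕ) : ℝ)) ^ 2
      ≤ 127008 * (q * (M : ℝ) ^ 2 * ℓ ^ 4) + 8 * ℓ ^ 2 *
        (208000 * (ℓ ^ 2 * ((N : ℝ) ^ 2 / (k : ℝ) ^ 2 + q * N + (q * k : ℝ) ^ 2)) + 36 * (q * N * ℓ) * ℓ) := by
        gcongr
    _ = ℓ ^ 4 * (127008 * (q * (M : ℝ) ^ 2) + 1664000 * ((N : ℝ) ^ 2 / (k : ℝ) ^ 2) + 1664288 * (q * N) +
          1664000 * (q * k : ℝ) ^ 2) := by ring
    _ ≤ ℓ ^ 4 * (2000000 * (q * (M : ℝ) ^ 2 + (N : ℝ) ^ 2 / (k : ℝ) ^ 2 + q * N + (q * k : ℝ) ^ 2)) := by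
        apply mul_le_mul_of_nonneg_left _ (by positivity)
        have a1 : 0 ≤ (q : ℝ) * (M : ℝ) ^ 2 := by positivity
        have a2 : 0 ≤ (q : ℝ) * N := by positivity
        have a3 : 0 ≤ (q * k : ℝ) ^ 2 := by positivity
        linarith
    _ = _ := by ring

/-- major arcs -/
theorem tot_maj {q N M : ℕ} (hq : 1 ≤ q) (hN : 1 ≤ N) (hM : 1 ≤ M) {η T : ℝ} (hT : 1 ≤ T) (hη : |η| ≤ T / N)
    {ℓ : ℝ} (hℓ1 : 1 + Real.log (2 * M) ≤ ℓ) (hℓ2 : 1 + Real.log (2 * M * q) ≤ ℓ) :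
    ∑ j ∈ (range q).erase 0, GG0 q N M (η + j / q) ^ 2 ≤
      2000000 * (T * ℓ ^ 4 * (q * (M : ℝ) ^ 2 + q * N)) := by
  have hq0 : (0 : ℝ) < q := by exact_mod_cast hq
  have hN0 : (0 : ℝ) < N := by exact_mod_cast hN
  have hM1 : (1 : ℝ) ≤ M := by exact_mod_cast hM
  have hℓp : 1 ≤ ℓ := by
    have := Real.log_nonneg (show (1 : ℝ) ≤ 2 * M by linarith)
    linarith
  have h1 := GG0_sum_sq (N := N) (β := η) hq hM hℓ1 ((range q).erase 0) (erase_subset _ _)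
    (fun r => (range (r * q)).erase 0)
    (fun r _ hrq j hj u hu hm => by
      rw [mem_erase, mem_range] at hj ⊢
      refine ⟨fun h0 => ?_, hu⟩
      rw [h0] at hm
      have h2 : q ∣ j * r := (Nat.modEq_zero_iff_dvd.1 hm.symm)
      have h3 : q ∣ j := Nat.Coprime.dvd_of_dvd_mul_right hrq.symm h2
      have h4 := Nat.le_of_dvd (by omega) h3
      omega)
  refine h1.trans ?_
  have h2 : ∀ r ∈ (Icc 1 (2 * M)).filter (fun r => r.Coprime q), (1 / (r : ℝ) ^ 2) *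
        ∑ u ∈ (range (r * q)).erase 0, KK N (η + u / ((r * q : ℕ) : ℝ)) ^ 2 ≤
      1000 * (T * (q * N * ℓ)) * (1 / r) := by
    intro r hr
    rw [mem_filter, mem_Icc] at hr
    have hr0 : (0 : ℝ) < r := by exact_mod_cast hr.1.1
    have hr2 : (r : ℝ) ≤ 2 * M := by exact_mod_cast hr.1.2
    have h3 := sq_maj (n := r * q) (N := N) (Nat.mul_pos hr.1.1 hq) hN (ℓ := ℓ) (T := T) (η := η) (by
      have : Real.log ((r * q : ℕ) : ℝ) ≤ Real.log (2 * M * q) := by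
        push_cast
        apply Real.log_le_log (by positivity)
        gcongr
      linarith) hT hη
    calc (1 / (r : ℝ) ^ 2) * ∑ u ∈ (range (r * q)).erase 0, KK N (η + u / ((r * q : ℕ) : ℝ)) ^ 2
        ≤ (1 / (r : ℝ) ^ 2) * (1000 * (T * (N * ((r * q : ℕ) : ℝ) * ℓ))) := by gcongr
      _ = _ := by push_cast; field_simp
  have h6 : ∑ r ∈ (Icc 1 (2 * M)).filter (fun r => r.Coprime q), (1 / (r : ℝ) ^ 2) *
        ∑ u ∈ (range (r * q)).erase 0, KK N (η + u / ((r * q : ℕ) : ℝ)) ^ 2 ≤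
      1000 * (T * (q * N * ℓ)) * ℓ := by
    refine (sum_le_sum h2).trans ?_
    rw [← mul_sum]
    have h7 := sum_inv_filter (q := q) hM hℓ1
    have : 0 ≤ 1000 * (T * (q * N * ℓ)) := by positivity
    gcongr
  have hℓ24 : ℓ ^ 2 ≤ ℓ ^ 4 := pow_le_pow_right₀ hℓp (by norm_num)
  have a1 : 0 ≤ (q : ℝ) * (M : ℝ) ^ 2 := by positivity
  have a2 : 0 ≤ (q : ℝ) * N := by positivity
  calc 127008 * (q * (M : ℝ) ^ 2 * ℓ ^ 2) + 8 * ℓ ^ 2 *
      ∑ r ∈ (Icc 1 (2 * M)).filter (fun r => r.Coprime q), (1 / (r : ℝ) ^ 2) *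
        ∑ u ∈ (range (r * q)).erase 0, KK N (η + u / ((r * q : ℕ) : ℝ)) ^ 2
      ≤ 127008 * (q * (M : ℝ) ^ 2 * (T * ℓ ^ 4)) + 8 * ℓ ^ 2 * (1000 * (T * (q * N * ℓ)) * ℓ) := by
        have : ℓ ^ 2 ≤ T * ℓ ^ 4 := hℓ24.trans (le_mul_of_one_le_left (by positivity) hT)
        gcongr
    _ = T * ℓ ^ 4 * (127008 * (q * (M : ℝ) ^ 2) + 8000 * (q * N)) := by ring
    _ ≤ T * ℓ ^ 4 * (2000000 * (q * (M : ℝ) ^ 2 + q * N)) := by
        apply mul_le_mul_of_nonneg_left _ (by positivity)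
        linarith
    _ = _ := by ring

end Pool.Agent.R460.GH
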