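import Pool.Agent.R460.GH.Kc
import Pool.Agent.R460.GS.Ti2
import Pool.Agent.Y412.GJ.TiMinA
import Pool.Agent.Y872.GJ.Pars

set_option autoImplicit false

/-! From the characters to the additive characters; sums of type I for large levels. -/

namespace Pool.Agent.R460.GH

open Finset
open Pool.Agent.H807R2.Dav
open Pool.Agent.Y883.GJ
open Pool.Agent.R460.GS (norm_ev1)

lemma val_sum {q : ℕ} [NeZero q] (g : ℕ → ℝ) : ∑ l : ZMod q, g l.val = ∑ n ∈ range q, g n := by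
  refine Finset.sum_nbij' (fun l => l.val) (fun n => (n : ZMod q)) ?_ ?_ ?_ ?_ ?_
  · intro l _; exact mem_range.2 (ZMod.val_lt l)
  · intro n _; exact mem_univ _
  · intro l _; exact ZMod.natCast_zmod_val l
  · intro n hn; exact ZMod.val_cast_of_lt (mem_range.1 hn)
  · intro l _; rfl

lemma cast_eq_iff {q : ℕ} [NeZero q] (b : ℕ) (l : ZMod q) : (b : ZMod q) = l ↔ b % q = l.val := by
  rw [← ZMod.val_natCast]
  exact ⟨fun h => by rw [h], fun h => ZMod.val_injective q h⟩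

lemma ee_mod {q : ℕ} (hq : 0 < q) (n j : ℕ) : ee ((n : ℝ) * ((j : ℝ) / (q : ℕ))) =
    ee (((n % q : ℕ) : ℝ) * ((j : ℝ) / (q : ℕ))) := by
  have hq0 : (0 : ℝ) < q := by exact_mod_cast hq
  have h1 : (n : ℝ) = q * ((n / q : ℕ) : ℝ) + ((n % q : ℕ) : ℝ) := by exact_mod_cast (Nat.div_add_mod n q).symm
  have h2 : (n : ℝ) * ((j : ℝ) / (q : ℕ)) = ((n % q : ℕ) : ℝ) * ((j : ℝ) / (q : ℕ)) + (((n / q * j : ℕ) : ℤ) : ℝ) := by
    obtain ⟨A, hA⟩ : ∃ A : ℕ, A = n / q := ⟨_, rfl⟩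
    obtain ⟨B, hB⟩ : ∃ B : ℕ, B = n % q := ⟨_, rfl⟩
    rw [← hA, ← hB] at h1 ⊢
    rw [h1]
    push_cast
    field_simp
    ring
  rw [h2, ee_add_int]

open Classical in
/-- duality between the characters and the additive characters -/
lemma dual {q : ℕ} [NeZero q] {ι : Type*} (s : Finset ι) (c : ι → ℂ) (f : ι → ℕ)
    (S : Finset (DirichletCharacter ℂ q)) (R : Finset ℕ)
    (hR : R = range q ∨ ((1 : DirichletCharacter ℂ q) ∉ S ∧ R = (range q).erase 0)) :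
    ∑ χ ∈ S, ‖∑ i ∈ s, c i * χ (f i : ZMod q)‖ ^ 2 ≤
      ∑ j ∈ R, ‖∑ i ∈ s, c i * ee ((f i : ℝ) * ((j : ℝ) / (q : ℕ)))‖ ^ 2 := by
  have hq : 0 < q := Nat.pos_of_ne_zero (NeZero.ne q)
  have hq0 : (0 : ℝ) < q := by exact_mod_cast hq
  have hqc : (q : ℂ) ≠ 0 := by exact_mod_cast hq.ne'
  obtain ⟨C, hC⟩ : ∃ C : ℕ → ℂ, C = fun n => ∑ i ∈ s.filter (fun i => f i % q = n), c i := ⟨_, rfl⟩
  obtain ⟨c0, hc0⟩ : ∃ c0 : ℂ, c0 = if R = range q then 0 else (q : ℂ)⁻¹ * ∑ n ∈ range q, C n := ⟨_, rfl⟩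
  have h1 : ∀ χ ∈ S, ‖∑ i ∈ s, c i * χ (f i : ZMod q)‖ ^ 2 = ‖∑ l : ZMod q, χ l * (C l.val - c0)‖ ^ 2 := by
    intro χ hχ
    have e1 : ∑ i ∈ s, c i * χ (f i : ZMod q) = ∑ l : ZMod q, χ l * C l.val := by
      rw [← Finset.sum_fiberwise s (fun i => (f i : ZMod q)) (fun i => c i * χ (f i : ZMod q))]
      refine sum_congr rfl fun l _ => ?_
      rw [hC]
      simp only
      rw [mul_sum]
      have e2 : s.filter (fun i => (f i : ZMod q) = l) = s.filter (fun i => f i % q = l.val) :=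
        filter_congr fun i _ => cast_eq_iff (f i) l
      rw [e2]
      refine sum_congr rfl fun i hi => ?_
      rw [mem_filter, ← cast_eq_iff] at hi
      rw [hi.2, mul_comm]
    have e3 : ∑ l : ZMod q, χ l * c0 = 0 := by
      rw [hc0]
      rcases hR with hR | ⟨hS, hR⟩
      · rw [if_pos hR]; simp
      · have hχ1 : χ ≠ 1 := fun h => hS (h ▸ hχ)
        rw [← sum_mul, MulChar.sum_eq_zero_of_ne_one hχ1, zero_mul]
    rw [e1]
    congr 2
    simp only [mul_sub]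
    rw [sum_sub_distrib, e3, sub_zero]
  rw [sum_congr rfl h1]
  have h2 : ∑ χ ∈ S, ‖∑ l : ZMod q, χ l * (C l.val - c0)‖ ^ 2 ≤
      (q : ℝ) * ∑ n ∈ range q, ‖C n - c0‖ ^ 2 := by
    refine (sum_le_sum_of_subset_of_nonneg (subset_univ S) fun χ _ _ => sq_nonneg _).trans ?_
    refine (Pool.Agent.Y412.GJ.planch q (fun l => C l.val - c0)).trans ?_
    rw [val_sum (fun n => ‖C n - c0‖ ^ 2)]
    apply mul_le_mul_of_nonneg_right _ (sum_nonneg fun _ _ => sq_nonneg _)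
    exact_mod_cast Nat.totient_le q
  refine h2.trans ?_
  rw [← Pool.Agent.Y872.GJ.parseval q (range q) (fun n hn => mem_range.1 hn) (fun n => C n - c0)]
  have h3 : ∀ t : ℕ, ∑ n ∈ range q, C n * ee ((n : ℝ) * ((t : ℝ) / (q : ℕ))) =
      ∑ i ∈ s, c i * ee ((f i : ℝ) * ((t : ℝ) / (q : ℕ))) := by
    intro t
    rw [← sum_fiberwise_of_maps_to (s := s) (t := range q) (g := fun i => f i % q)
      (fun i _ => mem_range.2 (Nat.mod_lt _ hq)) (fun i => c i * ee ((f i : ℝ) * ((t : ℝ) / (q : ℕ))))]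
    refine sum_congr rfl fun n _ => ?_
    rw [hC]
    simp only
    rw [sum_mul]
    refine sum_congr rfl fun i hi => ?_
    rw [mem_filter] at hi
    rw [ee_mod hq (f i) t, hi.2]
  rcases hR with hR | ⟨hS, hR⟩
  · rw [hR] at hc0 ⊢
    rw [if_pos rfl] at hc0
    rw [hc0]
    apply le_of_eq
    refine sum_congr rfl fun t _ => ?_
    simp only [sub_zero]
    rw [h3]
  · by_cases hRq : R = range q
    · exfalso
      rw [hR] at hRq
      have : (0 : ℕ) ∈ (range q).erase 0 := by rw [hRq]; exact mem_range.2 hq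
      simp at this
    · rw [if_neg hRq] at hc0
      rw [hR, ← add_sum_erase (range q) _ (mem_range.2 hq)]
      have e0 : ‖∑ n ∈ range q, (C n - c0) * ee ((n : ℝ) * (((0 : ℕ) : ℝ) / (q : ℕ)))‖ ^ 2 = 0 := by
        have : ∑ n ∈ range q, (C n - c0) * ee ((n : ℝ) * (((0 : ℕ) : ℝ) / (q : ℕ))) = 0 := by
          simp only [Nat.cast_zero, zero_div, mul_zero, ee_zero, mul_one]
          rw [sum_sub_distrib, sum_const, card_range, nsmul_eq_mul, hc0, mul_inv_cancel_left₀ hqc, sub_self]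
        rw [this, norm_zero]
        norm_num
      rw [e0, zero_add]
      apply le_of_eq
      refine sum_congr rfl fun t ht => ?_
      rw [mem_erase, mem_range] at ht
      congr 2
      simp only [sub_mul]
      rw [sum_sub_distrib, h3]
      have e5 := Pool.Agent.Y872.GJ.orth q t 0 ht.2 hq
      rw [if_neg ht.1] at e5
      have e6 : ∑ n ∈ range q, c0 * ee ((n : ℝ) * ((t : ℝ) / (q : ℕ))) = 0 := by
        rw [← mul_sum]
        have e7 : ∑ n ∈ range q, ee ((n : ℝ) * ((t : ℝ) / (q : ℕ))) =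
            ∑ t_1 ∈ range q, ee ((t : ℝ) * ((t_1 : ℝ) / (q : ℕ))) *
              (starRingEnd ℂ) (ee (((0 : ℕ) : ℝ) * ((t_1 : ℝ) / (q : ℕ)))) := by
          refine sum_congr rfl fun n _ => ?_
          rw [Nat.cast_zero, zero_mul, ee_zero, map_one, mul_one]
          congr 1
          ring
        rw [e7, e5, mul_zero]
      rw [e6, sub_zero]

open Classical in
/-- sums of type I -/
lemma ti_gen {q y N M : ℕ} [NeZero q] (hy : y ≤ N) {a : ℕ → ℂ}
    (ha : ∀ m, a m ≠ 0 → m ≤ M) (ha2 : ∀ m ∈ Icc 1 N, ‖a m‖ ≤ 2) (β : ℝ)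
    (S : Finset (DirichletCharacter ℂ q)) (R : Finset ℕ)
    (hR : R = range q ∨ ((1 : DirichletCharacter ℂ q) ∉ S ∧ R = (range q).erase 0)) :
    ‖∑ m ∈ Icc 1 y, a m • ∑ b ∈ Icc 1 (y / m), ev S β (b * m)‖ ^ 2 ≤
      4 * ∑ j ∈ R, GG0 q N M (β + j / q) ^ 2 := by
  obtain ⟨s, hs⟩ : ∃ s : Finset (Σ _ : ℕ, ℕ), s = ((Icc 1 y).filter (fun m => m.Coprime q)).sigma
    (fun m => Icc 1 (y / m)) := ⟨_, rfl⟩
  have e1 : ∑ m ∈ Icc 1 y, a m • ∑ b ∈ Icc 1 (y / m), ev S β (b * m) =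
      ∑ x ∈ (Icc 1 y).sigma (fun m => Icc 1 (y / m)), (a x.1) • ev S β (x.2 * x.1) := by
    rw [sum_sigma]
    exact sum_congr rfl fun m _ => smul_sum
  rw [e1, norm_ev1 S β _ (fun x : (Σ _ : ℕ, ℕ) => a x.1) (fun x => x.2 * x.1)]
  have e2 : ∀ χ ∈ S, ‖∑ x ∈ (Icc 1 y).sigma (fun m => Icc 1 (y / m)),
      a x.1 * (χ ((x.2 * x.1 : ℕ) : ZMod q) * ee (((x.2 * x.1 : ℕ) : ℝ) * β))‖ ^ 2 =
      ‖∑ x ∈ s, (a x.1 * ee (((x.2 * x.1 : ℕ) : ℝ) * β)) * χ ((x.2 * x.1 : ℕ) : ZMod q)‖ ^ 2 := by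
    intro χ _
    congr 2
    have e3 : ∑ x ∈ s, (a x.1 * ee (((x.2 * x.1 : ℕ) : ℝ) * β)) * χ ((x.2 * x.1 : ℕ) : ZMod q) =
        ∑ x ∈ (Icc 1 y).sigma (fun m => Icc 1 (y / m)),
          (a x.1 * ee (((x.2 * x.1 : ℕ) : ℝ) * β)) * χ ((x.2 * x.1 : ℕ) : ZMod q) := by
      apply sum_subset
      · rw [hs]
        exact Finset.sigma_mono (filter_subset _ _) fun _ => subset_rfl
      · intro x hx hx'
        rw [hs, mem_sigma, mem_filter] at hx'
        rw [mem_sigma] at hx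
        have h1 : ¬ x.1.Coprime q := fun h => hx' ⟨⟨hx.1, h⟩, hx.2⟩
        have h2 : χ ((x.2 * x.1 : ℕ) : ZMod q) = 0 := by
          apply MulChar.map_nonunit
          rw [ZMod.isUnit_iff_coprime]
          intro h
          exact h1 (Nat.Coprime.coprime_mul_left h)
        rw [h2, mul_zero]
    rw [e3]
    refine sum_congr rfl fun x _ => ?_
    ring
  rw [sum_congr rfl e2]
  refine (dual s _ (fun x => x.2 * x.1) S R hR).trans ?_
  rw [mul_sum]
  refine sum_le_sum fun j _ => ?_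
  have e3 : ∑ x ∈ s, (a x.1 * ee (((x.2 * x.1 : ℕ) : ℝ) * β)) * ee (((x.2 * x.1 : ℕ) : ℝ) * ((j : ℝ) / (q : ℕ))) =
      ∑ m ∈ (Icc 1 y).filter (fun m => m.Coprime q), a m * ∑ b ∈ Icc 1 (y / m), ee ((b : ℝ) * (m * (β + j / q))) := by
    rw [hs, sum_sigma]
    refine sum_congr rfl fun m _ => ?_
    rw [mul_sum]
    refine sum_congr rfl fun b _ => ?_
    simp only
    rw [mul_assoc, ← ee_add]
    congr 2
    push_cast
    ring
  rw [e3]
  have e4 : ‖∑ m ∈ (Icc 1 y).filter (fun m => m.Coprime q), a m * ∑ b ∈ Icc 1 (y / m), ee ((b : ℝ) * (m * (β + j / q)))‖ ≤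
      2 * GG0 q N M (β + j / q) := by
    unfold GG0
    rw [mul_sum]
    refine (norm_sum_le _ _).trans ?_
    have e5 : ∀ m ∈ (Icc 1 y).filter (fun m => m.Coprime q),
        ‖a m * ∑ b ∈ Icc 1 (y / m), ee ((b : ℝ) * (m * (β + j / q)))‖ ≤
        if m ≤ M then 2 * KK ((N : ℝ) / m) (m * (β + j / q)) else 0 := by
      intro m hm
      rw [mem_filter, mem_Icc] at hm
      split_ifs with hmM
      · rw [norm_mul]
        have hm0 : (0 : ℝ) < m := by exact_mod_cast hm.1.1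
        apply mul_le_mul (ha2 m (mem_Icc.2 ⟨hm.1.1, hm.1.2.trans hy⟩)) _ (norm_nonneg _) (by norm_num)
        have e6 : Icc 1 (y / m) = Ico 1 (y / m + 1) := by
          ext b; simp only [mem_Icc, mem_Ico]; omega
        rw [e6]
        apply geo_bound 1 (y / m + 1) (Nat.le_add_left 1 _)
        push_cast
        have h1 : ((y / m : ℕ) : ℝ) ≤ (y : ℝ) / m := Nat.cast_div_le
        have h2 : (y : ℝ) / m ≤ N / m := by
          have : (y : ℝ) ≤ N := by exact_mod_cast hy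
          gcongr
        linarith
      · have : a m = 0 := by
          by_contra h
          exact hmM (ha m h)
        rw [this, zero_mul, norm_zero]
    refine (sum_le_sum e5).trans ?_
    rw [← sum_filter]
    apply sum_le_sum_of_subset_of_nonneg
    · intro m hm
      rw [mem_filter, mem_filter, mem_Icc] at hm
      rw [mem_filter, mem_Icc]
      exact ⟨⟨hm.1.1.1, hm.2⟩, hm.1.2⟩
    · intro m _ _
      have := KK_nonneg (M := (N : ℝ) / m) (by positivity) (m * (β + j / q))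
      positivity
  calc ‖∑ m ∈ (Icc 1 y).filter (fun m => m.Coprime q), a m * ∑ b ∈ Icc 1 (y / m), ee ((b : ℝ) * (m * (β + j / q)))‖ ^ 2
      ≤ (2 * GG0 q N M (β + j / q)) ^ 2 := pow_le_pow_left₀ (norm_nonneg _) e4 2
    _ = _ := by ring

end Pool.Agent.R460.GH
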