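import Pool.Agent.R460.GH.Err
import Pool.Agent.Y883.GJ.Gold
import Pool.Agent.W93.PG6

set_option autoImplicit false

/-! The number of exceptions in a residue class: the asymptotic formula in all windows. -/

namespace Pool.Agent.R460.GH

open Finset
open Pool.Agent.R460.GS
open Pool.Agent.H373R2.T7 (lamz Vz pz lamI lamzI Vz_pos)
open Pool.Agent.Y883.T3 (lsh)
open Pool.Agent.Y883.GJ
open Pool.Agent.H560R3.GB (sing)
open Pool.Agent.Y614.GJ.Core (ev_log)
open Pool.Agent.Y883.T4 (badc class_le)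
open Pool.Agent.W93.PG (WinP GoodG win_count pg_det)

lemma cv_near {N n y : ℕ} (z r : ℕ) (hy : y ≤ N) (hn : n ≤ N) :
    |∑ b ∈ Icc 1 y, ArithmeticFunction.vonMangoldt b * (lamI ((n : ℤ) - b) - lamzI z ((n : ℤ) - b))| ≤
      ‖cv LA (FF z r) y N n‖ + Real.log N * ∑ c ∈ Icc 1 N, |lamz z c - lsh z r c| := by
  classical
  have hlog : 0 ≤ Real.log N := Real.log_natCast_nonneg _
  have h1 : ∀ b ∈ Icc 1 y, ArithmeticFunction.vonMangoldt b * (lamI ((n : ℤ) - b) - lamzI z ((n : ℤ) - b)) =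
      ∑ c ∈ Icc 1 N, if b + c = n then ArithmeticFunction.vonMangoldt b *
        (ArithmeticFunction.vonMangoldt c - lamz z c) else 0 := by
    intro b hb
    rw [mem_Icc] at hb
    rcases lt_or_ge b n with hbn | hbn
    · obtain ⟨c, hc⟩ : ∃ c, c = n - b := ⟨_, rfl⟩
      rw [sum_eq_single c]
      · rw [if_pos (by omega)]
        have e1 : ((n : ℤ) - b) = (c : ℤ) := by omega
        have e2 : (1 : ℤ) ≤ c := by omega
        rw [e1]
        unfold lamI lamzI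
        rw [if_pos e2, if_pos e2, Int.toNat_natCast]
      · intro c' _ hne
        rw [if_neg (by omega)]
      · intro hcn
        exact absurd (mem_Icc.2 ⟨by omega, by omega⟩) hcn
    · rw [sum_eq_zero]
      · unfold lamI lamzI
        rw [if_neg (by omega), if_neg (by omega)]
        ring
      · intro c hc
        rw [mem_Icc] at hc
        rw [if_neg (by omega)]
  have h2 : ∑ b ∈ Icc 1 y, ArithmeticFunction.vonMangoldt b * (lamI ((n : ℤ) - b) - lamzI z ((n : ℤ) - b)) =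
      ∑ b ∈ Icc 1 y, ∑ c ∈ Icc 1 N, (if b + c = n then ArithmeticFunction.vonMangoldt b *
        (ArithmeticFunction.vonMangoldt c - lsh z r c) else 0) +
      ∑ b ∈ Icc 1 y, ∑ c ∈ Icc 1 N, (if b + c = n then ArithmeticFunction.vonMangoldt b *
        (lsh z r c - lamz z c) else 0) := by
    rw [sum_congr rfl h1, ← sum_add_distrib]
    apply sum_congr rfl
    intro b _
    rw [← sum_add_distrib]
    apply sum_congr rfl
    intro c _
    split_ifs
    · ring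
    · ring
  have h3 : ((∑ b ∈ Icc 1 y, ∑ c ∈ Icc 1 N, (if b + c = n then ArithmeticFunction.vonMangoldt b *
        (ArithmeticFunction.vonMangoldt c - lsh z r c) else 0) : ℝ) : ℂ) = cv LA (FF z r) y N n := by
    unfold cv LA FF
    push_cast
    apply sum_congr rfl
    intro b _
    apply sum_congr rfl
    intro c _
    split_ifs <;> simp
  have h4 : |∑ b ∈ Icc 1 y, ∑ c ∈ Icc 1 N, (if b + c = n then ArithmeticFunction.vonMangoldt b *
        (ArithmeticFunction.vonMangoldt c - lsh z r c) else 0)| = ‖cv LA (FF z r) y N n‖ := by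
    rw [← h3, Complex.norm_real, Real.norm_eq_abs]
  have h5 : |∑ b ∈ Icc 1 y, ∑ c ∈ Icc 1 N, (if b + c = n then ArithmeticFunction.vonMangoldt b *
        (lsh z r c - lamz z c) else 0)| ≤ Real.log N * ∑ c ∈ Icc 1 N, |lamz z c - lsh z r c| := by
    rw [sum_comm]
    refine (abs_sum_le_sum_abs _ _).trans ?_
    rw [mul_sum]
    apply sum_le_sum
    intro c hc
    rw [mem_Icc] at hc
    refine (abs_sum_le_sum_abs _ _).trans ?_
    have h6 : ∀ b ∈ Icc 1 y, |(if b + c = n then ArithmeticFunction.vonMangoldt b *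
        (lsh z r c - lamz z c) else 0)| ≤ if b = n - c then Real.log N * |lamz z c - lsh z r c| else 0 := by
      intro b hb
      rw [mem_Icc] at hb
      by_cases hbc : b + c = n
      · rw [if_pos hbc, if_pos (by omega), abs_mul, abs_sub_comm (lsh z r c)]
        apply mul_le_mul_of_nonneg_right _ (abs_nonneg _)
        rw [abs_of_nonneg ArithmeticFunction.vonMangoldt_nonneg]
        refine ArithmeticFunction.vonMangoldt_le_log.trans ?_
        exact Real.log_le_log (by exact_mod_cast hb.1) (by exact_mod_cast hb.2.trans hy)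
      · rw [if_neg hbc, abs_zero]
        split_ifs
        · positivity
        · exact le_rfl
    refine (sum_le_sum h6).trans ?_
    rw [sum_ite_eq']
    split_ifs
    · exact le_rfl
    · positivity
  rw [h2]
  refine (abs_add_le _ _).trans ?_
  linarith

theorem gh_main (hErr : ErrHStm) (ε : ℝ) (hε : 0 < ε) (ρ : ℝ) (hρ : 0 < ρ) (A W T : ℕ) :
    ∃ N₀ : ℕ, ∀ N : ℕ, N₀ ≤ N → ∀ q : ℕ, 1 ≤ q → (q : ℝ) ≤ (N : ℝ) ^ (2 / 3 - ρ) → ∀ a : ℕ,
      (Nat.gcd a q : ℝ) ≤ Real.log N ^ T →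
        ((badc (WinP ε W) N q a).card : ℝ) ≤ (N : ℝ) / (q * Real.log N ^ A) := by
  classical
  obtain ⟨V, hV⟩ : ∃ V, V = W + (A + 1) + 4 := ⟨_, rfl⟩
  obtain ⟨B, hB⟩ := hErr (A + 3 * V + 20) T (V + 8) ρ hρ
  obtain ⟨E1, hE1⟩ : ∃ E1, E1 = max B (V + 8) := ⟨_, rfl⟩
  obtain ⟨N₁, h1⟩ := hB (E1 + 1)
  obtain ⟨N₂, h2⟩ := pg_det V E1 (by rw [hE1]; exact le_trans (by omega) (le_max_right _ _))
  obtain ⟨N₃, h3⟩ := win_count ε hε W (A + 1)
  obtain ⟨N₄, h4⟩ := Filter.eventually_atTop.1 (ev_log (V + A + 4) (s := 1 / 3) (by norm_num) 100)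
  refine ⟨N₁ + N₂ + N₃ + N₄ + 3, fun N hN q hq1 hqN a ha => ?_⟩
  have : NeZero q := ⟨by omega⟩
  have hN1 : 1 ≤ N := by omega
  have hN0 : (0 : ℝ) < N := by exact_mod_cast hN1
  have hN1r : (1 : ℝ) ≤ N := by exact_mod_cast hN1
  obtain ⟨hL100, hLp⟩ := h4 N (by omega)
  have c1 := h1 N (by omega)
  have c2 := h2 N (by omega)
  have c3 := h3 N (by omega)
  have hnear := fun z r n y (hn : n ≤ N) (hy : y ≤ N) => cv_near (N := N) (n := n) (y := y) z r hy hn
  obtain ⟨L, hLd⟩ : ∃ L, L = Real.log (N : ℝ) := ⟨_, rfl⟩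
  rw [← hLd] at c1 c2 c3 hL100 hLp ha hnear ⊢
  have hL0 : 0 < L := by linarith
  have hL1 : 1 ≤ L := by linarith
  have hq0 : (0 : ℝ) < q := by exact_mod_cast hq1
  -- the parameter `z`
  obtain ⟨z, hz⟩ : ∃ z, z = ⌈L ^ E1⌉₊ := ⟨_, rfl⟩
  have hzlo : L ^ E1 ≤ z := by rw [hz]; exact Nat.le_ceil _
  have hL1B : 1 ≤ L ^ E1 := one_le_pow₀ hL1
  have hzhi : (z : ℝ) ≤ L ^ (E1 + 1) := by
    have := Nat.ceil_lt_add_one (show 0 ≤ L ^ E1 by positivity)
    rw [← hz] at this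
    calc (z : ℝ) ≤ L ^ E1 + 1 := this.le
      _ ≤ L ^ E1 + L ^ E1 := by linarith
      _ = 2 * L ^ E1 := by ring
      _ ≤ L * L ^ E1 := mul_le_mul_of_nonneg_right (by linarith) (by positivity)
      _ = L ^ (E1 + 1) := by ring
  have hzB : L ^ B ≤ z := (pow_le_pow_right₀ hL1 (by rw [hE1]; exact le_max_left _ _)).trans hzlo
  obtain ⟨r, hPar, hsum, hms⟩ := c1 z hzB hzhi
  -- the grid
  obtain ⟨Tg, hTg⟩ : ∃ Tg, Tg = ⌈L ^ (V + 3)⌉₊ := ⟨_, rfl⟩
  have hT1 : L ^ (V + 3) ≤ Tg := by rw [hTg]; exact Nat.le_ceil _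
  have hLV : 1 ≤ L ^ (V + 3) := one_le_pow₀ hL1
  have hT2 : (Tg : ℝ) ≤ L ^ (V + 3) + 1 := by
    rw [hTg]
    exact (Nat.ceil_lt_add_one (by positivity)).le
  have hgcd : ((Nat.gcd (ZMod.val (a : ZMod q)) q : ℕ) : ℝ) ≤ L ^ T := by
    rw [ZMod.val_natCast, ← Nat.gcd_rec, Nat.gcd_comm]
    exact ha
  -- the size of q
  have hqs : (q : ℝ) * L ^ (A + 1) ≤ N := by
    have e1 : (q : ℝ) ≤ (N : ℝ) ^ (2 / 3 : ℝ) :=
      hqN.trans (Real.rpow_le_rpow_of_exponent_le hN1r (by linarith))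
    have e2 : L ^ (A + 1) ≤ (N : ℝ) ^ (1 / 3 : ℝ) := (pow_le_pow_right₀ hL1 (by omega)).trans hLp
    calc (q : ℝ) * L ^ (A + 1) ≤ (N : ℝ) ^ (2 / 3 : ℝ) * (N : ℝ) ^ (1 / 3 : ℝ) := by gcongr
      _ = N := by rw [← Real.rpow_add hN0]; norm_num
  obtain ⟨Bd, hBd⟩ : ∃ Bd, Bd = badc (WinP ε W) N q a := ⟨_, rfl⟩
  rw [← hBd]
  have hmem : ∀ n ∈ Bd, 1 ≤ n ∧ n ≤ N ∧ 2 ∣ n ∧ n % q = a % q ∧ ¬ WinP ε W n := by
    intro n hn
    rw [hBd] at hn
    unfold badc at hn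
    rw [mem_filter, mem_Icc] at hn
    exact ⟨hn.1.1, hn.1.2, hn.2.1, hn.2.2.1, hn.2.2.2⟩
  obtain ⟨B1s, hB1s⟩ : ∃ B1s, B1s = Bd.filter (fun n : ℕ => (n : ℝ) < N / L ^ (A + 1)) := ⟨_, rfl⟩
  obtain ⟨B2s, hB2s⟩ : ∃ B2s, B2s = Bd.filter (fun n : ℕ => ¬ (n : ℝ) < N / L ^ (A + 1)) := ⟨_, rfl⟩
  have hcard : B1s.card + B2s.card = Bd.card := by
    rw [hB1s, hB2s]; exact card_filter_add_card_filter_not _
  have hone : (1 : ℝ) ≤ N / (q * L ^ (A + 1)) := by rw [_root_.one_le_div (by positivity)]; exact hqs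
  have hB1c : (B1s.card : ℝ) ≤ 2 * (N / (q * L ^ (A + 1))) := by
    have h3 := class_le N q a hq1 B1s (N / L ^ (A + 1)) (by positivity) (by
      intro n hn
      rw [hB1s, mem_filter] at hn
      obtain ⟨a1, a2, a3, a4, a5⟩ := hmem n hn.1
      exact ⟨a4, hn.2.le⟩)
    have e1 : (N : ℝ) / L ^ (A + 1) / q = N / (q * L ^ (A + 1)) := by rw [div_div, mul_comm]
    rw [e1] at h3
    linarith
  -- the second part
  obtain ⟨yy, hyy⟩ : ∃ yy : ℕ → ℕ, yy = fun i => min (i * (N / Tg + 1)) N := ⟨_, rfl⟩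
  have hyN : ∀ i, yy i ≤ N := fun i => by rw [hyy]; exact min_le_right _ _
  have hterm : ∀ n ∈ B2s, ((N : ℝ) / (2 * L ^ (V + 2))) ^ 2 ≤
      ∑ i ∈ range (Tg + 1), ‖cv LA (FF z r) (yy i) N n‖ ^ 2 := by
    intro n hn
    rw [hB2s, mem_filter, not_lt] at hn
    obtain ⟨a1, a2, a3, a4, a5⟩ := hmem n hn.1
    by_contra hcon
    rw [not_le] at hcon
    apply a5
    have hgood : GoodG (W + (A + 1) + 4) N n := by
      rw [← hV]
      unfold GoodG
      rw [← hLd]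
      refine c2 n a2 a3 (by omega) z hzlo hzhi Tg hT1 ?_
      intro i hi
      have k1 := hnear z r n (yy i) a2 (hyN i)
      have k2 : ‖cv LA (FF z r) (yy i) N n‖ ≤ N / (2 * L ^ (V + 2)) := by
        by_contra hc
        rw [not_le] at hc
        have k3 : ‖cv LA (FF z r) (yy i) N n‖ ^ 2 ≤ ∑ i ∈ range (Tg + 1), ‖cv LA (FF z r) (yy i) N n‖ ^ 2 :=
          single_le_sum (f := fun i => ‖cv LA (FF z r) (yy i) N n‖ ^ 2) (fun _ _ => sq_nonneg _) hi
        have k4 := pow_le_pow_left₀ (show 0 ≤ (N : ℝ) / (2 * L ^ (V + 2)) by positivity) hc.le 2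
        linarith
      have h6 : L * ∑ c ∈ Icc 1 N, |lamz z c - lsh z r c| ≤ N / (2 * L ^ (V + 2)) := by
        calc L * ∑ c ∈ Icc 1 N, |lamz z c - lsh z r c| ≤ L * (N / L ^ (V + 8)) :=
              mul_le_mul_of_nonneg_left hsum hL0.le
          _ = N / L ^ (V + 7) := by rw [pow_succ L (V + 7)]; field_simp
          _ ≤ N / (2 * L ^ (V + 2)) := by
              apply div_le_div_of_nonneg_left hN0.le (by positivity)
              rw [show V + 7 = 5 + (V + 2) by ring, pow_add L 5 (V + 2)]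
              apply mul_le_mul_of_nonneg_right _ (by positivity)
              have : L ^ 1 ≤ L ^ 5 := pow_le_pow_right₀ hL1 (by norm_num)
              linarith [pow_one L]
      have h7 : (N : ℝ) / L ^ (V + 2) = 2 * (N / (2 * L ^ (V + 2))) := by field_simp
      have e : yy i = min (i * (N / Tg + 1)) N := by rw [hyy]
      rw [← e]
      linarith
    intro y₁ y₂ k1 k2 k3
    exact c3 n a2 hn.2 hgood y₁ y₂ k1 k2 k3
  have hcls : ∀ n ∈ B2s, n ∈ (Icc 1 (2 * N)).filter (fun n : ℕ => (n : ZMod q) = (a : ZMod q)) := by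
    intro n hn
    rw [hB2s, mem_filter] at hn
    obtain ⟨a1, a2, a3, a4, a5⟩ := hmem n hn.1
    rw [mem_filter, mem_Icc]
    exact ⟨⟨a1, by omega⟩, (ZMod.natCast_eq_natCast_iff' n a q).2 a4⟩
  obtain ⟨R, hR⟩ : ∃ R : ℝ, R = (N : ℝ) ^ 3 / (q * L ^ (A + 3 * V + 20)) := ⟨_, rfl⟩
  have hR0 : 0 < R := by rw [hR]; positivity
  have hsum2 : (B2s.card : ℝ) * (N / (2 * L ^ (V + 2))) ^ 2 ≤ 3 * L ^ (V + 3) * R := by
    calc (B2s.card : ℝ) * (N / (2 * L ^ (V + 2))) ^ 2 = ∑ _n ∈ B2s, ((N : ℝ) / (2 * L ^ (V + 2))) ^ 2 := by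
          rw [sum_const, nsmul_eq_mul]
      _ ≤ ∑ n ∈ B2s, ∑ i ∈ range (Tg + 1), ‖cv LA (FF z r) (yy i) N n‖ ^ 2 := sum_le_sum hterm
      _ ≤ ∑ n ∈ (Icc 1 (2 * N)).filter (fun n : ℕ => (n : ZMod q) = (a : ZMod q)),
          ∑ i ∈ range (Tg + 1), ‖cv LA (FF z r) (yy i) N n‖ ^ 2 :=
          sum_le_sum_of_subset_of_nonneg hcls fun n _ _ => sum_nonneg fun j _ => sq_nonneg _
      _ = ∑ i ∈ range (Tg + 1), ∑ n ∈ (Icc 1 (2 * N)).filter (fun n : ℕ => (n : ZMod q) = (a : ZMod q)),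
          ‖cv LA (FF z r) (yy i) N n‖ ^ 2 := sum_comm
      _ ≤ ∑ i ∈ range (Tg + 1), R := by
          refine sum_le_sum fun i _ => ?_
          rw [hR]
          exact hms LA (Or.inl rfl) q hqN (a : ZMod q) hgcd (yy i) N (hyN i) le_rfl
      _ = ((Tg : ℝ) + 1) * R := by rw [sum_const, card_range, nsmul_eq_mul]; push_cast; ring
      _ ≤ (3 * L ^ (V + 3)) * R := by
          have : (Tg : ℝ) + 1 ≤ 3 * L ^ (V + 3) := by linarith
          gcongr
      _ = _ := by ring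
  have hB2c : (B2s.card : ℝ) ≤ N / (q * L ^ (A + 2)) := by
    have h4 : 3 * L ^ (V + 3) * R ≤ (N / (q * L ^ (A + 2))) * (N / (2 * L ^ (V + 2))) ^ 2 := by
      have e1 : (N / (q * L ^ (A + 2))) * (N / (2 * L ^ (V + 2))) ^ 2 =
          (N : ℝ) ^ 3 / (q * L ^ (A + 3 * V + 20)) * (L ^ (V + 14) / 4) := by
        have e2 : L ^ (A + 3 * V + 20) = L ^ A * (L ^ V) ^ 3 * L ^ 20 := by
          rw [← pow_mul, ← pow_add, ← pow_add]
          congr 1
          ring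
        rw [e2, pow_add L A 2, pow_add L V 2, pow_add L V 14]
        have e0 : L ^ V ≠ 0 := by positivity
        have e3 : L ^ A ≠ 0 := by positivity
        generalize L ^ V = X at e0 ⊢
        generalize L ^ A = Y at e3 ⊢
        field_simp
        ring
      rw [e1, ← hR]
      have e4 : 3 * L ^ (V + 3) ≤ L ^ (V + 14) / 4 := by
        have e5 : 12 * L ^ (V + 3) ≤ L ^ (V + 14) := by
          calc 12 * L ^ (V + 3) ≤ L * L ^ (V + 3) := by gcongr; linarith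
            _ = L ^ (V + 4) := by ring
            _ ≤ _ := pow_le_pow_right₀ hL1 (by omega)
        linarith
      calc 3 * L ^ (V + 3) * R = R * (3 * L ^ (V + 3)) := by ring
        _ ≤ R * (L ^ (V + 14) / 4) := by gcongr
    exact le_of_mul_le_mul_right (hsum2.trans h4) (by positivity)
  have h3 : (B1s.card : ℝ) + B2s.card = Bd.card := by exact_mod_cast hcard
  have h4 : (N : ℝ) / (q * L ^ (A + 1)) = N / (q * L ^ A) / L := by
    rw [pow_succ, ← mul_assoc, ← div_div]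
  have h5 : (N : ℝ) / (q * L ^ (A + 2)) = N / (q * L ^ A) / L / L := by
    rw [pow_succ, pow_succ, ← mul_assoc, ← mul_assoc, ← div_div, ← div_div]
  have h6 : 0 ≤ (N : ℝ) / (q * L ^ A) := by positivity
  have h7 : (N : ℝ) / (q * L ^ A) / L ≤ N / (q * L ^ A) / 100 := div_le_div_of_nonneg_left h6 (by norm_num) hL100
  have h8 : (N : ℝ) / (q * L ^ A) / L / L ≤ N / (q * L ^ A) / L := div_le_self (by positivity) hL1
  rw [h4] at hB1c
  rw [h5] at hB2c
  linarith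

end Pool.Agent.R460.GH
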