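import Pool.Agent.R460.GS.GrVec
import Pool.Agent.R460.GH.Dec

set_option autoImplicit false

/-! The primes: reduction to sums of types I and II. -/

namespace Pool.Agent.R460.GH

open Finset
open Pool.Agent.R460.GS
open Pool.Agent.Y883.GJ
open Pool.Agent.H807R2.Dav (ee)
open Pool.Agent.Y614.GJ.Core (ev_log)

/-- `N ^ (1 / k)` -/
noncomputable def Wk (k N : ℕ) : ℕ := ⌊(N : ℝ) ^ (1 / (k : ℝ))⌋₊

/-- `N ^ (1 / 3 + 1 / k)` -/
noncomputable def Zk (k N : ℕ) : ℕ := ⌊(N : ℝ) ^ (1 / 3 + 1 / (k : ℝ))⌋₊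

/-- the upper bound for the large primes -/
noncomputable def Pk (k N : ℕ) : ℕ := N / (Zk k N + 1)

lemma inv_k {k : ℕ} (hk : 12 ≤ k) : 0 < 1 / (k : ℝ) ∧ 1 / (k : ℝ) ≤ 1 / 12 := by
  have h1 : (12 : ℝ) ≤ k := by exact_mod_cast hk
  have h2 : (0 : ℝ) < k := by linarith
  exact ⟨by positivity, one_div_le_one_div_of_le (by norm_num) h1⟩

lemma one_le_Wk {k N : ℕ} (hN : 1 ≤ N) : 1 ≤ Wk k N := by
  unfold Wk
  rw [Nat.one_le_floor_iff]
  exact Real.one_le_rpow (by exact_mod_cast hN) (by positivity)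

lemma Wk_le {k N : ℕ} (hN : 1 ≤ N) : Wk k N ≤ Zk k N := by
  unfold Wk Zk
  refine Nat.floor_le_floor ?_
  exact Real.rpow_le_rpow_of_exponent_le (by exact_mod_cast hN) (by linarith)

lemma Zk_real {k N : ℕ} : (Zk k N : ℝ) ≤ (N : ℝ) ^ (1 / 3 + 1 / (k : ℝ)) := Nat.floor_le (by positivity)

lemma Wk_real {k N : ℕ} : (Wk k N : ℝ) ≤ (N : ℝ) ^ (1 / (k : ℝ)) := Nat.floor_le (by positivity)

lemma Zk_le {k N : ℕ} (hk : 12 ≤ k) (hN : 1 ≤ N) : Zk k N ≤ N := by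
  have h1 : (Zk k N : ℝ) ≤ N := by
    refine Zk_real.trans ?_
    calc (N : ℝ) ^ (1 / 3 + 1 / (k : ℝ)) ≤ (N : ℝ) ^ (1 : ℝ) :=
          Real.rpow_le_rpow_of_exponent_le (by exact_mod_cast hN) (by have := (inv_k hk).2; linarith)
      _ = N := Real.rpow_one _
  exact_mod_cast h1

lemma Wk_sq_le {k N : ℕ} (hk : 12 ≤ k) (hN : 1 ≤ N) : Wk k N * Wk k N ≤ Zk k N := by
  unfold Zk
  apply Nat.le_floor
  have h1 := Wk_real (k := k) (N := N)
  have hN0 : (0 : ℝ) < N := by exact_mod_cast hN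
  push_cast
  calc (Wk k N : ℝ) * Wk k N ≤ (N : ℝ) ^ (1 / (k : ℝ)) * (N : ℝ) ^ (1 / (k : ℝ)) :=
        mul_le_mul h1 h1 (Nat.cast_nonneg _) (by positivity)
    _ = (N : ℝ) ^ (1 / (k : ℝ) + 1 / (k : ℝ)) := by rw [← Real.rpow_add hN0]
    _ ≤ _ := Real.rpow_le_rpow_of_exponent_le (by exact_mod_cast hN) (by have := (inv_k hk).2; linarith)

lemma Zk_cube {k N : ℕ} (hN : 1 ≤ N) : N < (Zk k N + 1) ^ 3 := by
  have h1 : (N : ℝ) ^ (1 / 3 + 1 / (k : ℝ)) < (Zk k N : ℝ) + 1 := Nat.lt_floor_add_one _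
  have hN0 : (0 : ℝ) < N := by exact_mod_cast hN
  have h2 : (N : ℝ) ^ (1 / 3 : ℝ) < (Zk k N : ℝ) + 1 := by
    refine lt_of_le_of_lt ?_ h1
    exact Real.rpow_le_rpow_of_exponent_le (by exact_mod_cast hN) (by
      have : 0 ≤ 1 / (k : ℝ) := by positivity
      linarith)
  have h3 : ((N : ℝ) ^ (1 / 3 : ℝ)) ^ 3 < ((Zk k N : ℝ) + 1) ^ 3 := by gcongr
  have h4 : ((N : ℝ) ^ (1 / 3 : ℝ)) ^ 3 = N := by
    rw [← Real.rpow_natCast, ← Real.rpow_mul hN0.le]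
    norm_num
  rw [h4] at h3
  exact_mod_cast h3

lemma Zk_le_Pk {k N : ℕ} (hk : 12 ≤ k) (hN : 64 ≤ N) : Zk k N ≤ Pk k N := by
  have hN1 : 1 ≤ N := by omega
  have hN0 : (0 : ℝ) < N := by exact_mod_cast hN1
  have hNr1 : (1 : ℝ) ≤ N := by exact_mod_cast hN1
  unfold Pk
  rw [Nat.le_div_iff_mul_le (by omega)]
  have h1 : (Zk k N : ℝ) ≤ (N : ℝ) ^ (5 / 12 : ℝ) := by
    refine Zk_real.trans ?_
    exact Real.rpow_le_rpow_of_exponent_le hNr1 (by have := (inv_k hk).2; linarith)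
  have h2 : (1 : ℝ) ≤ (N : ℝ) ^ (5 / 12 : ℝ) := Real.one_le_rpow hNr1 (by norm_num)
  have h3 : (2 : ℝ) ≤ (N : ℝ) ^ (1 / 6 : ℝ) := by
    calc (2 : ℝ) = (64 : ℝ) ^ (1 / 6 : ℝ) := by
          rw [show (64 : ℝ) = 2 ^ (6 : ℝ) by norm_num, ← Real.rpow_mul (by norm_num)]
          norm_num
      _ ≤ _ := by
          apply Real.rpow_le_rpow (by norm_num) (by exact_mod_cast hN) (by norm_num)
  have h4 : (Zk k N : ℝ) * (Zk k N + 1) ≤ N := by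
    calc (Zk k N : ℝ) * (Zk k N + 1) ≤ (N : ℝ) ^ (5 / 12 : ℝ) * (2 * (N : ℝ) ^ (5 / 12 : ℝ)) := by
          gcongr
          linarith
      _ = 2 * ((N : ℝ) ^ (5 / 12 : ℝ) * (N : ℝ) ^ (5 / 12 : ℝ)) := by ring
      _ ≤ (N : ℝ) ^ (1 / 6 : ℝ) * ((N : ℝ) ^ (5 / 12 : ℝ) * (N : ℝ) ^ (5 / 12 : ℝ)) := by gcongr
      _ = N := by
          rw [← Real.rpow_add hN0, ← Real.rpow_add hN0]
          norm_num
  exact_mod_cast h4

lemma Pk_real {k N : ℕ} (hN : 1 ≤ N) : (Pk k N : ℝ) ≤ (N : ℝ) ^ (2 / 3 - 1 / (k : ℝ)) := by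
  have hN0 : (0 : ℝ) < N := by exact_mod_cast hN
  have h1 : (N : ℝ) ^ (1 / 3 + 1 / (k : ℝ)) < (Zk k N : ℝ) + 1 := Nat.lt_floor_add_one _
  have h0 : 0 < (N : ℝ) ^ (1 / 3 + 1 / (k : ℝ)) := by positivity
  unfold Pk
  calc ((N / (Zk k N + 1) : ℕ) : ℝ) ≤ (N : ℝ) / ((Zk k N + 1 : ℕ) : ℝ) := Nat.cast_div_le
    _ ≤ N / (N : ℝ) ^ (1 / 3 + 1 / (k : ℝ)) := by
        apply div_le_div_of_nonneg_left hN0.le h0
        push_cast
        exact h1.le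
    _ = (N : ℝ) ^ (2 / 3 - 1 / (k : ℝ)) := by
        rw [div_eq_iff h0.ne', ← Real.rpow_add hN0]
        have : 2 / 3 - 1 / (k : ℝ) + (1 / 3 + 1 / (k : ℝ)) = 1 := by ring
        rw [this, Real.rpow_one]

lemma sqrt_real {N : ℕ} (hN : 1 ≤ N) : (Nat.sqrt N : ℝ) ≤ (N : ℝ) ^ (2 / 3 : ℝ) := by
  have h1 : ((Nat.sqrt N : ℕ) : ℝ) ≤ Real.sqrt N := Real.nat_sqrt_le_real_sqrt
  refine h1.trans ?_
  rw [Real.sqrt_eq_rpow]
  exact Real.rpow_le_rpow_of_exponent_le (by exact_mod_cast hN) (by norm_num)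

/-- the `L2` bound for sums of vectors -/
lemma l2_vec (h1 : L2Stm) {q N y : ℕ} [NeZero q] (hqN : (q : ℝ) ≤ N) (hy : y ≤ N)
    (S : Finset (DirichletCharacter ℂ q)) (β : ℝ) (w : ℕ → ℂ) {X : ℝ} (hX : ∑ n ∈ Icc 1 y, ‖w n‖ ^ 2 ≤ X) :
    ‖∑ n ∈ Icc 1 y, (w n) • ev S β n‖ ^ 2 ≤ (2 * N) * X := by
  classical
  rw [norm_ev1 S β (Icc 1 y) w (fun n => n)]
  have e1 : ∀ χ ∈ S, ‖∑ n ∈ Icc 1 y, w n * (χ (n : ZMod q) * ee (n * β))‖ ^ 2 = ‖∑ n ∈ Icc 1 y,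
        (w n * ee (n * β)) * χ (n : ZMod q)‖ ^ 2 := by
    intro χ _
    congr 2
    refine sum_congr rfl fun n _ => ?_
    ring
  rw [sum_congr rfl e1]
  refine (sum_le_sum_of_subset_of_nonneg (subset_univ S) fun χ _ _ => sq_nonneg _).trans ?_
  refine ((h1 q y (fun n => w n * ee (n * β))).1).trans ?_
  have e2 : ∑ n ∈ Icc 1 y, ‖w n * ee (n * β)‖ ^ 2 = ∑ n ∈ Icc 1 y, ‖w n‖ ^ 2 := by
    refine sum_congr rfl fun n _ => ?_
    rw [norm_mul, Pool.Agent.H807R2.Dav.norm_ee, mul_one]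
  rw [e2]
  have hyr : (y : ℝ) ≤ N := by exact_mod_cast hy
  exact mul_le_mul (by linarith) hX (sum_nonneg fun _ _ => sq_nonneg _) (by positivity)

lemma five_sq {T T1 T2 T3 T4 T5 X : ℝ} (hT0 : 0 ≤ T) (h : T ≤ T1 + T2 + T3 + T4 + T5)
    (h1 : T1 ^ 2 ≤ X) (h2 : T2 ^ 2 ≤ X) (h3 : T3 ^ 2 ≤ X) (h4 : T4 ^ 2 ≤ X) (h5 : T5 ^ 2 ≤ X) :
    T ^ 2 ≤ 25 * X := by
  have e1 : T ^ 2 ≤ (T1 + T2 + T3 + T4 + T5) ^ 2 := pow_le_pow_left₀ hT0 h 2
  have e2 : (T1 + T2 + T3 + T4 + T5) ^ 2 ≤ 5 * (T1 ^ 2 + T2 ^ 2 + T3 ^ 2 + T4 ^ 2 + T5 ^ 2) := by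
    nlinarith [sq_nonneg (T1 - T2), sq_nonneg (T1 - T3), sq_nonneg (T1 - T4), sq_nonneg (T1 - T5),
      sq_nonneg (T2 - T3), sq_nonneg (T2 - T4), sq_nonneg (T2 - T5), sq_nonneg (T3 - T4), sq_nonneg (T3 - T5),
      sq_nonneg (T4 - T5)]
  linarith

/-- sums over the classes -/
lemma cells {N A : ℕ} (hL : 2 ≤ Real.log N) (f : ℕ → ℝ) (hf : ∀ j ∈ range (JJ N (A + 14)), f j ^ 2 ≤
      (N : ℝ) ^ 2 / Real.log N ^ (A + 2 * (A + 14) + 8)) :
      (∑ j ∈ range (JJ N (A + 14)), f j) ^ 2 ≤ (N : ℝ) ^ 2 / Real.log N ^ (A + 4) := by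
  have hJ := JJ_le (N := N) (U := A + 14) hL
  obtain ⟨L, hLd⟩ : ∃ L, L = Real.log (N : ℝ) := ⟨_, rfl⟩
  rw [← hLd] at hf hL hJ ⊢
  have hL0 : 0 < L := by linarith
  calc (∑ j ∈ range (JJ N (A + 14)), f j) ^ 2
      ≤ (range (JJ N (A + 14))).card * ∑ j ∈ range (JJ N (A + 14)), f j ^ 2 := sq_sum_le_card_mul_sum_sq
    _ ≤ (JJ N (A + 14) : ℝ) * ∑ j ∈ range (JJ N (A + 14)), (N : ℝ) ^ 2 / L ^ (A + 2 * (A + 14) + 8) := by
        rw [card_range]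
        gcongr with j hj
        exact hf j hj
    _ = (JJ N (A + 14) : ℝ) * (JJ N (A + 14) : ℝ) * ((N : ℝ) ^ 2 / L ^ (A + 2 * (A + 14) + 8)) := by
        rw [sum_const, card_range, nsmul_eq_mul]
        ring
    _ ≤ (L ^ (A + 14 + 2)) * (L ^ (A + 14 + 2)) * ((N : ℝ) ^ 2 / L ^ (A + 2 * (A + 14) + 8)) := by gcongr
    _ = (N : ℝ) ^ 2 / L ^ (A + 4) := by
        have e : L ^ (A + 2 * (A + 14) + 8) = L ^ (A + 14 + 2) * L ^ (A + 14 + 2) * L ^ (A + 4) := by ring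
        have e0 : L ^ (A + 14 + 2) ≠ 0 := by positivity
        have e1 : L ^ (A + 4) ≠ 0 := by positivity
        rw [e]
        generalize L ^ (A + 14 + 2) = X at e0 ⊢
        generalize L ^ (A + 4) = Y at e1 ⊢
        field_simp

open Classical in
/-- reduction to sums of types I and II -/
lemma pr_vec (h1 : L2Stm) (A k : ℕ) (hk : 12 ≤ k) : ∃ N₀ : ℕ, ∀ N : ℕ, N₀ ≤ N → ∀ (q : ℕ) [NeZero q], (q : ℝ) ≤ N →
    ∀ (S : Finset (DirichletCharacter ℂ q)) (β : ℝ) (y : ℕ), y ≤ N →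
    (‖∑ m ∈ Icc 1 y, (op (Zk k N) (Pk k N) (af (mu1 (Wk k N) (Wk k N))) m) • ∑ b ∈ Icc 1 (y / m), ev S β (b * m)‖ ^ 2 ≤
      (N : ℝ) ^ 2 / Real.log N ^ (A + 4)) →
    (∀ j ∈ range (JJ N (A + 14)), ‖∑ m ∈ Icc 1 y, ∑ l ∈ Icc 1 (y / m),
      (a2 (Wk k N) (Wk k N) (cc N (A + 14)) j m *
        op (Zk k N) (Pk k N) (af (b2 (Wk k N) (cc N (A + 14)) j)) l) • ev S β (m * l)‖ ^ 2 ≤
        (N : ℝ) ^ 2 / Real.log N ^ (A + 2 * (A + 14) + 8)) →
    (∀ j ∈ range (JJ N (A + 14)), ‖∑ m ∈ Icc 1 y, ∑ l ∈ Icc 1 (y / m),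
      (a1 (Wk k N) (Zk k N) (cc N (A + 14)) j m *
        op (Zk k N) (Pk k N) (af (b1 (cc N (A + 14)) j)) l) • ev S β (m * l)‖ ^ 2 ≤
        (N : ℝ) ^ 2 / Real.log N ^ (A + 2 * (A + 14) + 8)) →
    ‖∑ n ∈ Icc 1 y, (if n.Prime then (1 : ℂ) else 0) • ev S β n‖ ^ 2 ≤ (N : ℝ) ^ 2 / Real.log N ^ A := by
  obtain ⟨N₀, hN₀⟩ := Filter.eventually_atTop.1 (ev_log (A + 5) (s := 1 / 3) (by norm_num) 20000)
  refine ⟨max N₀ 64, fun N hN q _ hqN S β y hy t1 t2 t3 => ?_⟩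
  have hN64 : 64 ≤ N := le_trans (le_max_right _ _) hN
  have hN1 : 1 ≤ N := by omega
  have hN0 : (0 : ℝ) < N := by exact_mod_cast hN1
  have hNr1 : (1 : ℝ) ≤ N := by exact_mod_cast hN1
  obtain ⟨hL, hLp⟩ := hN₀ N (le_trans (le_max_left _ _) hN)
  have hcube := Zk_cube (k := k) hN1
  have hdec := j2 (V := EuclideanSpace ℂ (DirichletCharacter ℂ q)) (W := Wk k N) (Z := Zk k N) (P := Pk k N)
    (D := Wk k N) (J := JJ N (A + 14)) (y := y) (ev S β) (cc N (A + 14))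
    (fun m hm => cc_lt hm.1.one_le (hm.2.2.trans (Zk_le hk hN1)) (by linarith))
    (fun m hm => by
      have h2 := sm_le (one_le_Wk hN1) hm.1 hm.2.1 hm.2.2
      exact cc_lt (by omega) (h2.1.trans ((Wk_le hN1).trans (Zk_le hk hN1))) (by linarith))
  have herr : ‖∑ n ∈ Icc 1 y, (op (Zk k N) (Pk k N)
      (af (fun n => ((er (Wk k N) (Zk k N) (Wk k N) (cc N (A + 14)) n : ℝ) : ℂ))) n) • ev S β n‖ ^ 2 ≤
      (N : ℝ) ^ 2 / Real.log N ^ (A + 4) := by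
    have e2 : ∑ n ∈ Icc 1 y, ‖op (Zk k N) (Pk k N)
        (af (fun n => ((er (Wk k N) (Zk k N) (Wk k N) (cc N (A + 14)) n : ℝ) : ℂ))) n‖ ^ 2 ≤
        4 * (64 * (Real.log N ^ (A + 14))⁻¹ * N * (1 + Real.log N) ^ 5) := by
      refine le_trans ?_ (mul_le_mul_of_nonneg_left (tw_sum (δ := (Real.log N ^ (A + 14))⁻¹) (by
        have : 0 < Real.log N := by linarith
        positivity) N) (by norm_num))
      rw [mul_sum]
      refine le_trans (sum_le_sum fun n hn => ?_)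
        (sum_le_sum_of_subset_of_nonneg (Icc_subset_Icc le_rfl hy) fun _ _ _ => by positivity)
      rw [mem_Icc] at hn
      refine (pow_le_pow_left₀ (norm_nonneg _) (er_op (Wk_le hN1) (one_le_Wk hN1) hn.1 (hn.2.trans hy) hcube _
        (fun a b ha hab => ci_mono (by
          have : 0 < Real.log N := by linarith
          positivity) a b ha hab)) 2).trans (le_of_eq ?_)
      rw [mul_pow]
      norm_num
    refine (l2_vec h1 hqN hy S β _ e2).trans ?_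
    obtain ⟨L, hLd⟩ : ∃ L, L = Real.log (N : ℝ) := ⟨_, rfl⟩
    rw [← hLd] at hL ⊢
    have hL0 : 0 < L := by linarith
    calc (2 * (N : ℝ)) * (4 * (64 * (L ^ (A + 14))⁻¹ * N * (1 + L) ^ 5))
        ≤ (2 * N) * (4 * (64 * (L ^ (A + 14))⁻¹ * N * (2 * L) ^ 5)) := by
          gcongr
          linarith
      _ = (N : ℝ) ^ 2 / L ^ (A + 4) * (16384 / L ^ 5) := by
          rw [show A + 14 = (A + 4) + 5 + 5 by ring, pow_add, pow_add L (A + 4) 5]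
          field_simp
          ring
      _ ≤ (N : ℝ) ^ 2 / L ^ (A + 4) * 1 := by
          have h5 : 16384 / L ^ 5 ≤ 1 := by
            rw [div_le_one (by positivity)]
            calc (16384 : ℝ) ≤ L := by linarith
              _ = L ^ 1 := (pow_one L).symm
              _ ≤ L ^ 5 := pow_le_pow_right₀ (by linarith) (by norm_num)
          gcongr
      _ = _ := mul_one _
  have hsp : ‖∑ n ∈ Icc 1 y, (F1 (Zk k N) (Pk k N) n - (if n.Prime then 1 else 0)) • ev S β n‖ ^ 2 ≤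
      (N : ℝ) ^ 2 / Real.log N ^ (A + 4) := by
    have e1 := F1_sq (Z := Zk k N) (P := Pk k N) (N := N) rfl (Zk_le_Pk hk hN64) hy hcube
    have e2 : 9 * ((Pk k N : ℝ) + Nat.sqrt N) ≤ 18 * (N : ℝ) ^ (2 / 3 : ℝ) := by
      have h2 : (Pk k N : ℝ) ≤ (N : ℝ) ^ (2 / 3 : ℝ) := (Pk_real hN1).trans
        (Real.rpow_le_rpow_of_exponent_le hNr1 (by have := (inv_k hk).1; linarith))
      have h3 := sqrt_real hN1
      linarith
    refine (l2_vec h1 hqN hy S β _ (e1.trans e2)).trans ?_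
    obtain ⟨L, hLd⟩ : ∃ L, L = Real.log (N : ℝ) := ⟨_, rfl⟩
    rw [← hLd] at hL hLp ⊢
    have hL0 : 0 < L := by linarith
    rw [le_div_iff₀ (by positivity)]
    calc 2 * (N : ℝ) * (18 * (N : ℝ) ^ (2 / 3 : ℝ)) * L ^ (A + 4)
        = N * (N : ℝ) ^ (2 / 3 : ℝ) * (36 * L ^ (A + 4)) := by ring
      _ ≤ N * (N : ℝ) ^ (2 / 3 : ℝ) * (N : ℝ) ^ (1 / 3 : ℝ) := by
          have : 36 * L ^ (A + 4) ≤ (N : ℝ) ^ (1 / 3 : ℝ) := by
            refine le_trans ?_ hLp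
            calc 36 * L ^ (A + 4) ≤ L * L ^ (A + 4) := by gcongr; linarith
              _ = L ^ (A + 5) := by ring
          gcongr
      _ = N * ((N : ℝ) ^ (2 / 3 : ℝ) * (N : ℝ) ^ (1 / 3 : ℝ)) := by ring
      _ = (N : ℝ) ^ 2 := by
          rw [← Real.rpow_add hN0]
          norm_num
          ring
  have hfin : ‖∑ n ∈ Icc 1 y, (if n.Prime then (1 : ℂ) else 0) • ev S β n‖ ≤
      ‖∑ n ∈ Icc 1 y, (F1 (Zk k N) (Pk k N) n) • ev S β n‖ +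
      ‖∑ n ∈ Icc 1 y, (F1 (Zk k N) (Pk k N) n - (if n.Prime then 1 else 0)) • ev S β n‖ := by
    have e1 : ∑ n ∈ Icc 1 y, (if n.Prime then (1 : ℂ) else 0) • ev S β n =
        ∑ n ∈ Icc 1 y, (F1 (Zk k N) (Pk k N) n) • ev S β n -
        ∑ n ∈ Icc 1 y, (F1 (Zk k N) (Pk k N) n - (if n.Prime then 1 else 0)) • ev S β n := by
      rw [← sum_sub_distrib]
      refine sum_congr rfl fun n _ => ?_
      rw [← sub_smul]
      congr 1
      ring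
    rw [e1]
    exact norm_sub_le _ _
  have k2 := cells (by linarith) _ t2
  have k3 := cells (by linarith) _ t3
  have hall := five_sq (norm_nonneg _) (hfin.trans (add_le_add hdec le_rfl)) t1 k2 k3 herr hsp
  refine hall.trans ?_
  obtain ⟨L, hLd⟩ : ∃ L, L = Real.log (N : ℝ) := ⟨_, rfl⟩
  rw [← hLd] at hL ⊢
  have hL0 : 0 < L := by linarith
  calc 25 * ((N : ℝ) ^ 2 / L ^ (A + 4)) = (N : ℝ) ^ 2 / L ^ A * (25 / L ^ 4) := by
        rw [pow_add]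
        field_simp
    _ ≤ (N : ℝ) ^ 2 / L ^ A * 1 := by
        have h5 : 25 / L ^ 4 ≤ 1 := by
          rw [div_le_one (by positivity)]
          calc (25 : ℝ) ≤ L := by linarith
            _ = L ^ 1 := (pow_one L).symm
            _ ≤ L ^ 4 := pow_le_pow_right₀ (by linarith) (by norm_num)
        gcongr
    _ = _ := mul_one _

lemma vm_le' {N n : ℕ} (h1 : 0 < n) (h2 : n ≤ N) : ArithmeticFunction.vonMangoldt n ≤ Real.log N := by
  refine ArithmeticFunction.vonMangoldt_le_log.trans ?_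
  exact Real.log_le_log (by exact_mod_cast h1) (by exact_mod_cast h2)

/-- from the primes to the von Mangoldt function -/
lemma la_vec (h1 : L2Stm) (A : ℕ) : ∃ N₀ : ℕ, ∀ N : ℕ, N₀ ≤ N → ∀ (q : ℕ) [NeZero q], (q : ℝ) ≤ N →
    ∀ (S : Finset (DirichletCharacter ℂ q)) (β : ℝ) (y : ℕ), y ≤ N →
    (∀ y' ≤ y, ‖∑ n ∈ Icc 1 y', (if n.Prime then (1 : ℂ) else 0) • ev S β n‖ ^ 2 ≤
      (N : ℝ) ^ 2 / Real.log N ^ (A + 4)) →
    ∑ χ ∈ S, ‖cs q y LA β χ‖ ^ 2 ≤ (N : ℝ) ^ 2 / Real.log N ^ A := by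
  classical
  obtain ⟨N₀, hN₀⟩ := Filter.eventually_atTop.1 (ev_log (A + 8) (s := 1 / 4) (by norm_num) 20000)
  refine ⟨max N₀ 64, fun N hN q _ hqN S β y hy t1 => ?_⟩
  have hN64 : 64 ≤ N := le_trans (le_max_right _ _) hN
  have hN1 : 1 ≤ N := by omega
  have hN0 : (0 : ℝ) < N := by exact_mod_cast hN1
  have hNr1 : (1 : ℝ) ≤ N := by exact_mod_cast hN1
  obtain ⟨hL, hLp⟩ := hN₀ N (le_trans (le_max_left _ _) hN)
  have hL0 : 0 < Real.log N := by linarith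
  -- partial summation
  have hX : ∀ y' ≤ y, ‖∑ n ∈ Icc 1 y', (if n.Prime then (1 : ℂ) else 0) • ev S β n‖ ≤
      Real.sqrt ((N : ℝ) ^ 2 / Real.log N ^ (A + 4)) := by
    intro y' hy'
    apply Real.le_sqrt_of_sq_le
    exact t1 y' hy'
  have hB := abelIBV (fun n => (if n.Prime then (1 : ℂ) else 0) • ev S β n) (fun n => ((Real.log n : ℝ) : ℂ))
    (Real.sqrt ((N : ℝ) ^ 2 / Real.log N ^ (A + 4))) (Real.log N) (Real.log N) y hX
    (fun i hi => by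
      rw [mem_Icc] at hi
      rw [Complex.norm_real, Real.norm_eq_abs, abs_of_nonneg (Real.log_natCast_nonneg i)]
      exact Real.log_le_log (by exact_mod_cast hi.1) (by exact_mod_cast hi.2.trans hy))
    (by
      rcases Nat.eq_zero_or_pos y with hy0 | hy0
      · rw [hy0, range_zero, sum_empty]; exact hL0.le
      have e1 : ∀ i ∈ range y, ‖((Real.log ((i + 1 : ℕ) : ℝ) : ℝ) : ℂ) - ((Real.log (i : ℝ) : ℝ) : ℂ)‖ =
          Real.log ((i + 1 : ℕ) : ℝ) - Real.log (i : ℝ) := by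
        intro i _
        rw [← Complex.ofReal_sub, Complex.norm_real, Real.norm_eq_abs, abs_of_nonneg]
        rw [sub_nonneg]
        rcases Nat.eq_zero_or_pos i with h0 | h0
        · subst h0; simp
        · exact Real.log_le_log (by exact_mod_cast h0) (by push_cast; linarith)
      rw [sum_congr rfl e1, sum_range_sub (fun i : ℕ => Real.log (i : ℝ))]
      simp only [Nat.cast_zero, Real.log_zero, sub_zero]
      exact Real.log_le_log (by exact_mod_cast hy0) (by exact_mod_cast hy))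
    hL0.le
  -- the prime powers
  obtain ⟨w, hw⟩ : ∃ w : ℕ → ℂ, w = fun n => if n.Prime then 0 else LA n := ⟨_, rfl⟩
  have hwsum : ∑ n ∈ Icc 1 y, ‖w n‖ ^ 2 ≤ Real.log N * (2 * Real.sqrt N * Real.log N) := by
    have k1 := Chebyshev.psi_sub_theta_le hNr1
    rw [Chebyshev.psi_sub_theta_eq_sum_not_prime, Nat.floor_natCast] at k1
    have k2 : ∑ n ∈ Icc 1 y, ‖w n‖ ^ 2 ≤ Real.log N * ∑ n ∈ (Ioc 0 N).filter (fun n => ¬ n.Prime),
        ArithmeticFunction.vonMangoldt n := by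
      rw [mul_sum, sum_filter]
      have e0 : Icc 1 y ⊆ Ioc 0 N := by
        intro n hn
        rw [mem_Icc] at hn
        rw [mem_Ioc]
        omega
      refine le_trans (sum_le_sum_of_subset_of_nonneg e0 fun _ _ _ => sq_nonneg _) (sum_le_sum fun n hn => ?_)
      rw [mem_Ioc] at hn
      rw [hw]
      simp only
      by_cases hp : n.Prime
      · rw [if_pos hp, if_neg (by simpa using hp), norm_zero]
        norm_num
      · rw [if_neg hp, if_pos hp]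
        unfold LA
        rw [Complex.norm_real, Real.norm_eq_abs, abs_of_nonneg ArithmeticFunction.vonMangoldt_nonneg, sq]
        exact mul_le_mul_of_nonneg_right (vm_le' hn.1 hn.2) ArithmeticFunction.vonMangoldt_nonneg
    refine k2.trans (mul_le_mul_of_nonneg_left k1 hL0.le)
  have hC := l2_vec h1 hqN hy S β w hwsum
  -- the sum
  have hcs : ∑ χ ∈ S, ‖cs q y LA β χ‖ ^ 2 = ‖∑ n ∈ Icc 1 y, (LA n) • ev S β n‖ ^ 2 := by
    rw [norm_ev1 S β (Icc 1 y) LA (fun n => n)]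
    refine sum_congr rfl fun χ _ => ?_
    congr 2
    unfold cs
    refine sum_congr rfl fun n _ => ?_
    ring
  have hsplit : ∑ n ∈ Icc 1 y, (LA n) • ev S β n =
      ∑ n ∈ Icc 1 y, ((Real.log n : ℝ) : ℂ) • ((if n.Prime then (1 : ℂ) else 0) • ev S β n) +
      ∑ n ∈ Icc 1 y, (w n) • ev S β n := by
    rw [← sum_add_distrib]
    refine sum_congr rfl fun n _ => ?_
    rw [smul_smul, ← add_smul]
    congr 1
    rw [hw]
    simp only
    by_cases hp : n.Prime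
    · rw [if_pos hp, if_pos hp, mul_one, add_zero]
      unfold LA
      rw [ArithmeticFunction.vonMangoldt_apply_prime hp]
    · rw [if_neg hp, if_neg hp, mul_zero, zero_add]
  rw [hcs, hsplit]
  obtain ⟨T1, hT1⟩ : ∃ T1, T1 = ‖∑ n ∈ Icc 1 y, ((Real.log n : ℝ) : ℂ) • ((if n.Prime then (1 : ℂ) else 0) • ev S β n)‖ :=
    ⟨_, rfl⟩
  obtain ⟨T2, hT2⟩ : ∃ T2, T2 = ‖∑ n ∈ Icc 1 y, (w n) • ev S β n‖ := ⟨_, rfl⟩
  rw [← hT1] at hB
  rw [← hT2] at hC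
  have hT10 : 0 ≤ T1 := by rw [hT1]; exact norm_nonneg _
  have hT20 : 0 ≤ T2 := by rw [hT2]; exact norm_nonneg _
  have e1 : ‖∑ n ∈ Icc 1 y, ((Real.log n : ℝ) : ℂ) • ((if n.Prime then (1 : ℂ) else 0) • ev S β n) +
      ∑ n ∈ Icc 1 y, (w n) • ev S β n‖ ≤ T1 + T2 := by
    rw [hT1, hT2]
    exact norm_add_le _ _
  have e2 := pow_le_pow_left₀ (norm_nonneg _) e1 2
  have e3 : T1 ^ 2 ≤ ((N : ℝ) ^ 2 / Real.log N ^ (A + 4)) * (2 * Real.log N) ^ 2 := by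
    refine (pow_le_pow_left₀ hT10 hB 2).trans (le_of_eq ?_)
    rw [mul_pow, Real.sq_sqrt (by positivity)]
    ring
  have hsq : Real.sqrt N ≤ (N : ℝ) ^ (1 / 2 : ℝ) := by rw [Real.sqrt_eq_rpow]
  obtain ⟨L, hLd⟩ : ∃ L, L = Real.log (N : ℝ) := ⟨_, rfl⟩
  rw [← hLd] at e3 hC hL hLp hL0 ⊢
  have e4 : T1 ^ 2 ≤ (N : ℝ) ^ 2 / L ^ A * (1 / 4) := by
    refine e3.trans ?_
    calc ((N : ℝ) ^ 2 / L ^ (A + 4)) * (2 * L) ^ 2 = (N : ℝ) ^ 2 / L ^ A * (4 / L ^ 2) := by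
          rw [pow_add]
          field_simp
          norm_num
      _ ≤ _ := by
          have : 4 / L ^ 2 ≤ 1 / 4 := by
            rw [div_le_div_iff₀ (by positivity) (by norm_num)]
            nlinarith
          gcongr
  have e5 : T2 ^ 2 ≤ (N : ℝ) ^ 2 / L ^ A * (1 / 4) := by
    refine hC.trans ?_
    calc 2 * (N : ℝ) * (L * (2 * Real.sqrt N * L)) ≤ 2 * (N : ℝ) * (L * (2 * (N : ℝ) ^ (1 / 2 : ℝ) * L)) := by gcongr
      _ = N * (N : ℝ) ^ (1 / 2 : ℝ) * (4 * L ^ 2) := by ring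
      _ = N * (N : ℝ) ^ (1 / 2 : ℝ) * (16 * L ^ 2 * L ^ A) / L ^ A * (1 / 4) := by
          field_simp
          ring
      _ ≤ N * (N : ℝ) ^ (1 / 2 : ℝ) * (N : ℝ) ^ (1 / 4 : ℝ) / L ^ A * (1 / 4) := by
          have : 16 * L ^ 2 * L ^ A ≤ (N : ℝ) ^ (1 / 4 : ℝ) := by
            refine le_trans ?_ hLp
            calc 16 * L ^ 2 * L ^ A ≤ L ^ 6 * L ^ 2 * L ^ A := by
                  gcongr
                  calc (16 : ℝ) ≤ L := by linarith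
                    _ = L ^ 1 := (pow_one L).symm
                    _ ≤ L ^ 6 := pow_le_pow_right₀ (by linarith) (by norm_num)
              _ = L ^ (A + 8) := by ring
          gcongr
      _ ≤ (N : ℝ) ^ 2 / L ^ A * (1 / 4) := by
          have : N * (N : ℝ) ^ (1 / 2 : ℝ) * (N : ℝ) ^ (1 / 4 : ℝ) ≤ (N : ℝ) ^ 2 := by
            calc N * (N : ℝ) ^ (1 / 2 : ℝ) * (N : ℝ) ^ (1 / 4 : ℝ) =
                (N : ℝ) ^ (1 : ℝ) * (N : ℝ) ^ (1 / 2 : ℝ) * (N : ℝ) ^ (1 / 4 : ℝ) := by rw [Real.rpow_one]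
              _ = (N : ℝ) ^ (7 / 4 : ℝ) := by
                  rw [← Real.rpow_add hN0, ← Real.rpow_add hN0]
                  norm_num
              _ ≤ (N : ℝ) ^ (2 : ℝ) := Real.rpow_le_rpow_of_exponent_le hNr1 (by norm_num)
              _ = (N : ℝ) ^ 2 := by
                  rw [← Real.rpow_natCast]
                  norm_num
          gcongr
  have e6 : (T1 + T2) ^ 2 ≤ 2 * T1 ^ 2 + 2 * T2 ^ 2 := by nlinarith [sq_nonneg (T1 - T2)]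
  linarith

end Pool.Agent.R460.GH
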